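import Mathlib

/-!
# Complex differentiable maps of several variables are smooth

`contDiffOn_hol`: let `f` be complex differentiable on an open subset of a finite dimensional
complex normed space, with values in a finite dimensional space. Then `f` is of class `C^∞`.
Proof: by the Cauchy formula on complex lines `z ↦ f'(z) w` is an integral of translates of `f`
with parameters, and can be differentiated under the integral sign (Cauchy estimate for the
domination). So `f'` is complex differentiable; induction.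
-/

set_option autoImplicit false

namespace Pool.Agent.Helper32

open MeasureTheory Set Filter Topology Metric

universe u

variable {E F : Type u} [NormedAddCommGroup E] [NormedSpace ℂ E] [NormedAddCommGroup F]
  [NormedSpace ℂ F] {f : E → F} {Ω : Set E}

private theorem line_has {y v : E} {t : ℂ} (h : DifferentiableAt ℂ f (y + t • v)) :
    HasDerivAt (fun t : ℂ => f (y + t • v)) (fderiv ℂ f (y + t • v) v) t := by
  have h1 : HasDerivAt (fun t : ℂ => y + t • v) v t := by
    have h2 := (hasDerivAt_id t).smul_const v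
    rw [one_smul] at h2
    exact h2.const_add y
  exact h.hasFDerivAt.comp_hasDerivAt t h1

private theorem line_dcc {y v : E} {ρ : ℝ} (hΩ : IsOpen Ω) (hf : DifferentiableOn ℂ f Ω)
    (h : ∀ t : ℂ, ‖t‖ ≤ ρ → y + t • v ∈ Ω) :
    DiffContOnCl ℂ (fun t : ℂ => f (y + t • v)) (ball 0 ρ) := by
  apply DifferentiableOn.diffContOnCl
  intro t ht
  have ht' : ‖t‖ ≤ ρ := by
    have := closure_ball_subset_closedBall ht
    simpa using this
  exact (line_has ((hf _ (h t ht')).differentiableAt
    (hΩ.mem_nhds (h t ht')))).differentiableAt.differentiableWithinAt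

/-- Cauchy estimate -/
theorem norm_fderiv_le_hol {y : E} {r M : ℝ} (hΩ : IsOpen Ω) (hf : DifferentiableOn ℂ f Ω)
    (hr : 0 < r) (hy : closedBall y r ⊆ Ω) (hM : ∀ x ∈ closedBall y r, ‖f x‖ ≤ M) :
    ‖fderiv ℂ f y‖ ≤ M / r := by
  have hM0 : 0 ≤ M := (norm_nonneg _).trans (hM y (mem_closedBall_self hr.le))
  refine ContinuousLinearMap.opNorm_le_bound _ (by positivity) fun v => ?_
  by_cases hv : v = 0
  · rw [hv, map_zero, norm_zero, norm_zero, mul_zero]
  have hv' : 0 < ‖v‖ := norm_pos_iff.2 hv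
  have hρ : 0 < r / ‖v‖ := by positivity
  have hmem : ∀ t : ℂ, ‖t‖ ≤ r / ‖v‖ → y + t • v ∈ closedBall y r := by
    intro t ht
    rw [mem_closedBall, dist_eq_norm, add_sub_cancel_left, norm_smul]
    rwa [le_div_iff₀ hv'] at ht
  have h1 := line_dcc (v := v) hΩ hf (fun t ht => hy (hmem t ht))
  have h2 := Complex.norm_deriv_le_of_forall_mem_sphere_norm_le hρ h1 (C := M) (fun t ht => by
    apply hM
    apply hmem
    rw [mem_sphere, dist_zero_right] at ht
    exact ht.le)
  have hyΩ : y + (0 : ℂ) • v ∈ Ω := by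
    rw [zero_smul, add_zero]
    exact hy (mem_closedBall_self hr.le)
  have h3 := (line_has (v := v) ((hf _ hyΩ).differentiableAt (hΩ.mem_nhds hyΩ))).deriv
  rw [h3, zero_smul, add_zero, div_div_eq_mul_div] at h2
  rwa [div_mul_eq_mul_div]

variable [FiniteDimensional ℂ E] [FiniteDimensional ℂ F]

private theorem fderiv_apply_diff (hΩ : IsOpen Ω) (hf : DifferentiableOn ℂ f Ω) (w : E) :
    DifferentiableOn ℂ (fun z => fderiv ℂ f z w) Ω := by
  have hE : ProperSpace E := FiniteDimensional.proper ℂ E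
  have hF : CompleteSpace F := FiniteDimensional.complete ℂ F
  borelize E
  borelize F
  intro z0 hz0
  refine DifferentiableAt.differentiableWithinAt ?_
  obtain ⟨ε, hε, hball⟩ := Metric.isOpen_iff.1 hΩ z0 hz0
  obtain ⟨r, hr⟩ : ∃ r, r = ε / 4 := ⟨_, rfl⟩
  have hr0 : 0 < r := by rw [hr]; positivity
  have h3r : closedBall z0 (3 * r) ⊆ Ω :=
    (closedBall_subset_ball (by rw [hr]; linarith)).trans hball
  obtain ⟨M, hM⟩ : ∃ M, ∀ x ∈ closedBall z0 (3 * r), ‖f x‖ ≤ M :=
    (isCompact_closedBall z0 (3 * r)).exists_bound_of_continuousOn (hf.continuousOn.mono h3r)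
  -- the radius of the circle
  obtain ⟨ρ, hρ0, hρ⟩ : ∃ ρ : ℝ, 0 < ρ ∧ ρ * ‖w‖ ≤ r := by
    refine ⟨r / (‖w‖ + 1), by positivity, ?_⟩
    rw [div_mul_eq_mul_div, div_le_iff₀ (by positivity)]
    nlinarith [norm_nonneg w]
  have hmem2 : ∀ z ∈ ball z0 r, ∀ t : ℂ, ‖t‖ ≤ ρ → z + t • w ∈ closedBall z0 (2 * r) := by
    intro z hz t ht
    rw [mem_closedBall, dist_eq_norm]
    rw [mem_ball, dist_eq_norm] at hz
    calc ‖z + t • w - z0‖ = ‖(z - z0) + t • w‖ := by congr 1; abel
      _ ≤ ‖z - z0‖ + ‖t • w‖ := norm_add_le _ _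
      _ ≤ r + ρ * ‖w‖ := by
        rw [norm_smul]
        exact add_le_add hz.le (mul_le_mul_of_nonneg_right ht (norm_nonneg _))
      _ ≤ 2 * r := by linarith
  have h2Ω : closedBall z0 (2 * r) ⊆ Ω := (closedBall_subset_closedBall (by linarith)).trans h3r
  have hder : ∀ y ∈ closedBall z0 (2 * r), ‖fderiv ℂ f y‖ ≤ M / r := by
    intro y hy
    have hsub : closedBall y r ⊆ closedBall z0 (3 * r) := by
      apply closedBall_subset_closedBall'
      rw [mem_closedBall] at hy
      linarith
    exact norm_fderiv_le_hol hΩ hf hr0 (hsub.trans h3r) fun x hx => hM x (hsub hx)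
  have hdiffAt : ∀ y ∈ closedBall z0 (2 * r), DifferentiableAt ℂ f y := fun y hy =>
    (hf y (h2Ω hy)).differentiableAt (hΩ.mem_nhds (h2Ω hy))
  -- the coefficient
  obtain ⟨c, hc⟩ : ∃ c : ℝ → ℂ, c = fun θ => deriv (circleMap 0 ρ) θ *
    (1 / (circleMap 0 ρ θ - 0) ^ (1 + 1)) := ⟨_, rfl⟩
  have hcm : ∀ θ, circleMap 0 ρ θ ≠ 0 := fun θ => by
    intro h
    have h' := norm_circleMap_zero ρ θ
    rw [h, norm_zero] at h'
    exact (abs_pos.2 hρ0.ne').ne h'
  have hcc : Continuous c := by
    rw [hc]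
    have h1 : Continuous (deriv (circleMap 0 ρ)) := by
      have : deriv (circleMap 0 ρ) = fun θ => circleMap 0 ρ θ * Complex.I := by
        funext θ; exact deriv_circleMap 0 ρ θ
      rw [this]
      exact (continuous_circleMap 0 ρ).mul continuous_const
    refine h1.mul (continuous_const.div (((continuous_circleMap 0 ρ).sub continuous_const).pow _)
      fun θ => ?_)
    rw [sub_zero]
    exact pow_ne_zero _ (hcm θ)
  -- Cauchy formula
  have hform : ∀ z ∈ ball z0 r, fderiv ℂ f z w =
      (2 * Real.pi * Complex.I / (Nat.factorial 1 : ℂ))⁻¹ •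
        ∫ θ in (0 : ℝ)..2 * Real.pi, c θ • f (z + circleMap 0 ρ θ • w) := by
    intro z hz
    have h1 := line_dcc (v := w) hΩ hf (fun t ht => h2Ω (hmem2 z hz t ht))
    have h2 := h1.circleIntegral_one_div_sub_center_pow_smul hρ0 1
    have h3 : iteratedDeriv 1 (fun t : ℂ => f (z + t • w)) 0 = fderiv ℂ f z w := by
      rw [iteratedDeriv_one]
      have h4 := (line_has (v := w) (hdiffAt _ (hmem2 z hz 0 (by rw [norm_zero]; exact hρ0.le)))).deriv
      rw [h4, zero_smul, add_zero]
    rw [h3] at h2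
    have h5 : (2 * Real.pi * Complex.I / (Nat.factorial 1 : ℂ)) ≠ 0 := by
      simp [Real.pi_ne_zero]
    rw [← inv_smul_smul₀ h5 (fderiv ℂ f z w), ← h2]
    congr 1
    rw [circleIntegral]
    refine intervalIntegral.integral_congr fun θ _ => ?_
    rw [hc]
    simp only [smul_smul]
  have hcont : ∀ z ∈ ball z0 r, Continuous fun θ : ℝ => c θ • f (z + circleMap 0 ρ θ • w) := by
    intro z hz
    have h1 : Continuous fun θ : ℝ => z + circleMap 0 ρ θ • w :=
      continuous_const.add ((continuous_circleMap 0 ρ).smul continuous_const)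
    have h2 : Continuous fun θ : ℝ => f (z + circleMap 0 ρ θ • w) := by
      apply (hf.continuousOn.mono h2Ω).comp_continuous h1
      intro θ
      apply hmem2 z hz
      rw [norm_circleMap_zero, abs_of_pos hρ0]
    exact hcc.smul h2
  obtain ⟨K, hK⟩ : ∃ K, ∀ θ ∈ Icc (0 : ℝ) (2 * Real.pi), ‖c θ‖ ≤ K :=
    isCompact_Icc.exists_bound_of_continuousOn hcc.continuousOn
  have hint : HasFDerivAt (fun z => ∫ θ in (0 : ℝ)..2 * Real.pi, c θ • f (z + circleMap 0 ρ θ • w))
      (∫ θ in (0 : ℝ)..2 * Real.pi, c θ • fderiv ℂ f (z0 + circleMap 0 ρ θ • w)) z0 := by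
    refine intervalIntegral.hasFDerivAt_integral_of_dominated_of_fderiv_le (𝕜 := ℂ)
      (F' := fun z θ => c θ • fderiv ℂ f (z + circleMap 0 ρ θ • w))
      (bound := fun _ => K * (M / r)) (ball_mem_nhds z0 hr0) ?_ ?_ ?_ ?_ ?_ ?_
    · filter_upwards [ball_mem_nhds z0 hr0] with z hz
      exact (hcont z hz).aestronglyMeasurable
    · exact (hcont z0 (mem_ball_self hr0)).intervalIntegrable _ _
    · have h1 : Continuous fun θ : ℝ => z0 + circleMap 0 ρ θ • w :=
        continuous_const.add ((continuous_circleMap 0 ρ).smul continuous_const)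
      have h2 : Measurable (fderiv ℂ f) := measurable_fderiv ℂ f
      have h3 : Measurable fun θ : ℝ => fderiv ℂ f (z0 + circleMap 0 ρ θ • w) :=
        h2.comp h1.measurable
      have h4 : ProperSpace (E →L[ℂ] F) := FiniteDimensional.proper ℂ _
      exact hcc.aestronglyMeasurable.smul h3.aestronglyMeasurable
    · refine Eventually.of_forall fun θ hθ z hz => ?_
      rw [norm_smul]
      rw [uIoc_of_le (by positivity)] at hθ
      refine mul_le_mul (hK θ ⟨hθ.1.le, hθ.2⟩) (hder _ (hmem2 z hz _ ?_)) (norm_nonneg _)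
        ((norm_nonneg _).trans (hK θ ⟨hθ.1.le, hθ.2⟩))
      rw [norm_circleMap_zero, abs_of_pos hρ0]
    · exact intervalIntegrable_const
    · refine Eventually.of_forall fun θ _ z hz => ?_
      have h1 : HasFDerivAt (fun z => z + circleMap 0 ρ θ • w) (ContinuousLinearMap.id ℂ E) z :=
        (hasFDerivAt_id z).add_const _
      have h2 := (hdiffAt _ (hmem2 z hz (circleMap 0 ρ θ) (by
        rw [norm_circleMap_zero, abs_of_pos hρ0]))).hasFDerivAt.comp z h1
      exact h2.const_smul (c θ)
  have h6 := (hint.const_smul (2 * Real.pi * Complex.I / (Nat.factorial 1 : ℂ))⁻¹).differentiableAt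
  refine h6.congr_of_eventuallyEq ?_
  filter_upwards [ball_mem_nhds z0 hr0] with z hz
  exact hform z hz

/-- a complex differentiable map of several variables is of class `C^k` for all `k` -/
theorem contDiffOn_hol_nat (hΩ : IsOpen Ω) (k : ℕ) : ∀ f : E → F, DifferentiableOn ℂ f Ω →
    ContDiffOn ℂ k f Ω := by
  induction k with
  | zero =>
    intro f hf
    rw [Nat.cast_zero, contDiffOn_zero]
    exact hf.continuousOn
  | succ k ih =>
    intro f hf
    rw [Nat.cast_succ, contDiffOn_succ_iff_fderiv_of_isOpen hΩ]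
    refine ⟨hf, fun h => absurd h (by simp), ?_⟩
    rw [contDiffOn_clm_apply]
    intro w
    exact ih _ (fderiv_apply_diff hΩ hf w)

/-- a complex differentiable map of several variables is smooth -/
theorem contDiffOn_hol (hΩ : IsOpen Ω) (hf : DifferentiableOn ℂ f Ω) :
    ContDiffOn ℂ (⊤ : ℕ∞) f Ω :=
  contDiffOn_infty.2 fun k => contDiffOn_hol_nat hΩ k f hf

theorem contDiffAt_hol {n : ℕ∞} {z : E} (hΩ : IsOpen Ω) (hf : DifferentiableOn ℂ f Ω) (hz : z ∈ Ω) :
    ContDiffAt ℂ n f z :=
  ((contDiffOn_hol hΩ hf).contDiffAt (hΩ.mem_nhds hz)).of_le (by exact_mod_cast le_top)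

/-- real version -/
theorem contDiffOn_hol_real [NormedSpace ℝ E] [NormedSpace ℝ F] [IsScalarTower ℝ ℂ E]
    [IsScalarTower ℝ ℂ F] (hΩ : IsOpen Ω) (hf : DifferentiableOn ℂ f Ω) :
    ContDiffOn ℝ (⊤ : ℕ∞) f Ω :=
  (contDiffOn_hol hΩ hf).restrict_scalars ℝ

/-- the derivative of a complex differentiable map is complex differentiable -/
theorem differentiableOn_fderiv_hol (hΩ : IsOpen Ω) (hf : DifferentiableOn ℂ f Ω) :
    DifferentiableOn ℂ (fderiv ℂ f) Ω := by
  have h := (contDiffOn_infty_iff_fderiv_of_isOpen hΩ).1 (contDiffOn_hol hΩ hf)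
  exact h.2.differentiableOn (by simp)

end Pool.Agent.Helper32
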