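import Mathlib

open scoped InnerProductSpace ComplexConjugate
open Module End Filter Topology

namespace Pool.Agent.Helper32.RM

variable {H : Type*} [NormedAddCommGroup H] [InnerProductSpace ℂ H]

theorem complement_bound {T : H →L[ℂ] H} (hS : (T : H →ₗ[ℂ] H).IsSymmetric) {k : ℕ}
    {e : Fin k → H} {ν : Fin k → ℝ} (he : Orthonormal ℂ e)
    (hTe : ∀ i, T (e i) = (ν i : ℂ) • e i) (m : ℝ) (hm : 0 ≤ m)
    (hbd : ∀ y, (∀ i, ⟪e i, y⟫_ℂ = 0) → ‖T y‖ ≤ m * ‖y‖) (σ : ℝ) (hσ : |σ| = 1) (x : H)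
    (hx : ∀ i, 0 < σ * ν i → ⟪e i, x⟫_ℂ = 0) :
    σ * (⟪x, T x⟫_ℂ).re ≤ m * ‖x‖ ^ 2 := by
  classical
  set c : Fin k → ℂ := fun i => ⟪e i, x⟫_ℂ with hc
  set p : H := ∑ i, c i • e i with hp
  set y : H := x - p with hy
  have hxe : x = p + y := by rw [hy]; abel
  have hey : ∀ i, ⟪e i, y⟫_ℂ = 0 := by
    intro i
    rw [hy, inner_sub_right, hp, he.inner_right_fintype, sub_self]
  have hTp : T p = ∑ i, (c i * (ν i : ℂ)) • e i := by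
    rw [hp, map_sum]
    refine Finset.sum_congr rfl fun i _ => ?_
    rw [map_smul, hTe, smul_smul]
  have hpy : ⟪p, y⟫_ℂ = 0 := by
    rw [hp, sum_inner]
    refine Finset.sum_eq_zero fun i _ => ?_
    rw [inner_smul_left, hey, mul_zero]
  have hTpy : ⟪T p, y⟫_ℂ = 0 := by
    rw [hTp, sum_inner]
    refine Finset.sum_eq_zero fun i _ => ?_
    rw [inner_smul_left, hey, mul_zero]
  have hpTy : ⟪p, T y⟫_ℂ = 0 := by
    have := hS p y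
    simp only [ContinuousLinearMap.coe_coe] at this
    rw [← this, hTpy]
  have hyTp : ⟪y, T p⟫_ℂ = 0 := by
    rw [← inner_conj_symm, hTpy, map_zero]
  have hmain : (⟪x, T x⟫_ℂ).re = ∑ i, ν i * ‖c i‖ ^ 2 + (⟪y, T y⟫_ℂ).re := by
    have h1 : ⟪x, T x⟫_ℂ = ⟪p, T p⟫_ℂ + ⟪y, T y⟫_ℂ := by
      rw [hxe, map_add, inner_add_left, inner_add_right, inner_add_right, hpTy, hyTp]
      ring
    have h2 : (⟪p, T p⟫_ℂ).re = ∑ i, ν i * ‖c i‖ ^ 2 := by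
      rw [hTp, hp, he.inner_sum, Complex.re_sum]
      refine Finset.sum_congr rfl fun i _ => ?_
      have : (starRingEnd ℂ) (c i) * (c i * (ν i : ℂ)) = ((ν i * ‖c i‖ ^ 2 : ℝ) : ℂ) := by
        rw [← mul_assoc, Complex.conj_mul']
        push_cast
        ring
      rw [this, Complex.ofReal_re]
    rw [h1, Complex.add_re, h2]
  have hnorm : ‖x‖ ^ 2 = ‖p‖ ^ 2 + ‖y‖ ^ 2 := by
    have := norm_add_sq_eq_norm_sq_add_norm_sq_of_inner_eq_zero p y hpy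
    rw [hxe]
    nlinarith [this]
  have hsum : σ * ∑ i, ν i * ‖c i‖ ^ 2 ≤ 0 := by
    rw [Finset.mul_sum]
    refine Finset.sum_nonpos fun i _ => ?_
    by_cases h : 0 < σ * ν i
    · have : c i = 0 := hx i h
      rw [this]; simp
    · rw [← mul_assoc]
      exact mul_nonpos_of_nonpos_of_nonneg (not_lt.1 h) (by positivity)
  have hyb : σ * (⟪y, T y⟫_ℂ).re ≤ m * ‖y‖ ^ 2 := by
    calc σ * (⟪y, T y⟫_ℂ).re ≤ |σ * (⟪y, T y⟫_ℂ).re| := le_abs_self _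
      _ = |(⟪y, T y⟫_ℂ).re| := by rw [abs_mul, hσ, one_mul]
      _ ≤ ‖⟪y, T y⟫_ℂ‖ := Complex.abs_re_le_norm _
      _ ≤ ‖y‖ * ‖T y‖ := norm_inner_le_norm _ _
      _ ≤ ‖y‖ * (m * ‖y‖) := mul_le_mul_of_nonneg_left (hbd y hey) (norm_nonneg _)
      _ = m * ‖y‖ ^ 2 := by ring
  rw [hmain, mul_add]
  have : m * ‖y‖ ^ 2 ≤ m * ‖x‖ ^ 2 := by
    apply mul_le_mul_of_nonneg_left _ hm
    rw [hnorm]; nlinarith [sq_nonneg ‖p‖]
  linarith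

variable [CompleteSpace H]

theorem exists_shift {φ : ℕ → H} (hli : LinearIndependent ℂ φ) {ρ : ℝ} (hρ : 0 ≤ ρ)
    (hcontr : ∀ h : ℕ →₀ ℂ, ‖Finsupp.linearCombination ℂ (fun i => φ (i + 1)) h‖ ^ 2 ≤
      ρ * ‖Finsupp.linearCombination ℂ φ h‖ ^ 2) (x : H) :
    ∃ x' : H, ‖x'‖ ^ 2 ≤ ρ * ‖x‖ ^ 2 ∧ ∀ i, ⟪φ i, x'⟫_ℂ = ⟪φ (i + 1), x⟫_ℂ := by
  classical
  let f₀ : Submodule.span ℂ (Set.range φ) →ₗ[ℂ] ℂ :=
    ((innerSL ℂ x : H →L[ℂ] ℂ) : H →ₗ[ℂ] ℂ) ∘ₗ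
      (Finsupp.linearCombination ℂ (fun i => φ (i + 1))) ∘ₗ
      (hli.repr : Submodule.span ℂ (Set.range φ) →ₗ[ℂ] (ℕ →₀ ℂ))
  have hsq : ∀ h : ℕ →₀ ℂ, ‖Finsupp.linearCombination ℂ (fun i => φ (i + 1)) h‖ ≤
      Real.sqrt ρ * ‖Finsupp.linearCombination ℂ φ h‖ := by
    intro h
    rw [← Real.sqrt_sq (norm_nonneg (Finsupp.linearCombination ℂ φ h)), ← Real.sqrt_mul hρ]
    exact Real.le_sqrt_of_sq_le (hcontr h)
  have hb : ∀ v, ‖f₀ v‖ ≤ (‖x‖ * Real.sqrt ρ) * ‖v‖ := by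
    intro v
    have h1 : ‖f₀ v‖ ≤ ‖x‖ * ‖Finsupp.linearCombination ℂ (fun i => φ (i + 1)) (hli.repr v)‖ :=
      norm_inner_le_norm _ _
    have h2 := hsq (hli.repr v)
    rw [hli.linearCombination_repr] at h2
    calc ‖f₀ v‖ ≤ _ := h1
      _ ≤ ‖x‖ * (Real.sqrt ρ * ‖(v : H)‖) := mul_le_mul_of_nonneg_left h2 (norm_nonneg _)
      _ = (‖x‖ * Real.sqrt ρ) * ‖v‖ := by rw [← mul_assoc]; rfl
  let f : StrongDual ℂ (Submodule.span ℂ (Set.range φ)) := f₀.mkContinuous _ hb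
  obtain ⟨g, hg, hgn⟩ := exists_extension_norm_eq (Submodule.span ℂ (Set.range φ)) f
  refine ⟨(InnerProductSpace.toDual ℂ H).symm g, ?_, ?_⟩
  · have h1 : ‖(InnerProductSpace.toDual ℂ H).symm g‖ ≤ ‖x‖ * Real.sqrt ρ := by
      rw [LinearIsometryEquiv.norm_map, hgn]
      exact LinearMap.mkContinuous_norm_le _ (by positivity) _
    calc ‖(InnerProductSpace.toDual ℂ H).symm g‖ ^ 2 ≤ (‖x‖ * Real.sqrt ρ) ^ 2 :=
          pow_le_pow_left₀ (norm_nonneg _) h1 2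
      _ = ρ * ‖x‖ ^ 2 := by rw [mul_pow, Real.sq_sqrt hρ]; ring
  · intro i
    have hmem : φ i ∈ Submodule.span ℂ (Set.range φ) := Submodule.subset_span ⟨i, rfl⟩
    have h1 : ⟪(InnerProductSpace.toDual ℂ H).symm g, φ i⟫_ℂ = ⟪x, φ (i + 1)⟫_ℂ := by
      rw [InnerProductSpace.toDual_symm_apply]
      have h2 := hg ⟨φ i, hmem⟩
      rw [h2]
      change ⟪x, Finsupp.linearCombination ℂ (fun i => φ (i + 1)) (hli.repr ⟨φ i, hmem⟩)⟫_ℂ = _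
      rw [hli.repr_eq_single i ⟨φ i, hmem⟩ rfl, Finsupp.linearCombination_single, one_smul]
    rw [← inner_conj_symm, h1, inner_conj_symm]

end Pool.Agent.Helper32.RM
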