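import Mathlib

open scoped InnerProductSpace ComplexConjugate
open Module End Filter Topology

namespace Pool.Agent.Helper32.RM

variable {H : Type*} [NormedAddCommGroup H] [InnerProductSpace ℂ H]

/-- Hypotheses on the vectors `φ i`. -/
structure ShiftData (φ : ℕ → H) (ρ : ℝ) : Prop where
  summable : Summable fun i => ‖φ i‖ ^ 2
  nonneg : 0 ≤ ρ
  lt_one : ρ < 1
  contr : ∀ h : ℕ →₀ ℂ, ‖Finsupp.linearCombination ℂ (fun i => φ (i + 1)) h‖ ^ 2 ≤
      ρ * ‖Finsupp.linearCombination ℂ φ h‖ ^ 2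
  lower : ∀ i, ∃ δ : ℝ, 0 < δ ∧ ∀ h : ℕ →₀ ℂ, δ * ‖h i‖ ≤ ‖Finsupp.linearCombination ℂ φ h‖

theorem ShiftData.linearIndependent {φ : ℕ → H} {ρ : ℝ} (hφ : ShiftData φ ρ) :
    LinearIndependent ℂ φ := by
  rw [linearIndependent_iff]
  intro l hl
  ext i
  obtain ⟨δ, hδ, h⟩ := hφ.lower i
  have := h l
  rw [hl, norm_zero] at this
  have h2 : ‖l i‖ ≤ 0 := by
    by_contra h3
    push Not at h3
    have := mul_pos hδ h3
    linarith
  rw [norm_le_zero_iff] at h2
  simpa using h2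

variable [CompleteSpace H]

/-- The operator `K = ∑ (-1)^i |φ i⟩⟨φ i|`. -/
noncomputable def Kop (φ : ℕ → H) : H →L[ℂ] H :=
  ∑' i, ((-1 : ℂ) ^ i) • InnerProductSpace.rankOne ℂ (φ i) (φ i)

theorem summable_Kop {φ : ℕ → H} (hφ : Summable fun i => ‖φ i‖ ^ 2) :
    Summable fun i => ((-1 : ℂ) ^ i) • InnerProductSpace.rankOne ℂ (φ i) (φ i) := by
  apply Summable.of_norm
  refine hφ.congr fun i => ?_
  rw [norm_smul, norm_pow, norm_neg, norm_one, one_pow, one_mul, InnerProductSpace.norm_rankOne, sq]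

theorem hasSum_Kop {φ : ℕ → H} (hφ : Summable fun i => ‖φ i‖ ^ 2) (x : H) :
    HasSum (fun i => ((-1 : ℂ) ^ i * ⟪φ i, x⟫_ℂ) • φ i) (Kop φ x) := by
  have h := (summable_Kop hφ).hasSum
  have h2 := h.mapL (ContinuousLinearMap.apply ℂ H x)
  refine (h2.congr_fun ?_)
  intro i
  simp [smul_smul]

theorem hasSum_inner_Kop {φ : ℕ → H} (hφ : Summable fun i => ‖φ i‖ ^ 2) (x y : H) :
    HasSum (fun i => (-1 : ℂ) ^ i * ⟪φ i, x⟫_ℂ * ⟪y, φ i⟫_ℂ) ⟪y, Kop φ x⟫_ℂ := by
  have h := (hasSum_Kop hφ x).mapL (innerSL ℂ y)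
  refine h.congr_fun ?_
  intro i
  simp

theorem Kop_isSymmetric {φ : ℕ → H} (hφ : Summable fun i => ‖φ i‖ ^ 2) :
    (Kop φ : H →ₗ[ℂ] H).IsSymmetric := by
  intro x y
  have h1 := hasSum_inner_Kop hφ x y
  have h2 := hasSum_inner_Kop hφ y x
  have h3 : HasSum (fun i => (-1 : ℂ) ^ i * ⟪φ i, y⟫_ℂ * ⟪x, φ i⟫_ℂ) ⟪Kop φ x, y⟫_ℂ := by
    have := Complex.hasSum_conj'.2 h1
    rw [inner_conj_symm] at this
    refine this.congr_fun ?_
    intro i
    simp only [map_mul, map_pow, map_neg, map_one, inner_conj_symm]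
    ring
  exact h3.unique h2

theorem Kop_isCompact {φ : ℕ → H} (hφ : Summable fun i => ‖φ i‖ ^ 2) :
    IsCompactOperator (Kop φ) := by
  have h := (summable_Kop hφ).hasSum
  refine isCompactOperator_of_tendsto (l := atTop) h (Eventually.of_forall fun s => ?_)
  have : ∀ s : Finset ℕ, (∑ i ∈ s, ((-1 : ℂ) ^ i) • InnerProductSpace.rankOne ℂ (φ i) (φ i)) ∈
      compactOperator (RingHom.id ℂ) H H := by
    intro s
    refine Submodule.sum_mem _ fun i _ => ?_
    refine Submodule.smul_mem _ _ ?_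
    change IsCompactOperator (InnerProductSpace.rankOne ℂ (φ i) (φ i))
    rw [InnerProductSpace.rankOne_def']
    have h1 : IsCompactOperator (innerSL ℂ (φ i) : H →L[ℂ] ℂ) :=
      isCompactOperator_of_locallyCompactSpace_dom (innerSL ℂ (φ i) : H →L[ℂ] ℂ)
    exact h1.clm_comp (ContinuousLinearMap.toSpanSingleton ℂ (φ i))
  exact this s

theorem inner_eq_zero_of_Kop_eq_zero {φ : ℕ → H} {ρ : ℝ} (hφ : ShiftData φ ρ) {y : H}
    (hy : Kop φ y = 0) (i : ℕ) : ⟪φ i, y⟫_ℂ = 0 := by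
  classical
  obtain ⟨δ, hδ, hlow⟩ := hφ.lower i
  have h := (hasSum_Kop hφ.summable y).tendsto_sum_nat
  rw [hy] at h
  have h2 : ∀ᶠ n in atTop, δ * ‖⟪φ i, y⟫_ℂ‖ ≤
      ‖∑ j ∈ Finset.range n, ((-1 : ℂ) ^ j * ⟪φ j, y⟫_ℂ) • φ j‖ := by
    filter_upwards [eventually_gt_atTop i] with n hn
    have := hlow (Finsupp.onFinset (Finset.range n)
      (fun j => if j ∈ Finset.range n then (-1 : ℂ) ^ j * ⟪φ j, y⟫_ℂ else 0)
      (fun j hj => by
        by_contra h
        simp [h] at hj))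
    rw [Finsupp.linearCombination_apply, Finsupp.sum_of_support_subset
      (s := Finset.range n) _ Finsupp.support_onFinset_subset _ (by simp)] at this
    simp only [Finsupp.onFinset_apply, Finset.mem_range, hn, if_true, norm_mul, norm_pow, norm_neg,
      norm_one, one_pow, one_mul] at this
    refine this.trans (le_of_eq ?_)
    congr 1
    refine Finset.sum_congr rfl fun j hj => ?_
    rw [if_pos (Finset.mem_range.1 hj)]
  have h3 : δ * ‖⟪φ i, y⟫_ℂ‖ ≤ 0 := by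
    have := ge_of_tendsto h.norm h2
    simpa using this
  have h4 : ‖⟪φ i, y⟫_ℂ‖ ≤ 0 := by
    by_contra h5
    push Not at h5
    have := mul_pos hδ h5
    linarith
  exact norm_le_zero_iff.1 h4

theorem Kop_infinite_rank {φ : ℕ → H} {ρ : ℝ} (hφ : ShiftData φ ρ) (k : ℕ) (prev : Fin k → H) :
    ∃ y, (∀ i, ⟪prev i, y⟫_ℂ = 0) ∧ Kop φ y ≠ 0 := by
  classical
  let L : (Fin (k + 1) → ℂ) →ₗ[ℂ] (Fin k → ℂ) :=
    LinearMap.pi fun j => ∑ i : Fin (k + 1),
      (⟪prev j, φ i⟫_ℂ) • (LinearMap.proj i : (Fin (k + 1) → ℂ) →ₗ[ℂ] ℂ)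
  have hker : LinearMap.ker L ≠ ⊥ := by
    apply LinearMap.ker_ne_bot_of_finrank_lt
    rw [Module.finrank_fin_fun, Module.finrank_fin_fun]
    exact Nat.lt_succ_self k
  obtain ⟨c, hc, hc0⟩ := Submodule.exists_mem_ne_zero_of_ne_bot hker
  rw [LinearMap.mem_ker] at hc
  set y : H := ∑ i : Fin (k + 1), c i • φ i with hy
  have hli : LinearIndependent ℂ (fun i : Fin (k + 1) => φ i) :=
    hφ.linearIndependent.comp (fun i : Fin (k + 1) => (i : ℕ)) Fin.val_injective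
  have hy0 : y ≠ 0 := by
    intro h0
    apply hc0
    funext i
    exact Fintype.linearIndependent_iff.1 hli c h0 i
  refine ⟨y, ?_, ?_⟩
  · intro j
    have := congrFun hc j
    simp only [L, LinearMap.pi_apply, LinearMap.sum_apply, LinearMap.smul_apply,
      LinearMap.proj_apply, smul_eq_mul, Pi.zero_apply] at this
    rw [hy, inner_sum, ← this]
    refine Finset.sum_congr rfl fun i _ => ?_
    rw [inner_smul_right, mul_comm]
  · intro hK
    apply hy0
    have h0 := inner_eq_zero_of_Kop_eq_zero hφ hK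
    have : ⟪y, y⟫_ℂ = 0 := by
      conv_lhs => rw [hy]
      rw [sum_inner]
      refine Finset.sum_eq_zero fun i _ => ?_
      rw [inner_smul_left, ← hy, h0, mul_zero]
    exact inner_self_eq_zero.1 this

end Pool.Agent.Helper32.RM
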