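import Mathlib

open scoped InnerProductSpace ComplexConjugate
open Module End Filter Topology

namespace Pool.Agent.Helper32.RM

variable {H : Type*} [NormedAddCommGroup H] [InnerProductSpace ℂ H]

/-- `⟪x, T x⟫` for a combination of orthonormal eigenvectors. -/
theorem re_inner_combination {T : H →L[ℂ] H} {n : ℕ} {u : Fin n → H} {t : Fin n → ℝ}
    (hu : Orthonormal ℂ u) (hTu : ∀ i, T (u i) = (t i : ℂ) • u i) (c : Fin n → ℂ) :
    (⟪∑ i, c i • u i, T (∑ i, c i • u i)⟫_ℂ).re = ∑ i, t i * ‖c i‖ ^ 2 := by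
  have h1 : T (∑ i, c i • u i) = ∑ i, (c i * (t i : ℂ)) • u i := by
    rw [map_sum]
    refine Finset.sum_congr rfl fun i _ => ?_
    rw [map_smul, hTu, smul_smul]
  rw [h1, hu.inner_sum]
  rw [Complex.re_sum]
  refine Finset.sum_congr rfl fun i _ => ?_
  have : (starRingEnd ℂ) (c i) * (c i * (t i : ℂ)) = ((t i * ‖c i‖ ^ 2 : ℝ) : ℂ) := by
    rw [← mul_assoc, Complex.conj_mul']
    push_cast
    ring
  rw [this, Complex.ofReal_re]

theorem norm_sq_combination {n : ℕ} {u : Fin n → H}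
    (hu : Orthonormal ℂ u) (c : Fin n → ℂ) :
    ‖∑ i, c i • u i‖ ^ 2 = ∑ i, ‖c i‖ ^ 2 := by
  have h := hu.inner_sum c c Finset.univ
  have h2 : (⟪∑ i, c i • u i, ∑ i, c i • u i⟫_ℂ).re = ‖∑ i, c i • u i‖ ^ 2 := by
    rw [inner_self_eq_norm_sq_to_K]
    norm_cast
  rw [← h2, h, Complex.re_sum]
  refine Finset.sum_congr rfl fun i _ => ?_
  rw [Complex.conj_mul']
  norm_cast

/-- Choosing a nonzero vector in the span of `N+1` orthonormal eigenvectors, orthogonal to `N`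
given vectors. -/
theorem exists_combination {T : H →L[ℂ] H} {N : ℕ} {u : Fin (N + 1) → H}
    {t : Fin (N + 1) → ℝ}
    (hu : Orthonormal ℂ u) (hTu : ∀ i, T (u i) = (t i : ℂ) • u i) (w : Fin N → H)
    (σ τ : ℝ) (hst : ∀ i, σ * t i ≤ -τ) :
    ∃ x : H, x ≠ 0 ∧ (∀ j, ⟪w j, x⟫_ℂ = 0) ∧ σ * (⟪x, T x⟫_ℂ).re ≤ -τ * ‖x‖ ^ 2 := by
  classical
  let L : (Fin (N + 1) → ℂ) →ₗ[ℂ] (Fin N → ℂ) :=
    LinearMap.pi fun j => ∑ i, (⟪w j, u i⟫_ℂ) • (LinearMap.proj i : (Fin (N + 1) → ℂ) →ₗ[ℂ] ℂ)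
  have hker : LinearMap.ker L ≠ ⊥ := by
    apply LinearMap.ker_ne_bot_of_finrank_lt
    rw [Module.finrank_fin_fun, Module.finrank_fin_fun]
    exact Nat.lt_succ_self N
  obtain ⟨c, hc, hc0⟩ := Submodule.exists_mem_ne_zero_of_ne_bot hker
  rw [LinearMap.mem_ker] at hc
  refine ⟨∑ i, c i • u i, ?_, ?_, ?_⟩
  · intro h0
    apply hc0
    have := norm_sq_combination hu c
    rw [h0, norm_zero, zero_pow two_ne_zero] at this
    have h2 := (Finset.sum_eq_zero_iff_of_nonneg (fun i _ => by positivity)).1 this.symm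
    funext i
    have := h2 i (Finset.mem_univ i)
    rwa [sq_eq_zero_iff, norm_eq_zero] at this
  · intro j
    have := congrFun hc j
    simp only [L, LinearMap.pi_apply, LinearMap.sum_apply, LinearMap.smul_apply,
      LinearMap.proj_apply, smul_eq_mul, Pi.zero_apply] at this
    rw [inner_sum]
    rw [← this]
    refine Finset.sum_congr rfl fun i _ => ?_
    rw [inner_smul_right, mul_comm]
  · rw [re_inner_combination hu hTu, norm_sq_combination hu, Finset.mul_sum, Finset.mul_sum]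
    refine Finset.sum_le_sum fun i _ => ?_
    rw [← mul_assoc]
    exact mul_le_mul_of_nonneg_right (hst i) (by positivity)

end Pool.Agent.Helper32.RM
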