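import Mathlib

/-!
# A spectral sequence for compact self-adjoint operators
-/

open scoped InnerProductSpace ComplexConjugate
open Module End Filter Topology

namespace Pool.Agent.Helper32.RM

variable {H : Type*} [NormedAddCommGroup H] [InnerProductSpace ℂ H] [CompleteSpace H]

/-- `x` is a norm-attaining unit eigenvector of `T` in the orthogonal complement of `prev`. -/
def StepProp (T : H →L[ℂ] H) {k : ℕ} (prev : Fin k → H) (x : H) : Prop :=
  ‖x‖ = 1 ∧ (∀ i, ⟪prev i, x⟫_ℂ = 0) ∧ ∃ ν : ℝ, ν ≠ 0 ∧ T x = (ν : ℂ) • x ∧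
    ∀ y, (∀ i, ⟪prev i, y⟫_ℂ = 0) → ‖T y‖ ≤ |ν| * ‖y‖

theorem exists_step (T : H →L[ℂ] H) (hT : IsCompactOperator T)
    (hS : (T : H →ₗ[ℂ] H).IsSymmetric) {k : ℕ} (prev : Fin k → H)
    (hprev : ∀ i, ∃ c : ℂ, T (prev i) = c • prev i)
    (hne : ∃ y, (∀ i, ⟪prev i, y⟫_ℂ = 0) ∧ T y ≠ 0) :
    ∃ x, StepProp T prev x := by
  classical
  set V : Submodule ℂ H := (Submodule.span ℂ (Set.range prev))ᗮ with hV
  have memV : ∀ y, y ∈ V ↔ ∀ i, ⟪prev i, y⟫_ℂ = 0 := by
    intro y
    rw [hV, Submodule.mem_orthogonal]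
    constructor
    · intro h i
      exact h _ (Submodule.subset_span ⟨i, rfl⟩)
    · intro h u hu
      induction hu using Submodule.span_induction with
      | mem x hx => obtain ⟨i, rfl⟩ := hx; exact h i
      | zero => simp
      | add x y _ _ hx hy => rw [inner_add_left, hx, hy, add_zero]
      | smul a x _ hx => rw [inner_smul_left, hx, mul_zero]
  have hinv : ∀ v ∈ V, (T : H →ₗ[ℂ] H) v ∈ V := by
    intro v hv
    rw [memV] at hv ⊢
    intro i
    obtain ⟨c, hc⟩ := hprev i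
    have := hS (prev i) v
    simp only [ContinuousLinearMap.coe_coe] at this ⊢
    rw [← this, hc, inner_smul_left, hv i, mul_zero]
  have : CompleteSpace V := by
    rw [hV]; infer_instance
  let S : V →L[ℂ] V := T.restrict hinv
  have hSapp : ∀ v : V, ((S v : V) : H) = T v := fun v => rfl
  have hSc : IsCompactOperator S := hT.restrict' hinv
  have hSs : (S : V →ₗ[ℂ] V).IsSymmetric := hS.restrict_invariant hinv
  obtain ⟨y, hy, hTy⟩ := hne
  have hyV : y ∈ V := (memV y).2 hy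
  have hSne : S ≠ 0 := by
    intro h0
    apply hTy
    have : (S ⟨y, hyV⟩ : H) = T y := rfl
    rw [← this, h0]; rfl
  have : Nontrivial V := by
    refine ⟨⟨⟨y, hyV⟩, 0, ?_⟩⟩
    intro h
    have : y = 0 := congrArg Subtype.val h
    apply hTy
    rw [this, map_zero]
  have hrad : spectralRadius ℂ S = ‖S‖₊ :=
    S.spectralRadius_eq_nnnorm hSs.isSelfAdjoint
  obtain ⟨μ, hμ, hμr⟩ := spectrum.exists_nnnorm_eq_spectralRadius (A := V →L[ℂ] V) S
  have hμn : ‖μ‖ = ‖S‖ := by
    rw [hrad] at hμr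
    have := ENNReal.coe_injective hμr
    exact congrArg NNReal.toReal this
  have hμ0 : μ ≠ 0 := by
    intro h
    rw [h, norm_zero] at hμn
    exact hSne ((ContinuousLinearMap.opNorm_zero_iff S).1 hμn.symm)
  have hev := (hSc.hasEigenvalue_iff_mem_spectrum hμ0).2 hμ
  obtain ⟨v, hv⟩ := hev.exists_hasEigenvector
  have hvne : v ≠ 0 := hv.2
  have hSv : S v = μ • v := hv.apply_eq_smul
  have hreal : conj μ = μ := hSs.conj_eigenvalue_eq_self hev
  have hμre : ((μ.re : ℝ) : ℂ) = μ := Complex.conj_eq_iff_re.1 hreal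
  have hvn : ‖(v : H)‖ ≠ 0 := by
    rw [norm_ne_zero_iff]
    intro h
    exact hvne (Subtype.ext h)
  refine ⟨((‖(v : H)‖⁻¹ : ℝ) : ℂ) • (v : H), ?_, ?_, μ.re, ?_, ?_, ?_⟩
  · rw [norm_smul, Complex.norm_real, norm_inv, norm_norm, inv_mul_cancel₀ hvn]
  · intro i
    rw [inner_smul_right, (memV v).1 v.2 i, mul_zero]
  · intro h
    apply hμ0
    rw [← hμre, h, Complex.ofReal_zero]
  · rw [map_smul]
    have : T v = μ • (v : H) := by
      rw [← hSapp, hSv]; rfl
    rw [this, hμre, smul_comm]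
  · intro y hy
    have hyV : y ∈ V := (memV y).2 hy
    have h1 : ‖S ⟨y, hyV⟩‖ ≤ ‖S‖ * ‖(⟨y, hyV⟩ : V)‖ := S.le_opNorm _
    have h2 : |μ.re| = ‖S‖ := by
      rw [← hμn, ← hμre, Complex.norm_real, Complex.ofReal_re, Real.norm_eq_abs]
    rw [h2]
    exact h1

/-- The spectral sequence. -/
noncomputable def eseq (T : H →L[ℂ] H) : ℕ → H := fun k =>
  haveI : Nonempty H := ⟨0⟩
  Classical.epsilon (StepProp T (fun i : Fin k => eseq T i))
termination_by k => k
decreasing_by exact i.2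

theorem eseq_step (T : H →L[ℂ] H) (hT : IsCompactOperator T)
    (hS : (T : H →ₗ[ℂ] H).IsSymmetric)
    (hne : ∀ (k : ℕ) (prev : Fin k → H), ∃ y, (∀ i, ⟪prev i, y⟫_ℂ = 0) ∧ T y ≠ 0) (k : ℕ) :
    StepProp T (fun i : Fin k => eseq T i) (eseq T k) := by
  induction k using Nat.strong_induction_on with
  | _ k ih =>
    rw [show eseq T k = (haveI : Nonempty H := ⟨0⟩
      Classical.epsilon (StepProp T (fun i : Fin k => eseq T i))) from by rw [eseq]]
    apply Classical.epsilon_spec (p := StepProp T (fun i : Fin k => eseq T i))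
    apply exists_step T hT hS
    · intro i
      obtain ⟨_, _, ν, _, h, _⟩ := ih i i.2
      exact ⟨ν, h⟩
    · exact hne k _

end Pool.Agent.Helper32.RM
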