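import Mathlib
import Pool.Agent.Helper32.Spec
import Pool.Agent.Helper32.LinAlg
import Pool.Agent.Helper32.Kop
import Pool.Agent.Helper32.Kop2

open scoped InnerProductSpace ComplexConjugate
open Module End Filter Topology

namespace Pool.Agent.Helper32.RM

variable {H : Type*} [NormedAddCommGroup H] [InnerProductSpace ℂ H] [CompleteSpace H]

theorem inner_Kop_self_re {φ : ℕ → H} (hφ : Summable fun i => ‖φ i‖ ^ 2) (x : H) :
    HasSum (fun i => (-1 : ℝ) ^ i * ‖⟪φ i, x⟫_ℂ‖ ^ 2) (⟪x, Kop φ x⟫_ℂ).re := by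
  have h := Complex.hasSum_re (hasSum_inner_Kop hφ x x)
  refine h.congr_fun ?_
  intro i
  have : (-1 : ℂ) ^ i * ⟪φ i, x⟫_ℂ * ⟪x, φ i⟫_ℂ = (((-1 : ℝ) ^ i * ‖⟪φ i, x⟫_ℂ‖ ^ 2 : ℝ) : ℂ) := by
    rw [← inner_conj_symm x (φ i), mul_assoc, Complex.mul_conj']
    push_cast
    ring
  rw [this, Complex.ofReal_re]

theorem shift_form {φ : ℕ → H} (hφ : Summable fun i => ‖φ i‖ ^ 2) {x x' : H}
    (h : ∀ i, ⟪φ i, x'⟫_ℂ = ⟪φ (i + 1), x⟫_ℂ) :
    (⟪x', Kop φ x'⟫_ℂ).re = - (⟪x, Kop φ x⟫_ℂ).re + ‖⟪φ 0, x⟫_ℂ‖ ^ 2 := by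
  have h1 := inner_Kop_self_re hφ x'
  have h2 := inner_Kop_self_re hφ x
  rw [← hasSum_nat_add_iff' 1] at h2
  have h3 := h2.neg
  have h4 : HasSum (fun i => (-1 : ℝ) ^ i * ‖⟪φ i, x'⟫_ℂ‖ ^ 2)
      (-((⟪x, Kop φ x⟫_ℂ).re - ∑ i ∈ Finset.range 1, (-1 : ℝ) ^ i * ‖⟪φ i, x⟫_ℂ‖ ^ 2)) := by
    refine h3.congr_fun ?_
    intro i
    rw [h i]
    ring
  rw [h1.unique h4]
  simp
  ring

/-- The shifted vector. -/
noncomputable def K1 (φ : ℕ → H) (y : H) : H := ∑' i, ((-1 : ℂ) ^ i * ⟪φ i, y⟫_ℂ) • φ (i + 1)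

theorem hasSum_K1 {φ : ℕ → H} (hφ : Summable fun i => ‖φ i‖ ^ 2) (y : H) :
    HasSum (fun i => ((-1 : ℂ) ^ i * ⟪φ i, y⟫_ℂ) • φ (i + 1)) (K1 φ y) := by
  apply Summable.hasSum
  apply Summable.of_norm_bounded (g := fun i => ‖y‖ * (‖φ i‖ ^ 2 + ‖φ (i + 1)‖ ^ 2))
  · apply Summable.mul_left
    exact hφ.add ((summable_nat_add_iff 1).2 hφ)
  · intro i
    rw [norm_smul, norm_mul, norm_pow, norm_neg, norm_one, one_pow, one_mul]
    have h1 : ‖⟪φ i, y⟫_ℂ‖ ≤ ‖φ i‖ * ‖y‖ := norm_inner_le_norm _ _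
    calc ‖⟪φ i, y⟫_ℂ‖ * ‖φ (i + 1)‖ ≤ (‖φ i‖ * ‖y‖) * ‖φ (i + 1)‖ :=
          mul_le_mul_of_nonneg_right h1 (norm_nonneg _)
      _ = ‖y‖ * (‖φ i‖ * ‖φ (i + 1)‖) := by ring
      _ ≤ ‖y‖ * (‖φ i‖ ^ 2 + ‖φ (i + 1)‖ ^ 2) := by
          apply mul_le_mul_of_nonneg_left _ (norm_nonneg _)
          nlinarith [sq_nonneg (‖φ i‖ - ‖φ (i + 1)‖), sq_nonneg ‖φ i‖, sq_nonneg ‖φ (i + 1)‖]

theorem inner_Kop_eq_inner_K1 {φ : ℕ → H} (hφ : Summable fun i => ‖φ i‖ ^ 2) {x x' : H}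
    (h : ∀ i, ⟪φ i, x'⟫_ℂ = ⟪φ (i + 1), x⟫_ℂ) (y : H) :
    ⟪x', Kop φ y⟫_ℂ = ⟪x, K1 φ y⟫_ℂ := by
  have h1 := hasSum_inner_Kop hφ y x'
  have h2 := (hasSum_K1 hφ y).mapL (innerSL ℂ x)
  have h3 : HasSum (fun i => (-1 : ℂ) ^ i * ⟪φ i, y⟫_ℂ * ⟪x', φ i⟫_ℂ) ⟪x, K1 φ y⟫_ℂ := by
    refine h2.congr_fun ?_
    intro i
    rw [← inner_conj_symm x' (φ i), h i, inner_conj_symm]
    simp
  exact h1.unique h3

/-- The sequence of eigenvectors and eigenvalues of `Kop φ`. -/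
theorem spectral_data {φ : ℕ → H} {ρ : ℝ} (hφ : ShiftData φ ρ) :
    ∃ (e : ℕ → H) (ν : ℕ → ℝ), Orthonormal ℂ e ∧ (∀ k, Kop φ (e k) = (ν k : ℂ) • e k) ∧
      (∀ k, ν k ≠ 0) ∧ (∀ k y, (∀ j < k, ⟪e j, y⟫_ℂ = 0) → ‖Kop φ y‖ ≤ |ν k| * ‖y‖) := by
  have hstep := eseq_step (Kop φ) (Kop_isCompact hφ.summable) (Kop_isSymmetric hφ.summable)
    (Kop_infinite_rank hφ)
  choose h1 h2 ν h3 h4 h5 using hstep
  refine ⟨eseq (Kop φ), ν, ⟨h1, ?_⟩, h4, h3, ?_⟩
  · intro i j hij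
    rcases lt_or_gt_of_ne hij with h | h
    · exact h2 j ⟨i, h⟩
    · rw [← inner_conj_symm, h2 i ⟨j, h⟩, map_zero]
  · intro k y hy
    exact h5 k y (fun i => hy i i.2)

theorem key_ineq {φ : ℕ → H} {ρ : ℝ} (hφ : ShiftData φ ρ) {e : ℕ → H} {ν : ℕ → ℝ}
    (he : Orthonormal ℂ e) (hKe : ∀ k, Kop φ (e k) = (ν k : ℂ) • e k)
    (hbd : ∀ k y, (∀ j < k, ⟪e j, y⟫_ℂ = 0) → ‖Kop φ y‖ ≤ |ν k| * ‖y‖)
    {k m : ℕ} (hkm : k ≤ m) (hsign : ∀ j < k, 0 < (-1 : ℝ) ^ j * ν j)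
    (hm : (-1 : ℝ) ^ k * ν m < 0) : |ν m| ≤ ρ * |ν k| := by
  classical
  have hanti : ∀ j, j ≤ m → |ν m| ≤ |ν j| := by
    intro j hj
    have := hbd j (e m) (fun i hi => he.2 (by omega))
    rwa [hKe, norm_smul, he.1 m, mul_one, mul_one, Complex.norm_real, Real.norm_eq_abs] at this
  set σ : ℝ := (-1 : ℝ) ^ k with hσ
  have hσ1 : |σ| = 1 := by rw [hσ, abs_pow, abs_neg, abs_one, one_pow]
  set N : ℕ := (k + 1) / 2 with hN
  set idx : Fin (N + 1) → ℕ := fun i => if (i : ℕ) < N then 2 * i + (k + 1) % 2 else m with hidx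
  have hidx_lt : ∀ i : Fin (N + 1), (i : ℕ) < N → idx i = 2 * i + (k + 1) % 2 ∧ idx i < k := by
    intro i hi
    simp only [hidx, hi, if_true, true_and]
    omega
  have hinj : Function.Injective idx := by
    intro a b hab
    ext
    by_cases ha : (a : ℕ) < N <;> by_cases hb : (b : ℕ) < N
    · have h1 := hidx_lt a ha
      have h2 := hidx_lt b hb
      omega
    · have h1 := hidx_lt a ha
      have h2 : idx b = m := by simp [hidx, hb]
      omega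
    · have h1 := hidx_lt b hb
      have h2 : idx a = m := by simp [hidx, ha]
      omega
    · have := a.2
      have := b.2
      omega
  have hst : ∀ i, σ * ν (idx i) ≤ -|ν m| := by
    intro i
    by_cases hi : (i : ℕ) < N
    · obtain ⟨h1, h2⟩ := hidx_lt i hi
      have h3 := hsign _ h2
      have h4 : (-1 : ℝ) ^ (idx i) = -σ := by
        rw [h1, hσ]
        rcases Nat.even_or_odd k with hk | hk
        · have : (k + 1) % 2 = 1 := by
            obtain ⟨r, hr⟩ := hk; omega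
          rw [this, hk.neg_one_pow, pow_succ, pow_mul]
          simp
        · have : (k + 1) % 2 = 0 := by
            obtain ⟨r, hr⟩ := hk; omega
          rw [this, hk.neg_one_pow, add_zero, pow_mul]
          simp
      rw [h4] at h3
      have h5 : |ν (idx i)| = -(σ * ν (idx i)) := by
        have : |σ * ν (idx i)| = |ν (idx i)| := by rw [abs_mul, hσ1, one_mul]
        rw [← this, abs_of_neg]
        linarith
      have h6 := hanti (idx i) (by omega)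
      rw [h5] at h6
      linarith
    · have h2 : idx i = m := by simp [hidx, hi]
      rw [h2]
      have : |σ * ν m| = |ν m| := by rw [abs_mul, hσ1, one_mul]
      rw [← this, abs_of_neg hm]
      linarith
  set w : Fin N → H := fun i =>
    if k % 2 = 0 then K1 φ (e (2 * i)) else if (i : ℕ) = 0 then φ 0 else K1 φ (e (2 * i - 1)) with hw
  obtain ⟨x, hx0, hxw, hxK⟩ := exists_combination (T := Kop φ) (he.comp idx hinj)
    (t := fun i => ν (idx i)) (fun i => hKe (idx i)) w σ |ν m| hst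
  obtain ⟨x', hx'n, hx'⟩ := exists_shift hφ.linearIndependent hφ.nonneg hφ.contr x
  have horth : ∀ j < k, j % 2 = k % 2 → ⟪e j, x'⟫_ℂ = 0 := by
    intro j hj hjk
    have h1 : ⟪x, K1 φ (e j)⟫_ℂ = 0 := by
      rw [← inner_conj_symm]
      have : ⟪K1 φ (e j), x⟫_ℂ = 0 := by
        rcases Nat.mod_two_eq_zero_or_one k with hk | hk
        · have := hxw ⟨j / 2, by omega⟩
          simp only [hw, hk, if_true] at this
          rwa [show 2 * (j / 2) = j by omega] at this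
        · have := hxw ⟨(j + 1) / 2, by omega⟩
          simp only [hw, hk] at this
          rw [if_neg (by omega), if_neg (by omega)] at this
          rwa [show 2 * ((j + 1) / 2) - 1 = j by omega] at this
      rw [this, map_zero]
    have h2 := inner_Kop_eq_inner_K1 hφ.summable hx' (e j)
    rw [h1, hKe, inner_smul_right] at h2
    have h3 : (ν j : ℂ) ≠ 0 := by
      have := hsign j hj
      intro h
      rw [Complex.ofReal_eq_zero] at h
      rw [h, mul_zero] at this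
      exact lt_irrefl _ this
    have h4 := (mul_eq_zero.1 h2).resolve_left h3
    rw [← inner_conj_symm, h4, map_zero]
  have hcomp := complement_bound (T := Kop φ) (Kop_isSymmetric hφ.summable) (k := k)
    (e := fun i : Fin k => e i) (ν := fun i : Fin k => ν i)
    (he.comp _ Fin.val_injective) (fun i => hKe i) |ν k| (abs_nonneg _)
    (fun y hy => hbd k y (fun j hj => hy ⟨j, hj⟩)) σ hσ1 x'
    (by
      intro i hi
      apply horth i i.2
      by_contra hne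
      have h1 := hsign i i.2
      have h2 : (-1 : ℝ) ^ (i : ℕ) = -σ := by
        rw [hσ]
        rcases Nat.even_or_odd k with hk | hk
        · have h3 : Odd (i : ℕ) := by
            rw [Nat.odd_iff]; rw [Nat.even_iff] at hk; omega
          rw [hk.neg_one_pow, h3.neg_one_pow]
        · have h3 : Even (i : ℕ) := by
            rw [Nat.even_iff]; rw [Nat.odd_iff] at hk; omega
          rw [hk.neg_one_pow, h3.neg_one_pow]; norm_num
      rw [h2] at h1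
      linarith)
  have hform := shift_form hφ.summable hx'
  have hlow : |ν m| * ‖x‖ ^ 2 ≤ σ * (⟪x', Kop φ x'⟫_ℂ).re := by
    rw [hform]
    rcases Nat.even_or_odd k with hk | hk
    · have : σ = 1 := by rw [hσ, hk.neg_one_pow]
      rw [this] at hxK ⊢
      have := sq_nonneg ‖⟪φ 0, x⟫_ℂ‖
      linarith
    · have : σ = -1 := by rw [hσ, hk.neg_one_pow]
      have h0 : ⟪φ 0, x⟫_ℂ = 0 := by
        have := hxw ⟨0, by obtain ⟨r, hr⟩ := hk; omega⟩
        simp only [hw] at this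
        rwa [if_neg (by rw [Nat.odd_iff] at hk; omega), if_pos trivial] at this
      rw [h0]
      rw [this] at hxK ⊢
      simp only [norm_zero]
      linarith
  have hx2 : 0 < ‖x‖ ^ 2 := by positivity
  have hfin : |ν m| * ‖x‖ ^ 2 ≤ (ρ * |ν k|) * ‖x‖ ^ 2 := by
    calc |ν m| * ‖x‖ ^ 2 ≤ σ * (⟪x', Kop φ x'⟫_ℂ).re := hlow
      _ ≤ |ν k| * ‖x'‖ ^ 2 := hcomp
      _ ≤ |ν k| * (ρ * ‖x‖ ^ 2) := mul_le_mul_of_nonneg_left hx'n (abs_nonneg _)
      _ = (ρ * |ν k|) * ‖x‖ ^ 2 := by ring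
  exact le_of_mul_le_mul_right hfin hx2

/-- **Main abstract theorem.** -/
theorem alternating {φ : ℕ → H} {ρ : ℝ} (hφ : ShiftData φ ρ) :
    ∃ (e : ℕ → H) (ν : ℕ → ℝ), Orthonormal ℂ e ∧ (∀ k, Kop φ (e k) = (ν k : ℂ) • e k) ∧
      (∀ k, 0 < (-1 : ℝ) ^ k * ν k) ∧ (∀ k, |ν (k + 1)| ≤ ρ * |ν k|) ∧
      (∀ k y, (∀ j < k, ⟪e j, y⟫_ℂ = 0) → ‖Kop φ y‖ ≤ |ν k| * ‖y‖) := by
  obtain ⟨e, ν, he, hKe, hν, hbd⟩ := spectral_data hφ
  have hsign : ∀ k, 0 < (-1 : ℝ) ^ k * ν k := by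
    intro k
    induction k using Nat.strong_induction_on with
    | _ k ih =>
      by_contra hneg
      have h0 : (-1 : ℝ) ^ k * ν k ≠ 0 := mul_ne_zero (pow_ne_zero _ (by norm_num)) (hν k)
      have h1 : (-1 : ℝ) ^ k * ν k < 0 := lt_of_le_of_ne (not_lt.1 hneg) h0
      have h2 := key_ineq hφ he hKe hbd (le_refl k) ih h1
      have h3 : 0 < |ν k| := abs_pos.2 (hν k)
      have h4 := hφ.lt_one
      nlinarith
  refine ⟨e, ν, he, hKe, hsign, ?_, hbd⟩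
  intro k
  apply key_ineq hφ he hKe hbd (Nat.le_succ k) (fun j _ => hsign j)
  have := hsign (k + 1)
  rw [pow_succ] at this
  linarith

end Pool.Agent.Helper32.RM
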