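import Mathlib
import Pool.Agent.Helper32.Interlace

open scoped InnerProductSpace ComplexConjugate
open Module End Filter Topology

namespace Pool.Agent.Helper32.RM

variable {H : Type*} [NormedAddCommGroup H] [InnerProductSpace ℂ H] [CompleteSpace H]

/-- The data produced by the abstract theorem. -/
structure EigData (φ : ℕ → H) (ρ : ℝ) (e : ℕ → H) (ν : ℕ → ℝ) : Prop where
  shift : ShiftData φ ρ
  ortho : Orthonormal ℂ e
  eig : ∀ k, Kop φ (e k) = (ν k : ℂ) • e k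
  sign : ∀ k, 0 < (-1 : ℝ) ^ k * ν k
  ratio : ∀ k, |ν (k + 1)| ≤ ρ * |ν k|
  bd : ∀ k y, (∀ j < k, ⟪e j, y⟫_ℂ = 0) → ‖Kop φ y‖ ≤ |ν k| * ‖y‖

variable {φ : ℕ → H} {ρ : ℝ} {e : ℕ → H} {ν : ℕ → ℝ}

theorem EigData.ne_zero (h : EigData φ ρ e ν) (k : ℕ) : ν k ≠ 0 := by
  intro h0
  have := h.sign k
  rw [h0, mul_zero] at this
  exact lt_irrefl _ this

theorem EigData.abs_pos (h : EigData φ ρ e ν) (k : ℕ) : 0 < |ν k| := _root_.abs_pos.2 (h.ne_zero k)

theorem EigData.abs_strictAnti (h : EigData φ ρ e ν) : StrictAnti fun k => |ν k| := by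
  apply strictAnti_nat_of_succ_lt
  intro k
  have h1 := h.ratio k
  have h2 := h.abs_pos k
  have h3 := h.shift.lt_one
  nlinarith

theorem EigData.injective (h : EigData φ ρ e ν) : Function.Injective ν := by
  intro i j hij
  exact h.abs_strictAnti.injective (by simp only [hij])

theorem EigData.abs_le (h : EigData φ ρ e ν) (k : ℕ) : |ν k| ≤ ρ ^ k * |ν 0| := by
  induction k with
  | zero => simp
  | succ k ih =>
    calc |ν (k + 1)| ≤ ρ * |ν k| := h.ratio k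
      _ ≤ ρ * (ρ ^ k * |ν 0|) := mul_le_mul_of_nonneg_left ih h.shift.nonneg
      _ = ρ ^ (k + 1) * |ν 0| := by ring

theorem EigData.tendsto (h : EigData φ ρ e ν) : Tendsto (fun k => |ν k|) atTop (𝓝 0) := by
  have h1 : Tendsto (fun k => ρ ^ k * |ν 0|) atTop (𝓝 (0 * |ν 0|)) :=
    (tendsto_pow_atTop_nhds_zero_of_lt_one h.shift.nonneg h.shift.lt_one).mul_const _
  rw [zero_mul] at h1
  exact squeeze_zero (fun k => abs_nonneg _) h.abs_le h1

theorem EigData.Kop_eq_zero (h : EigData φ ρ e ν) {y : H} (hy : ∀ j, ⟪e j, y⟫_ℂ = 0) :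
    Kop φ y = 0 := by
  have h1 : ∀ k, ‖Kop φ y‖ ≤ |ν k| * ‖y‖ := fun k => h.bd k y fun j _ => hy j
  have h2 : Tendsto (fun k => |ν k| * ‖y‖) atTop (𝓝 (0 * ‖y‖)) := h.tendsto.mul_const _
  rw [zero_mul] at h2
  have h3 := ge_of_tendsto' h2 h1
  exact norm_le_zero_iff.1 h3

theorem EigData.inner_eig (h : EigData φ ρ e ν) {μ : ℂ} {x : H} (hx : Kop φ x = μ • x) (j : ℕ) :
    (μ - ν j) * ⟪e j, x⟫_ℂ = 0 := by
  have h1 : ⟪Kop φ (e j), x⟫_ℂ = ⟪e j, Kop φ x⟫_ℂ := Kop_isSymmetric h.shift.summable (e j) x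
  rw [hx, h.eig, inner_smul_left, inner_smul_right, Complex.conj_ofReal] at h1
  linear_combination (-1 : ℂ) * h1

theorem EigData.exists_eq (h : EigData φ ρ e ν) {μ : ℂ} (hμ : μ ≠ 0) {x : H} (hx0 : x ≠ 0)
    (hx : Kop φ x = μ • x) : ∃ k, μ = ν k := by
  by_contra hne
  push Not at hne
  have h1 : ∀ j, ⟪e j, x⟫_ℂ = 0 := by
    intro j
    rcases mul_eq_zero.1 (h.inner_eig hx j) with h2 | h2
    · exact absurd (sub_eq_zero.1 h2) (hne j)
    · exact h2
  have h2 := h.Kop_eq_zero h1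
  rw [hx] at h2
  rcases smul_eq_zero.1 h2 with h3 | h3
  · exact hμ h3
  · exact hx0 h3

theorem EigData.mem_span (h : EigData φ ρ e ν) {k : ℕ} {x : H} (hx : Kop φ x = (ν k : ℂ) • x) :
    x = ⟪e k, x⟫_ℂ • e k := by
  set y : H := x - ⟪e k, x⟫_ℂ • e k with hy
  have hKy : Kop φ y = (ν k : ℂ) • y := by
    rw [hy, map_sub, map_smul, hx, h.eig, smul_sub, smul_comm]
  have hek : ⟪e k, e k⟫_ℂ = 1 := by
    have := inner_self_eq_norm_sq_to_K (𝕜 := ℂ) (e k)
    rw [h.ortho.1 k] at this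
    rw [this]; norm_num
  have h1 : ∀ j, ⟪e j, y⟫_ℂ = 0 := by
    intro j
    by_cases hj : j = k
    · rw [hj, hy, inner_sub_right, inner_smul_right, hek]; ring
    · rcases mul_eq_zero.1 (h.inner_eig hKy j) with h2 | h2
      · exfalso
        have h3 : (ν k : ℂ) = ν j := sub_eq_zero.1 h2
        exact hj (h.injective (Complex.ofReal_injective h3)).symm
      · exact h2
  have h2 := h.Kop_eq_zero h1
  rw [hKy] at h2
  rcases smul_eq_zero.1 h2 with h3 | h3
  · exact absurd (Complex.ofReal_eq_zero.1 h3) (h.ne_zero k)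
  · rw [hy] at h3
    exact sub_eq_zero.1 h3

theorem EigData.maxGen_eq (h : EigData φ ρ e ν) (μ : ℂ) :
    Module.End.maxGenEigenspace (Kop φ : H →ₗ[ℂ] H) μ = Module.End.eigenspace (Kop φ : H →ₗ[ℂ] H) μ :=
  Module.End.IsFinitelySemisimple.maxGenEigenspace_eq_eigenspace
    (Kop_isSymmetric h.shift.summable).isFinitelySemisimple μ

/-- Transfer of the spectral information to a linear map `G` on another space. -/
theorem EigData.transfer (h : EigData φ ρ e ν) {V : Type*} [AddCommGroup V] [Module ℂ V]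
    (G : Module.End ℂ V) (P : V →ₗ[ℂ] H) (Ξ : H →ₗ[ℂ] V)
    (hP : ∀ f, Kop φ (P f) = P (G f)) (hPz : ∀ f, P f = 0 → (G ^ 3) f = 0)
    (hΞ : ∀ x, G (Ξ x) = Ξ (Kop φ x)) (hΞz : ∀ k, Ξ (e k) ≠ 0) :
    (∀ k, Module.finrank ℂ (G.maxGenEigenspace (ν k : ℂ)) = 1) ∧
    (∀ μ : ℂ, μ ≠ 0 → (∀ k, μ ≠ ν k) → G.maxGenEigenspace μ = ⊥) := by
  have hPpow : ∀ (μ : ℂ) (m : ℕ) (f : V), (((Kop φ : H →ₗ[ℂ] H) - μ • (1 : Module.End ℂ H)) ^ m)
      (P f) = P (((G - μ • (1 : Module.End ℂ V)) ^ m) f) := by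
    intro μ m
    induction m with
    | zero => intro f; simp
    | succ m ih =>
      intro f
      rw [pow_succ, pow_succ, Module.End.mul_apply, Module.End.mul_apply]
      have : ((Kop φ : H →ₗ[ℂ] H) - μ • (1 : Module.End ℂ H)) (P f) =
          P ((G - μ • (1 : Module.End ℂ V)) f) := by
        simp [hP, map_sub, map_smul]
      rw [this, ih]
  have hmem : ∀ (μ : ℂ) (f : V), f ∈ G.maxGenEigenspace μ →
      Kop φ (P f) = μ • P f := by
    intro μ f hf
    rw [Module.End.mem_maxGenEigenspace] at hf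
    obtain ⟨m, hm⟩ := hf
    have h1 : P f ∈ Module.End.maxGenEigenspace (Kop φ : H →ₗ[ℂ] H) μ := by
      rw [Module.End.mem_maxGenEigenspace]
      exact ⟨m, by rw [hPpow, hm, map_zero]⟩
    rw [h.maxGen_eq, Module.End.mem_eigenspace_iff] at h1
    exact h1
  have hinj : ∀ (μ : ℂ), μ ≠ 0 → ∀ f ∈ G.maxGenEigenspace μ, P f = 0 → f = 0 := by
    intro μ hμ f hf hPf
    have h1 : f ∈ G.maxGenEigenspace 0 := by
      rw [Module.End.mem_maxGenEigenspace]
      exact ⟨3, by rw [zero_smul, sub_zero]; exact hPz f hPf⟩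
    have h2 := Module.End.disjoint_genEigenspace G hμ ⊤ ⊤
    exact (Submodule.mem_bot ℂ).1 (h2.le_bot ⟨hf, h1⟩)
  constructor
  · intro k
    set v : V := Ξ (e k) with hv
    have hv0 : v ≠ 0 := hΞz k
    have hvm : v ∈ G.maxGenEigenspace (ν k : ℂ) := by
      apply Module.End.eigenspace_le_maxGenEigenspace
      rw [Module.End.mem_eigenspace_iff, hv, hΞ, h.eig, map_smul]
    have hνk : (ν k : ℂ) ≠ 0 := by
      rw [Ne, Complex.ofReal_eq_zero]; exact h.ne_zero k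
    have hspan : ∀ f ∈ G.maxGenEigenspace (ν k : ℂ), P f = ⟪e k, P f⟫_ℂ • e k := by
      intro f hf
      exact h.mem_span (hmem _ f hf)
    rw [finrank_eq_one_iff_of_nonzero' (⟨v, hvm⟩ : G.maxGenEigenspace (ν k : ℂ))
      (by intro h0; exact hv0 (congrArg Subtype.val h0))]
    intro w
    obtain ⟨w, hw⟩ := w
    have hc : ⟪e k, P v⟫_ℂ ≠ 0 := by
      intro h0
      have h1 := hspan v hvm
      rw [h0, zero_smul] at h1
      exact hv0 (hinj _ hνk v hvm h1)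
    refine ⟨⟪e k, P w⟫_ℂ / ⟪e k, P v⟫_ℂ, ?_⟩
    apply Subtype.ext
    simp only [SetLike.mk_smul_mk]
    set c : ℂ := ⟪e k, P w⟫_ℂ / ⟪e k, P v⟫_ℂ with hcdef
    have h2 : c • v - w ∈ G.maxGenEigenspace (ν k : ℂ) :=
      Submodule.sub_mem _ (Submodule.smul_mem _ _ hvm) hw
    have h3 : P (c • v - w) = 0 := by
      have h4 := hspan _ h2
      rw [map_sub, map_smul, inner_sub_right, inner_smul_right, hcdef, div_mul_cancel₀ _ hc,
        sub_self, zero_smul, ← hcdef] at h4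
      rw [map_sub, map_smul]
      exact h4
    exact sub_eq_zero.1 (hinj _ hνk _ h2 h3)
  · intro μ hμ hne
    rw [Submodule.eq_bot_iff]
    intro f hf
    by_contra hf0
    have hPf : P f ≠ 0 := fun h0 => hf0 (hinj μ hμ f hf h0)
    obtain ⟨k, hk⟩ := h.exists_eq hμ hPf (hmem μ f hf)
    exact hne k hk

end Pool.Agent.Helper32.RM
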