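import Mathlib

/-!
# Laguerre polynomials
-/

open Finset Real MeasureTheory Set
open scoped Nat

namespace Pool.Agent.Helper32.RM

/-- Coefficients of the Laguerre polynomial `L_i^{(a-1)}`. -/
noncomputable def lagCoeff (a : ℝ) (i k : ℕ) : ℝ :=
  (-1) ^ k * (Gamma (a + i) / (Gamma (a + k) * (i - k)! * k !))

/-- The Laguerre polynomial `L_i^{(a-1)}`. -/
noncomputable def lag (a : ℝ) (i : ℕ) (y : ℝ) : ℝ := ∑ k ∈ range (i + 1), lagCoeff a i k * y ^ k

theorem Gamma_add_nat_eq (x : ℝ) (hx : 0 < x) (l : ℕ) :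
    Gamma (x + l) = Gamma x * (ascPochhammer ℝ l).eval x := by
  induction l with
  | zero => simp
  | succ l ih =>
    rw [ascPochhammer_succ_eval, Nat.cast_succ, ← add_assoc, Gamma_add_one (by positivity), ih]
    ring

theorem alt_sum_ascPochhammer (i l : ℕ) (x : ℝ) (hl : l < i) :
    ∑ k ∈ range (i + 1), (-1 : ℝ) ^ k * (i.choose k) * (ascPochhammer ℝ l).eval (x + k) = 0 := by
  have h1 := fwdDiff_iter_eq_sum_shift (1 : ℝ) (ascPochhammer ℝ l).eval i x
  have h2 : (fwdDiff (1 : ℝ))^[i] (ascPochhammer ℝ l).eval = 0 :=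
    Polynomial.fwdDiff_iter_eq_zero_of_degree_lt (by rwa [ascPochhammer_natDegree])
  rw [h2] at h1
  have h3 : ∑ k ∈ range (i + 1), (-1 : ℝ) ^ k * (i.choose k) * (ascPochhammer ℝ l).eval (x + k)
      = (-1 : ℝ) ^ i * ∑ k ∈ range (i + 1),
        ((-1 : ℤ) ^ (i - k) * (i.choose k : ℤ)) • (ascPochhammer ℝ l).eval (x + k • (1 : ℝ)) := by
    rw [mul_sum]
    refine sum_congr rfl fun k hk => ?_
    have hk' : k ≤ i := Nat.lt_succ_iff.1 (mem_range.1 hk)
    simp only [zsmul_eq_mul, nsmul_eq_mul, mul_one]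
    push_cast
    have : (-1 : ℝ) ^ k = (-1) ^ i * (-1) ^ (i - k) := by
      rw [← pow_add]
      have : (-1 : ℝ) ^ (i + (i - k)) = (-1 : ℝ) ^ (k + 2 * (i - k)) := by congr 1; omega
      rw [this, pow_add, pow_mul]
      simp
    rw [this]
    ring
  rw [h3, ← h1]
  simp

theorem alt_sum_ascPochhammer_self (i : ℕ) (x : ℝ) :
    ∑ k ∈ range (i + 1), (-1 : ℝ) ^ k * (i.choose k) * (ascPochhammer ℝ i).eval (x + k) =
      (-1) ^ i * i ! := by
  have h1 := fwdDiff_iter_eq_sum_shift (1 : ℝ) (ascPochhammer ℝ i).eval i x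
  have h2 : (fwdDiff (1 : ℝ))^[i] (ascPochhammer ℝ i).eval x = i ! := by
    have := Polynomial.fwdDiff_iter_degree_eq_factorial (ascPochhammer ℝ i)
    rw [ascPochhammer_natDegree, (monic_ascPochhammer ℝ i).leadingCoeff, one_smul] at this
    rw [this]
    simp
  rw [h2] at h1
  have h3 : ∑ k ∈ range (i + 1), (-1 : ℝ) ^ k * (i.choose k) * (ascPochhammer ℝ i).eval (x + k)
      = (-1 : ℝ) ^ i * ∑ k ∈ range (i + 1),
        ((-1 : ℤ) ^ (i - k) * (i.choose k : ℤ)) • (ascPochhammer ℝ i).eval (x + k • (1 : ℝ)) := by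
    rw [mul_sum]
    refine sum_congr rfl fun k hk => ?_
    have hk' : k ≤ i := Nat.lt_succ_iff.1 (mem_range.1 hk)
    simp only [zsmul_eq_mul, nsmul_eq_mul, mul_one]
    push_cast
    have : (-1 : ℝ) ^ k = (-1) ^ i * (-1) ^ (i - k) := by
      rw [← pow_add]
      have : (-1 : ℝ) ^ (i + (i - k)) = (-1 : ℝ) ^ (k + 2 * (i - k)) := by congr 1; omega
      rw [this, pow_add, pow_mul]
      simp
    rw [this]
    ring
  rw [h3, ← h1]

theorem integral_base {a r : ℝ} (ha : 0 < a) (hr : 0 < r) (k : ℕ) :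
    IntegrableOn (fun y : ℝ => y ^ (a - 1) * exp (-(r * y)) * y ^ k) (Ioi 0) ∧
    ∫ y in Ioi (0 : ℝ), y ^ (a - 1) * exp (-(r * y)) * y ^ k = Gamma (a + k) * (1 / r) ^ (a + k) := by
  have hak : 0 < a + k := by positivity
  have h0 : ∀ y ∈ Ioi (0 : ℝ), y ^ (a - 1) * exp (-(r * y)) * y ^ k =
      y ^ (a + k - 1) * exp (-(r * y)) := by
    intro y hy
    have hy' : (0 : ℝ) < y := hy
    rw [show a + k - 1 = (a - 1) + k by ring, rpow_add hy', rpow_natCast]
    ring
  constructor
  · have h1 : IntegrableOn (fun y : ℝ => y ^ (a + k - 1) * exp (-(r * y))) (Ioi 0) := by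
      have := integrableOn_rpow_mul_exp_neg_mul_rpow (s := a + k - 1) (p := 1) (b := r)
        (by linarith) one_pos hr
      refine this.congr_fun ?_ measurableSet_Ioi
      intro y hy
      simp
    exact h1.congr_fun (fun y hy => (h0 y hy).symm) measurableSet_Ioi
  · rw [setIntegral_congr_fun measurableSet_Ioi h0, integral_rpow_mul_exp_neg_mul_Ioi hak hr]
    ring

theorem lagCoeff_eq {a : ℝ} {i k : ℕ} (hk : k ≤ i) :
    lagCoeff a i k = (-1) ^ k * (i.choose k) * (Gamma (a + i) / (i ! * Gamma (a + k))) := by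
  unfold lagCoeff
  have h1 : (i.choose k : ℝ) = i ! / (k ! * (i - k)!) := Nat.cast_choose ℝ hk
  rw [h1]
  have h2 : (i ! : ℝ) ≠ 0 := by positivity
  field_simp

/-- The Laplace transform of a Laguerre polynomial. -/
theorem integral_lag {a r : ℝ} (ha : 0 < a) (hr : 0 < r) (κ : ℝ) (i : ℕ) :
    IntegrableOn (fun y : ℝ => y ^ (a - 1) * exp (-(r * y)) * lag a i (κ * y)) (Ioi 0) ∧
    ∫ y in Ioi (0 : ℝ), y ^ (a - 1) * exp (-(r * y)) * lag a i (κ * y) =
      Gamma (a + i) / i ! * (1 / r) ^ a * (1 - κ / r) ^ i := by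
  have h0 : ∀ y : ℝ, y ^ (a - 1) * exp (-(r * y)) * lag a i (κ * y) =
      ∑ k ∈ range (i + 1), (lagCoeff a i k * κ ^ k) *
        (y ^ (a - 1) * exp (-(r * y)) * y ^ k) := by
    intro y
    rw [lag, mul_sum]
    refine sum_congr rfl fun k _ => ?_
    rw [mul_pow]; ring
  simp only [h0]
  have hint : ∀ k ∈ range (i + 1), IntegrableOn (fun y : ℝ => (lagCoeff a i k * κ ^ k) *
        (y ^ (a - 1) * exp (-(r * y)) * y ^ k)) (Ioi 0) := fun k _ =>
    (integral_base ha hr k).1.const_mul _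
  refine ⟨integrable_finsetSum _ hint, ?_⟩
  rw [integral_finsetSum _ hint]
  have h1 : ∀ k ∈ range (i + 1), ∫ y in Ioi (0 : ℝ), (lagCoeff a i k * κ ^ k) *
        (y ^ (a - 1) * exp (-(r * y)) * y ^ k) =
      Gamma (a + i) / i ! * (1 / r) ^ a * ((i.choose k) * (-(κ / r)) ^ k) := by
    intro k hk
    have hk' : k ≤ i := Nat.lt_succ_iff.1 (mem_range.1 hk)
    rw [integral_const_mul, (integral_base ha hr k).2, lagCoeff_eq hk', rpow_add (by positivity),
      rpow_natCast]
    have hG : Gamma (a + k) ≠ 0 := (Gamma_pos_of_pos (by positivity)).ne'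
    have hi : (i ! : ℝ) ≠ 0 := by positivity
    have h5 : (-(κ / r)) ^ k = (-1) ^ k * κ ^ k * (1 / r) ^ k := by
      rw [← mul_pow, ← mul_pow]; congr 1; ring
    rw [h5]
    field_simp
  rw [sum_congr rfl h1, ← mul_sum]
  congr 1
  rw [sub_eq_add_neg, add_comm (1 : ℝ) (-(κ / r)), add_pow]
  refine sum_congr rfl fun k _ => ?_
  rw [one_pow]; ring

/-- Moments of a Laguerre polynomial against its weight. -/
theorem integral_lag_pow {a : ℝ} (ha : 0 < a) (i l : ℕ) :
    IntegrableOn (fun y : ℝ => y ^ (a - 1) * exp (-y) * (lag a i y * y ^ l)) (Ioi 0) ∧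
    ∫ y in Ioi (0 : ℝ), y ^ (a - 1) * exp (-y) * (lag a i y * y ^ l) =
      Gamma (a + i) / i ! * ∑ k ∈ range (i + 1),
        (-1 : ℝ) ^ k * (i.choose k) * (ascPochhammer ℝ l).eval (a + k) := by
  have h0 : ∀ y : ℝ, y ^ (a - 1) * exp (-y) * (lag a i y * y ^ l) =
      ∑ k ∈ range (i + 1), (lagCoeff a i k) *
        (y ^ (a - 1) * exp (-(1 * y)) * y ^ (k + l)) := by
    intro y
    rw [lag, sum_mul, mul_sum]
    refine sum_congr rfl fun k _ => ?_
    rw [pow_add, one_mul]; ring
  simp only [h0]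
  have hint : ∀ k ∈ range (i + 1), IntegrableOn (fun y : ℝ => (lagCoeff a i k) *
        (y ^ (a - 1) * exp (-(1 * y)) * y ^ (k + l))) (Ioi 0) := fun k _ =>
    (integral_base ha one_pos (k + l)).1.const_mul _
  refine ⟨integrable_finsetSum _ hint, ?_⟩
  rw [integral_finsetSum _ hint, mul_sum]
  refine sum_congr rfl fun k hk => ?_
  have hk' : k ≤ i := Nat.lt_succ_iff.1 (mem_range.1 hk)
  rw [integral_const_mul, (integral_base ha one_pos (k + l)).2, lagCoeff_eq hk']
  have hG : Gamma (a + k) ≠ 0 := (Gamma_pos_of_pos (by positivity)).ne'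
  have hi : (i ! : ℝ) ≠ 0 := by positivity
  rw [div_one, one_rpow, mul_one]
  push_cast
  rw [← add_assoc, Gamma_add_nat_eq (a + k) (by positivity) l]
  field_simp

theorem integral_lag_lag {a : ℝ} (ha : 0 < a) (i j : ℕ) :
    IntegrableOn (fun y : ℝ => y ^ (a - 1) * exp (-y) * (lag a i y * lag a j y)) (Ioi 0) ∧
    ∫ y in Ioi (0 : ℝ), y ^ (a - 1) * exp (-y) * (lag a i y * lag a j y) =
      if i = j then Gamma (a + i) / i ! else 0 := by
  have key : ∀ i j : ℕ, j ≤ i →
    IntegrableOn (fun y : ℝ => y ^ (a - 1) * exp (-y) * (lag a i y * lag a j y)) (Ioi 0) ∧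
    ∫ y in Ioi (0 : ℝ), y ^ (a - 1) * exp (-y) * (lag a i y * lag a j y) =
      if i = j then Gamma (a + i) / i ! else 0 := by
    intro i j hji
    have h0 : ∀ y : ℝ, y ^ (a - 1) * exp (-y) * (lag a i y * lag a j y) =
        ∑ l ∈ range (j + 1), (lagCoeff a j l) * (y ^ (a - 1) * exp (-y) * (lag a i y * y ^ l)) := by
      intro y
      rw [show lag a j y = ∑ l ∈ range (j + 1), lagCoeff a j l * y ^ l from rfl, mul_sum, mul_sum]
      refine sum_congr rfl fun k _ => ?_
      ring
    simp only [h0]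
    have hint : ∀ l ∈ range (j + 1), IntegrableOn (fun y : ℝ => (lagCoeff a j l) *
          (y ^ (a - 1) * exp (-y) * (lag a i y * y ^ l))) (Ioi 0) := fun l _ =>
      (integral_lag_pow ha i l).1.const_mul _
    refine ⟨integrable_finsetSum _ hint, ?_⟩
    rw [integral_finsetSum _ hint]
    have h1 : ∀ l ∈ range (j + 1), ∫ y in Ioi (0 : ℝ), (lagCoeff a j l) *
          (y ^ (a - 1) * exp (-y) * (lag a i y * y ^ l)) =
          if l = i then lagCoeff a j l * (Gamma (a + i) / i ! * ((-1) ^ i * i !)) else 0 := by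
      intro l hl
      have hl' : l ≤ j := Nat.lt_succ_iff.1 (mem_range.1 hl)
      rw [integral_const_mul, (integral_lag_pow ha i l).2]
      split_ifs with h
      · rw [h, alt_sum_ascPochhammer_self]
      · rw [alt_sum_ascPochhammer i l a (by omega), mul_zero, mul_zero]
    rw [sum_congr rfl h1, sum_ite_eq']
    by_cases hij : i = j
    · subst hij
      rw [if_pos (mem_range.2 (Nat.lt_succ_self i)), if_pos rfl, lagCoeff_eq le_rfl]
      have hG : Gamma (a + i) ≠ 0 := (Gamma_pos_of_pos (by positivity)).ne'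
      have hi : (i ! : ℝ) ≠ 0 := by positivity
      rw [Nat.choose_self]
      field_simp
      have : ((-1 : ℝ) ^ i) ^ 2 = 1 := by rw [← pow_mul, mul_comm, pow_mul]; simp
      push_cast
      linear_combination this
    · rw [if_neg hij, if_neg]
      rw [Finset.mem_range]; omega
  rcases le_total j i with h | h
  · exact key i j h
  · have := key j i h
    constructor
    · refine this.1.congr_fun (fun y _ => ?_) measurableSet_Ioi
      ring
    · rw [show (∫ y in Ioi (0 : ℝ), y ^ (a - 1) * exp (-y) * (lag a i y * lag a j y)) =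
        ∫ y in Ioi (0 : ℝ), y ^ (a - 1) * exp (-y) * (lag a j y * lag a i y) by
          refine integral_congr_ae (Filter.Eventually.of_forall fun y => ?_); ring, this.2]
      by_cases hij : i = j
      · subst hij; rfl
      · rw [if_neg hij, if_neg (Ne.symm hij)]

theorem lag_succ_sum {a : ℝ} (ha : 0 < a) (i : ℕ) (y : ℝ) :
    lag (a + 1) i y = ∑ k ∈ range (i + 1), lag a k y := by
  induction i with
  | zero =>
    simp only [lag, zero_add, range_one, sum_singleton, lagCoeff]
    simp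
    rw [div_self (Gamma_pos_of_pos (by linarith : (0 : ℝ) < a + 1)).ne', div_self (Gamma_pos_of_pos ha).ne']
  | succ i ih =>
    rw [sum_range_succ, ← ih]
    have h1 : lag (a + 1) i y = ∑ k ∈ range (i + 1 + 1), (if k ≤ i then lagCoeff (a + 1) i k else 0) * y ^ k := by
      rw [sum_range_succ, if_neg (by omega), zero_mul, add_zero, lag]
      refine sum_congr rfl fun k hk => ?_
      rw [if_pos (Nat.lt_succ_iff.1 (mem_range.1 hk))]
    rw [h1, lag, lag, ← sum_add_distrib]
    refine sum_congr rfl fun k hk => ?_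
    have hk' : k ≤ i + 1 := Nat.lt_succ_iff.1 (mem_range.1 hk)
    rw [← add_mul]
    congr 1
    have hGk : Gamma (a + k) ≠ 0 := (Gamma_pos_of_pos (by positivity)).ne'
    have hGi : Gamma (a + i + 1) ≠ 0 := (Gamma_pos_of_pos (by positivity)).ne'
    have e1 : Gamma (a + 1 + k) = (a + k) * Gamma (a + k) := by
      rw [show a + 1 + (k : ℝ) = (a + k) + 1 by ring, Gamma_add_one (by positivity)]
    have e2 : Gamma (a + 1 + ((i + 1 : ℕ) : ℝ)) = (a + i + 1) * Gamma (a + i + 1) := by
      rw [show a + 1 + ((i + 1 : ℕ) : ℝ) = (a + i + 1) + 1 by push_cast; ring,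
        Gamma_add_one (by positivity)]
    have e3 : Gamma (a + 1 + i) = Gamma (a + i + 1) := by congr 1; ring
    have e4 : Gamma (a + ((i + 1 : ℕ) : ℝ)) = Gamma (a + i + 1) := by congr 1; push_cast; ring
    have hak : a + (k : ℝ) ≠ 0 := by positivity
    split_ifs with h
    · unfold lagCoeff
      rw [e1, e2, e3, e4]
      have e5 : ((i + 1 - k)! : ℝ) = ((i : ℝ) + 1 - k) * (i - k)! := by
        rw [show i + 1 - k = (i - k) + 1 by omega, Nat.factorial_succ]
        push_cast [Nat.cast_sub h]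
        ring
      rw [e5]
      have h6 : ((i : ℝ) + 1 - k) ≠ 0 := by
        have : (k : ℝ) ≤ i := by exact_mod_cast h
        linarith
      have h7 : ((i - k)! : ℝ) ≠ 0 := by positivity
      have h8 : (k ! : ℝ) ≠ 0 := by positivity
      field_simp
      ring
    · have hk2 : k = i + 1 := by omega
      subst hk2
      unfold lagCoeff
      rw [e2, e4, Nat.sub_self, zero_add]
      have h8 : (((i + 1)! : ℕ) : ℝ) ≠ 0 := by positivity
      field_simp

end Pool.Agent.Helper32.RM
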