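import Mathlib

/-!
# A weighted Hardy-type inequality for finite sums
-/

open Finset

namespace Pool.Agent.Helper32.RM

theorem abel_sum (n : ℕ) (q : ℕ → ℝ) (X : ℕ → ℂ) (m : ℕ) : ∀ k, k + m = n →
    ∑ i ∈ Ico k n, (q i : ℂ) * X i = (q k : ℂ) * ∑ i ∈ Ico k n, X i +
      ∑ j ∈ Ico (k + 1) n, ((q j - q (j - 1) : ℝ) : ℂ) * ∑ i ∈ Ico j n, X i := by
  induction m with
  | zero =>
    intro k hk
    have : k = n := by omega
    subst this
    simp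
  | succ m ih =>
    intro k hk
    have hkn : k < n := by omega
    rw [sum_eq_sum_Ico_succ_bot hkn, sum_eq_sum_Ico_succ_bot hkn, ih (k + 1) (by omega)]
    rcases Nat.lt_or_ge (k + 1) n with h | h
    · rw [sum_eq_sum_Ico_succ_bot h (fun j => ((q j - q (j - 1) : ℝ) : ℂ) * ∑ i ∈ Ico j n, X i)]
      simp only [Nat.add_sub_cancel]
      push_cast
      ring
    · have h1 : k + 1 = n := by omega
      rw [Ico_eq_empty_of_le (show n ≤ k + 1 from h), Ico_eq_empty_of_le (show n ≤ k + 1 + 1 by omega)]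
      simp

theorem cauchy_weighted (s : Finset ℕ) (a d : ℕ → ℝ) (hd : ∀ k, 0 < d k) (S : ℕ → ℂ) :
    ‖∑ j ∈ s, (a j : ℂ) * S j‖ ^ 2 ≤ (∑ j ∈ s, a j ^ 2 / d j) * ∑ j ∈ s, d j * ‖S j‖ ^ 2 := by
  have h1 : ‖∑ j ∈ s, (a j : ℂ) * S j‖ ≤
      ∑ j ∈ s, (|a j| / Real.sqrt (d j)) * (Real.sqrt (d j) * ‖S j‖) := by
    refine (norm_sum_le _ _).trans (le_of_eq ?_)
    refine sum_congr rfl fun j _ => ?_
    rw [norm_mul, Complex.norm_real, Real.norm_eq_abs]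
    have := Real.sqrt_pos.2 (hd j)
    field_simp
  have h2 := sum_mul_sq_le_sq_mul_sq s (fun j => |a j| / Real.sqrt (d j))
    (fun j => Real.sqrt (d j) * ‖S j‖)
  calc ‖∑ j ∈ s, (a j : ℂ) * S j‖ ^ 2
      ≤ (∑ j ∈ s, (|a j| / Real.sqrt (d j)) * (Real.sqrt (d j) * ‖S j‖)) ^ 2 :=
        pow_le_pow_left₀ (norm_nonneg _) h1 2
    _ ≤ _ := h2
    _ = _ := by
        congr 1
        · refine sum_congr rfl fun j _ => ?_
          rw [div_pow, sq_abs, Real.sq_sqrt (hd j).le]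
        · refine sum_congr rfl fun j _ => ?_
          rw [mul_pow, Real.sq_sqrt (hd j).le]

theorem weighted (n : ℕ) (d D q β : ℕ → ℝ) (hd : ∀ k, 0 < d k) (hD : ∀ k, 0 ≤ D k)
    (h1 : ∀ k, D k * q k ^ 2 ≤ d k)
    (h2 : ∀ j, 1 ≤ j → (q j - q (j - 1)) ^ 2 * (∑ k ∈ range j, D k) ≤ d j * β j)
    (hβ : ∑ j ∈ Ico 1 n, β j ≤ 1 / 16) (X : ℕ → ℂ) :
    ∑ k ∈ range n, D k * ‖∑ i ∈ Ico k n, (q i : ℂ) * X i‖ ^ 2 ≤
      25 / 16 * ∑ k ∈ range n, d k * ‖∑ i ∈ Ico k n, X i‖ ^ 2 := by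
  set S : ℕ → ℂ := fun j => ∑ i ∈ Ico j n, X i with hS
  set E : ℝ := ∑ k ∈ range n, d k * ‖S k‖ ^ 2 with hE
  have hE0 : 0 ≤ E := sum_nonneg fun k _ => mul_nonneg (hd k).le (by positivity)
  set B : ℕ → ℝ := fun k => ∑ j ∈ Ico (k + 1) n, (q j - q (j - 1)) ^ 2 / d j with hB
  have hterm : ∀ k ∈ range n, D k * ‖∑ i ∈ Ico k n, (q i : ℂ) * X i‖ ^ 2 ≤
      5 / 4 * (d k * ‖S k‖ ^ 2) + 5 * (D k * B k * E) := by
    intro k hk
    have hkn := mem_range.1 hk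
    have e1 := abel_sum n q X (n - k) k (by omega)
    rw [e1]
    set R : ℂ := ∑ j ∈ Ico (k + 1) n, ((q j - q (j - 1) : ℝ) : ℂ) * ∑ i ∈ Ico j n, X i with hR
    have e2 : ‖R‖ ^ 2 ≤ B k * E := by
      have := cauchy_weighted (Ico (k + 1) n) (fun j => q j - q (j - 1)) d hd S
      refine this.trans ?_
      apply mul_le_mul_of_nonneg_left
      · apply sum_le_sum_of_subset_of_nonneg
        · intro j hj
          rw [mem_Ico] at hj
          exact mem_range.2 hj.2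
        · intro j _ _
          exact mul_nonneg (hd j).le (by positivity)
      · exact sum_nonneg fun j _ => div_nonneg (sq_nonneg _) (hd j).le
    have e3 : ‖(q k : ℂ) * S k + R‖ ^ 2 ≤ 5 / 4 * (q k ^ 2 * ‖S k‖ ^ 2) + 5 * ‖R‖ ^ 2 := by
      have h3 : ‖(q k : ℂ) * S k + R‖ ≤ |q k| * ‖S k‖ + ‖R‖ := by
        refine (norm_add_le _ _).trans (le_of_eq ?_)
        rw [norm_mul, Complex.norm_real, Real.norm_eq_abs]
      have h4 : ‖(q k : ℂ) * S k + R‖ ^ 2 ≤ (|q k| * ‖S k‖ + ‖R‖) ^ 2 :=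
        pow_le_pow_left₀ (norm_nonneg _) h3 2
      have h5 : q k ^ 2 = |q k| ^ 2 := (sq_abs _).symm
      rw [h5]
      nlinarith [sq_nonneg (|q k| * ‖S k‖ / 2 - 2 * ‖R‖)]
    calc D k * ‖(q k : ℂ) * S k + R‖ ^ 2
        ≤ D k * (5 / 4 * (q k ^ 2 * ‖S k‖ ^ 2) + 5 * ‖R‖ ^ 2) :=
          mul_le_mul_of_nonneg_left e3 (hD k)
      _ = 5 / 4 * ((D k * q k ^ 2) * ‖S k‖ ^ 2) + 5 * (D k * ‖R‖ ^ 2) := by ring
      _ ≤ 5 / 4 * (d k * ‖S k‖ ^ 2) + 5 * (D k * (B k * E)) := by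
          have := mul_le_mul_of_nonneg_right (h1 k) (sq_nonneg ‖S k‖)
          have := mul_le_mul_of_nonneg_left e2 (hD k)
          linarith
      _ = _ := by ring
  have hsum : ∑ k ∈ range n, D k * B k ≤ 1 / 16 := by
    have e1 : ∑ k ∈ range n, D k * B k =
        ∑ j ∈ Ico 1 n, ∑ k ∈ range j, D k * ((q j - q (j - 1)) ^ 2 / d j) := by
      simp only [hB, mul_sum]
      apply sum_comm'
      intro k j
      simp only [mem_range, mem_Ico]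
      omega
    rw [e1]
    refine le_trans (sum_le_sum fun j hj => ?_) hβ
    have hj1 := (mem_Ico.1 hj).1
    rw [← sum_mul, mul_div_assoc', div_le_iff₀ (hd j)]
    have := h2 j hj1
    linarith
  calc ∑ k ∈ range n, D k * ‖∑ i ∈ Ico k n, (q i : ℂ) * X i‖ ^ 2
      ≤ ∑ k ∈ range n, (5 / 4 * (d k * ‖S k‖ ^ 2) + 5 * (D k * B k * E)) := sum_le_sum hterm
    _ = 5 / 4 * E + 5 * ((∑ k ∈ range n, D k * B k) * E) := by
        rw [sum_add_distrib, ← mul_sum, ← mul_sum, sum_mul]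
    _ ≤ 5 / 4 * E + 5 * (1 / 16 * E) := by
        have := mul_le_mul_of_nonneg_right hsum hE0
        linarith
    _ = 25 / 16 * E := by ring

end Pool.Agent.Helper32.RM
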