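import Mathlib
import Pool.Agent.Helper32.Laguerre
import Pool.Agent.Helper32.Weighted

open Finset Real MeasureTheory Set
open scoped Nat

namespace Pool.Agent.Helper32.RM

/-- `C_k = Γ(a+k)/k!`. -/
noncomputable def CC (a : ℝ) (k : ℕ) : ℝ := Gamma (a + k) / k !

theorem CC_pos {a : ℝ} (ha : 0 < a) (k : ℕ) : 0 < CC a k :=
  div_pos (Gamma_pos_of_pos (by positivity)) (by positivity)

theorem CC_succ {a : ℝ} (ha : 0 < a) (k : ℕ) : CC a (k + 1) * (k + 1) = CC a k * (a + k) := by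
  unfold CC
  rw [Nat.factorial_succ, Nat.cast_mul, Nat.cast_succ, ← add_assoc, Gamma_add_one (by positivity)]
  have : (k ! : ℝ) ≠ 0 := by positivity
  field_simp

theorem CC_add_one {a : ℝ} (ha : 0 < a) (k : ℕ) : CC (a + 1) k = CC a k * (a + k) := by
  unfold CC
  rw [show a + 1 + (k : ℝ) = (a + k) + 1 by ring, Gamma_add_one (by positivity)]
  ring

theorem sum_CC {a : ℝ} (ha : 0 < a) (j : ℕ) :
    a * ∑ k ∈ range (j + 1), CC a k = CC (a + 1) j := by
  induction j with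
  | zero =>
    rw [CC_add_one ha]; simp; ring
  | succ j ih =>
    rw [sum_range_succ, mul_add, ih]
    have h1 := CC_succ (show 0 < a + 1 by linarith) j
    have h2 := CC_add_one ha j
    have h3 := CC_add_one ha (j + 1)
    have h4 := CC_succ ha j
    push_cast at *
    have h5 : (0 : ℝ) < (j : ℝ) + 1 := by positivity
    nlinarith

/-- Norm square of a complex combination of real numbers. -/
theorem norm_sq_sum (n : ℕ) (h : ℕ → ℂ) (l : ℕ → ℝ) :
    ‖∑ i ∈ range n, h i * (l i : ℂ)‖ ^ 2 =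
      ∑ i ∈ range n, ∑ j ∈ range n, (h i * (starRingEnd ℂ) (h j)).re * (l i * l j) := by
  have h1 : (‖∑ i ∈ range n, h i * (l i : ℂ)‖ ^ 2 : ℝ) =
      ((∑ i ∈ range n, h i * (l i : ℂ)) * (starRingEnd ℂ) (∑ i ∈ range n, h i * (l i : ℂ))).re := by
    rw [Complex.mul_conj']
    norm_cast
  rw [h1, map_sum, sum_mul_sum, Complex.re_sum]
  refine sum_congr rfl fun i _ => ?_
  rw [Complex.re_sum]
  refine sum_congr rfl fun j _ => ?_
  rw [map_mul, Complex.conj_ofReal]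
  have : h i * (l i : ℂ) * ((starRingEnd ℂ) (h j) * (l j : ℂ)) =
      (h i * (starRingEnd ℂ) (h j)) * ((l i * l j : ℝ) : ℂ) := by
    push_cast; ring
  rw [this, Complex.re_mul_ofReal]

theorem integral_gram {a : ℝ} (ha : 0 < a) (n : ℕ) (h : ℕ → ℂ) :
    IntegrableOn (fun y : ℝ => y ^ (a - 1) * exp (-y) *
      ‖∑ i ∈ range n, h i * (lag a i y : ℂ)‖ ^ 2) (Ioi 0) ∧
    ∫ y in Ioi (0 : ℝ), y ^ (a - 1) * exp (-y) * ‖∑ i ∈ range n, h i * (lag a i y : ℂ)‖ ^ 2 =
      ∑ i ∈ range n, CC a i * ‖h i‖ ^ 2 := by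
  have h0 : ∀ y : ℝ, y ^ (a - 1) * exp (-y) * ‖∑ i ∈ range n, h i * (lag a i y : ℂ)‖ ^ 2 =
      ∑ i ∈ range n, ∑ j ∈ range n, (h i * (starRingEnd ℂ) (h j)).re *
        (y ^ (a - 1) * exp (-y) * (lag a i y * lag a j y)) := by
    intro y
    rw [norm_sq_sum, mul_sum]
    refine sum_congr rfl fun i _ => ?_
    rw [mul_sum]
    refine sum_congr rfl fun j _ => ?_
    ring
  simp only [h0]
  have hint : ∀ i j : ℕ, IntegrableOn (fun y : ℝ => (h i * (starRingEnd ℂ) (h j)).re *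
        (y ^ (a - 1) * exp (-y) * (lag a i y * lag a j y))) (Ioi 0) := fun i j =>
    (integral_lag_lag ha i j).1.const_mul _
  have hint2 : ∀ i ∈ range n, IntegrableOn (fun y : ℝ => ∑ j ∈ range n,
      (h i * (starRingEnd ℂ) (h j)).re *
        (y ^ (a - 1) * exp (-y) * (lag a i y * lag a j y))) (Ioi 0) := fun i _ =>
    integrable_finsetSum _ fun j _ => hint i j
  refine ⟨integrable_finsetSum _ hint2, ?_⟩
  rw [integral_finsetSum _ hint2]
  refine sum_congr rfl fun i hi => ?_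
  rw [integral_finsetSum _ fun j _ => hint i j]
  have h1 : ∀ j ∈ range n, ∫ y in Ioi (0 : ℝ), (h i * (starRingEnd ℂ) (h j)).re *
        (y ^ (a - 1) * exp (-y) * (lag a i y * lag a j y)) =
        if i = j then CC a i * ‖h i‖ ^ 2 else 0 := by
    intro j _
    rw [integral_const_mul, (integral_lag_lag ha i j).2]
    split_ifs with hij
    · subst hij
      rw [Complex.mul_conj']
      have : (((‖h i‖ : ℂ)) ^ 2).re = ‖h i‖ ^ 2 := by
        rw [← Complex.ofReal_pow, Complex.ofReal_re]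
      rw [this, CC]; ring
    · rw [mul_zero]
  rw [sum_congr rfl h1, sum_ite_eq, if_pos hi]

theorem sum_lag_succ {a : ℝ} (ha : 0 < a) (n : ℕ) (h : ℕ → ℂ) (y : ℝ) :
    ∑ i ∈ range n, h i * (lag (a + 1) i y : ℂ) =
      ∑ k ∈ range n, (∑ i ∈ Ico k n, h i) * (lag a k y : ℂ) := by
  simp only [lag_succ_sum ha, Complex.ofReal_sum, mul_sum, sum_mul]
  apply sum_comm'
  intro i k
  simp only [Finset.mem_range, Finset.mem_Ico]
  omega

theorem integral_gram' {a : ℝ} (ha : 0 < a) (n : ℕ) (h : ℕ → ℂ) :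
    IntegrableOn (fun y : ℝ => y ^ (a - 1) * exp (-y) *
      ‖∑ i ∈ range n, h i * (lag (a + 1) i y : ℂ)‖ ^ 2) (Ioi 0) ∧
    ∫ y in Ioi (0 : ℝ), y ^ (a - 1) * exp (-y) *
        ‖∑ i ∈ range n, h i * (lag (a + 1) i y : ℂ)‖ ^ 2 =
      ∑ k ∈ range n, CC a k * ‖∑ i ∈ Ico k n, h i‖ ^ 2 := by
  simp only [sum_lag_succ ha]
  exact integral_gram ha n (fun k => ∑ i ∈ Ico k n, h i)

/-- Change of variables `t = κ y`. -/
theorem scale_integral {a κ : ℝ} (hκ : 0 < κ) (F : ℝ → ℝ)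
    (hF : IntegrableOn (fun y : ℝ => y ^ (a - 1) * exp (-y) * F y) (Ioi 0)) :
    IntegrableOn (fun y : ℝ => y ^ (a - 1) * exp (-(κ * y)) * F (κ * y)) (Ioi 0) ∧
    ∫ y in Ioi (0 : ℝ), y ^ (a - 1) * exp (-(κ * y)) * F (κ * y) =
      κ ^ (-a) * ∫ y in Ioi (0 : ℝ), y ^ (a - 1) * exp (-y) * F y := by
  set G : ℝ → ℝ := fun y => y ^ (a - 1) * exp (-y) * F y with hG
  have h0 : ∀ y ∈ Ioi (0 : ℝ), y ^ (a - 1) * exp (-(κ * y)) * F (κ * y) =
      κ ^ (1 - a) * G (κ * y) := by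
    intro y hy
    have hy' : (0 : ℝ) < y := hy
    simp only [hG]
    rw [mul_rpow hκ.le hy'.le]
    have : κ ^ (1 - a) * κ ^ (a - 1) = 1 := by
      rw [← rpow_add hκ]; simp
    calc y ^ (a - 1) * exp (-(κ * y)) * F (κ * y)
        = (κ ^ (1 - a) * κ ^ (a - 1)) * (y ^ (a - 1) * exp (-(κ * y)) * F (κ * y)) := by
          rw [this, one_mul]
      _ = _ := by ring
  have h1 : IntegrableOn (fun y => G (κ * y)) (Ioi 0) := by
    have := (integrableOn_Ioi_comp_mul_left_iff G 0 hκ).2 (by rwa [mul_zero])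
    exact this
  constructor
  · have h2 : IntegrableOn (fun y => κ ^ (1 - a) * G (κ * y)) (Ioi 0) := h1.const_mul _
    exact h2.congr_fun (fun y hy => (h0 y hy).symm) measurableSet_Ioi
  · rw [setIntegral_congr_fun measurableSet_Ioi h0, integral_const_mul,
      integral_comp_mul_left_Ioi G 0 hκ, mul_zero, smul_eq_mul, ← mul_assoc]
    congr 1
    rw [show -a = (1 - a) + (-1) by ring, rpow_add hκ, rpow_neg_one]

/-- The sequences in the weighted inequality. -/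
theorem weighted_CC {ν : ℝ} (hν : 0 < ν) (n : ℕ) (X : ℕ → ℂ) :
    CC ν 0 * ‖∑ i ∈ range n, (√((i + 1) / (ν + 1 + i)) : ℂ) * X i‖ ^ 2 +
    ∑ k ∈ range n, CC ν (k + 1) * ‖∑ i ∈ Ico k n, (√((i + 1) / (ν + 1 + i)) : ℂ) * X i‖ ^ 2 ≤
      25 / 16 * ∑ k ∈ range n, CC ν k * ‖∑ i ∈ Ico k n, X i‖ ^ 2 := by
  rcases Nat.eq_zero_or_pos n with hn | hn
  · subst hn; simp
  set q : ℕ → ℝ := fun k => √(((k : ℝ) + 1) / (ν + 1 + k)) with hq
  set D : ℕ → ℝ := fun k => if k = 0 then CC ν 0 + CC ν 1 else CC ν (k + 1) with hD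
  set β : ℕ → ℝ := fun j => 1 / (16 * ((j : ℝ) * (j + 1))) with hβ
  have hq2 : ∀ k, q k ^ 2 = ((k : ℝ) + 1) / (ν + 1 + k) := by
    intro k
    simp only [hq]
    rw [Real.sq_sqrt (by positivity)]
  have hq0 : ∀ k, 0 < q k := fun k => Real.sqrt_pos.2 (by positivity)
  have hDsum : ∀ j, 1 ≤ j → ν * ∑ k ∈ range j, D k = CC (ν + 1) j := by
    intro j hj
    rw [← sum_CC hν]
    congr 1
    obtain ⟨m, rfl⟩ : ∃ m, j = m + 1 := ⟨j - 1, by omega⟩
    rw [sum_range_succ' D m, sum_range_succ' (CC ν) (m + 1), sum_range_succ' _ m]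
    have : ∑ k ∈ range m, D (k + 1) = ∑ k ∈ range m, CC ν (k + 1 + 1) := by
      refine sum_congr rfl fun k _ => ?_
      simp [hD]
    rw [this]
    simp [hD]
    ring
  have hw := weighted n (CC ν) D q β (CC_pos hν) ?_ ?_ ?_ ?_ X
  · have e1 : ∑ k ∈ range n, D k * ‖∑ i ∈ Ico k n, (q i : ℂ) * X i‖ ^ 2 =
        CC ν 0 * ‖∑ i ∈ range n, (q i : ℂ) * X i‖ ^ 2 +
        ∑ k ∈ range n, CC ν (k + 1) * ‖∑ i ∈ Ico k n, (q i : ℂ) * X i‖ ^ 2 := by
      obtain ⟨m, rfl⟩ : ∃ m, n = m + 1 := ⟨n - 1, by omega⟩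
      rw [sum_range_succ' _ m, sum_range_succ' (fun k => CC ν (k + 1) *
        ‖∑ i ∈ Ico k (m + 1), (q i : ℂ) * X i‖ ^ 2) m]
      have : ∑ k ∈ range m, D (k + 1) * ‖∑ i ∈ Ico (k + 1) (m + 1), (q i : ℂ) * X i‖ ^ 2 =
          ∑ k ∈ range m, CC ν (k + 1 + 1) * ‖∑ i ∈ Ico (k + 1) (m + 1), (q i : ℂ) * X i‖ ^ 2 := by
        refine sum_congr rfl fun k _ => ?_
        simp [hD]
      rw [this]
      simp only [hD, if_true, Nat.Ico_zero_eq_range]
      ring
    rw [e1] at hw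
    exact hw
  · intro k
    simp only [hD]
    split_ifs
    · exact (add_pos (CC_pos hν 0) (CC_pos hν 1)).le
    · exact (CC_pos hν _).le
  · intro k
    rw [hq2]
    simp only [hD]
    split_ifs with h
    · subst h
      have h1 := CC_succ hν 0
      push_cast at h1
      simp only [zero_add, mul_one, add_zero] at h1
      push_cast
      rw [h1]
      simp only [zero_add, add_zero]
      rw [mul_one_div, div_le_iff₀ (by linarith)]
      linarith
    · have h1 := CC_succ hν k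
      rw [mul_div_assoc', div_le_iff₀ (by positivity), h1]
      have := CC_pos hν k
      nlinarith
  · intro j hj
    have hj0 : (1 : ℝ) ≤ j := by exact_mod_cast hj
    have e1 : ∑ k ∈ range j, D k = CC (ν + 1) j / ν := by
      rw [← hDsum j hj]; field_simp
    rw [e1, CC_add_one hν]
    have hqj := hq2 j
    have hqj1 : q (j - 1) ^ 2 = (j : ℝ) / (ν + j) := by
      rw [hq2]
      have : ((j - 1 : ℕ) : ℝ) = j - 1 := by rw [Nat.cast_sub hj]; simp
      rw [this]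
      congr 1 <;> ring
    have hp : 0 < q (j - 1) := hq0 _
    have hpj : 0 < q j := hq0 _
    -- q_j ^2 - q_{j-1}^2 = ν/((ν+j+1)(ν+j))
    have hdiff : q j ^ 2 - q (j - 1) ^ 2 = ν / ((ν + j + 1) * (ν + j)) := by
      rw [hqj, hqj1]
      have : ν + (j : ℝ) ≠ 0 := by positivity
      have : ν + 1 + (j : ℝ) ≠ 0 := by positivity
      have : ν + (j : ℝ) + 1 ≠ 0 := by positivity
      field_simp
      ring
    have hge : q (j - 1) ≤ q j := by
      have h1 : 0 ≤ q j ^ 2 - q (j - 1) ^ 2 := by rw [hdiff]; positivity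
      nlinarith
    have hkey : (q j - q (j - 1)) ^ 2 * (4 * q (j - 1) ^ 2) ≤ (q j ^ 2 - q (j - 1) ^ 2) ^ 2 := by
      have : q j ^ 2 - q (j - 1) ^ 2 = (q j - q (j - 1)) * (q j + q (j - 1)) := by ring
      rw [this, mul_pow]
      apply mul_le_mul_of_nonneg_left _ (sq_nonneg _)
      nlinarith
    rw [hdiff, hqj1] at hkey
    have hkey2 : (q j - q (j - 1)) ^ 2 ≤ ν ^ 2 / (4 * j * (ν + j + 1) ^ 2 * (ν + j)) := by
      rw [le_div_iff₀ (by positivity)]
      have h4 : (q j - q (j - 1)) ^ 2 * (4 * (j / (ν + j))) * ((ν + j + 1) ^ 2 * (ν + j) ^ 2) ≤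
          (ν / ((ν + j + 1) * (ν + j))) ^ 2 * ((ν + j + 1) ^ 2 * (ν + j) ^ 2) :=
        mul_le_mul_of_nonneg_right hkey (by positivity)
      have h5 : (ν / ((ν + j + 1) * (ν + j))) ^ 2 * ((ν + j + 1) ^ 2 * (ν + j) ^ 2) = ν ^ 2 := by
        field_simp
      have h6 : (q j - q (j - 1)) ^ 2 * (4 * (j / (ν + j))) * ((ν + j + 1) ^ 2 * (ν + j) ^ 2) =
          (q j - q (j - 1)) ^ 2 * (4 * j * (ν + j + 1) ^ 2 * (ν + j)) := by
        field_simp
      rw [h5, h6] at h4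
      exact h4
    have hC := CC_pos hν j
    calc (q j - q (j - 1)) ^ 2 * (CC ν j * (ν + j) / ν)
        ≤ ν ^ 2 / (4 * j * (ν + j + 1) ^ 2 * (ν + j)) * (CC ν j * (ν + j) / ν) :=
          mul_le_mul_of_nonneg_right hkey2 (by positivity)
      _ = CC ν j * (ν / (4 * j * (ν + j + 1) ^ 2)) := by
          field_simp
      _ ≤ CC ν j * β j := by
          apply mul_le_mul_of_nonneg_left _ hC.le
          simp only [hβ]
          rw [div_le_div_iff₀ (by positivity) (by positivity)]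
          have : 4 * ν * ((j : ℝ) + 1) ≤ (ν + j + 1) ^ 2 := by nlinarith [sq_nonneg (ν - (j + 1))]
          nlinarith
  · have h1 : ∀ m : ℕ, ∑ j ∈ Ico 1 (m + 1), β j = 1 / 16 * (1 - 1 / ((m : ℝ) + 1)) := by
      intro m
      induction m with
      | zero => simp
      | succ m ih =>
        rw [sum_Ico_succ_top (by omega), ih]
        simp only [hβ]
        push_cast
        field_simp
        ring
    obtain ⟨m, rfl⟩ : ∃ m, n = m + 1 := ⟨n - 1, by omega⟩
    rw [h1]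
    have : 0 ≤ 1 / ((m : ℝ) + 1) := by positivity
    linarith

end Pool.Agent.Helper32.RM
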