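import Mathlib
import Pool.Agent.Helper32.Gram

open Finset Real MeasureTheory Set
open scoped Nat InnerProductSpace

namespace Pool.Agent.Helper32.RM

/-- The weight `y^(s-1)/(e^y-1)`. -/
noncomputable def wt (s y : ℝ) : ℝ := y ^ (s - 1) / (exp y - 1)

/-- The Hilbert space. -/
abbrev HH : Type := Lp ℂ 2 (volume.restrict (Ioi (0 : ℝ)))

/-- The function representing a vector. -/
noncomputable def vfun (s : ℝ) (f : ℝ → ℝ) (y : ℝ) : ℂ := ((√(wt s y) * f y : ℝ) : ℂ)

/-- Functions which define vectors. -/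
def Good (s : ℝ) (f : ℝ → ℝ) : Prop :=
  Measurable f ∧ IntegrableOn (fun y => wt s y * f y ^ 2) (Ioi 0)

theorem measurable_wt (s : ℝ) : Measurable (wt s) := by
  unfold wt
  fun_prop

theorem wt_pos {s y : ℝ} (hy : 0 < y) : 0 < wt s y := by
  unfold wt
  apply div_pos (rpow_pos_of_pos hy _)
  have := add_one_lt_exp hy.ne'
  linarith

theorem measurable_vfun {s : ℝ} {f : ℝ → ℝ} (hf : Measurable f) : Measurable (vfun s f) := by
  unfold vfun
  have := measurable_wt s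
  fun_prop

theorem norm_vfun_sq {s : ℝ} {f : ℝ → ℝ} {y : ℝ} (hy : 0 < y) :
    ‖vfun s f y‖ ^ 2 = wt s y * f y ^ 2 := by
  unfold vfun
  rw [Complex.norm_real, Real.norm_eq_abs, sq_abs, mul_pow, Real.sq_sqrt (wt_pos hy).le]

theorem Good.memLp {s : ℝ} {f : ℝ → ℝ} (hf : Good s f) :
    MemLp (vfun s f) 2 (volume.restrict (Ioi (0 : ℝ))) := by
  rw [memLp_two_iff_integrable_sq_norm (measurable_vfun hf.1).aestronglyMeasurable]
  have h := hf.2
  exact h.congr_fun (fun y hy => (norm_vfun_sq hy).symm) measurableSet_Ioi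

/-- The vector of `HH` defined by `f`. -/
noncomputable def vec (s : ℝ) (f : ℝ → ℝ) : HH :=
  haveI := Classical.propDecidable (MemLp (vfun s f) 2 (volume.restrict (Ioi (0 : ℝ))))
  if h : MemLp (vfun s f) 2 (volume.restrict (Ioi (0 : ℝ))) then h.toLp else 0

theorem Good.coeFn {s : ℝ} {f : ℝ → ℝ} (hf : Good s f) :
    (vec s f : ℝ → ℂ) =ᵐ[volume.restrict (Ioi (0 : ℝ))] vfun s f := by
  unfold vec
  rw [dif_pos hf.memLp]
  exact hf.memLp.coeFn_toLp

theorem inner_vec {s : ℝ} {f : ℝ → ℝ} (hf : Good s f) (Φ : HH) :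
    ⟪vec s f, Φ⟫_ℂ = ∫ y in Ioi (0 : ℝ), vfun s f y * Φ y := by
  rw [L2.inner_def]
  apply integral_congr_ae
  filter_upwards [hf.coeFn] with y hy
  rw [hy]
  simp [vfun, mul_comm]

theorem inner_vec_vec {s : ℝ} {f g : ℝ → ℝ} (hf : Good s f) (hg : Good s g) :
    ⟪vec s f, vec s g⟫_ℂ = ((∫ y in Ioi (0 : ℝ), wt s y * (f y * g y) : ℝ) : ℂ) := by
  rw [inner_vec hf, ← integral_complex_ofReal]
  apply integral_congr_ae
  filter_upwards [hg.coeFn, ae_restrict_mem measurableSet_Ioi] with y hy hy0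
  rw [hy]
  have hw : (√(wt s y)) * √(wt s y) = wt s y := Real.mul_self_sqrt (wt_pos hy0).le
  unfold vfun
  rw [← Complex.ofReal_mul]
  congr 1
  linear_combination (f y * g y) * hw

theorem norm_sum_vec {s : ℝ} (n : ℕ) (h : ℕ → ℂ) (f : ℕ → ℝ → ℝ) (hf : ∀ i, Good s (f i)) :
    IntegrableOn (fun y => wt s y * ‖∑ i ∈ range n, h i * (f i y : ℂ)‖ ^ 2) (Ioi 0) ∧
    ‖∑ i ∈ range n, h i • vec s (f i)‖ ^ 2 =
      ∫ y in Ioi (0 : ℝ), wt s y * ‖∑ i ∈ range n, h i * (f i y : ℂ)‖ ^ 2 := by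
  set F : HH := ∑ i ∈ range n, h i • vec s (f i) with hF
  have h1 : (F : ℝ → ℂ) =ᵐ[volume.restrict (Ioi (0 : ℝ))]
      fun y => ∑ i ∈ range n, h i * vfun s (f i) y := by
    rw [hF]
    refine (Lp.coeFn_finsetSum _ _).trans ?_
    have : ∀ i ∈ range n, ((h i • vec s (f i) : HH) : ℝ → ℂ)
        =ᵐ[volume.restrict (Ioi (0 : ℝ))] fun y => h i * vfun s (f i) y := by
      intro i _
      refine (Lp.coeFn_smul _ _).trans ?_
      filter_upwards [(hf i).coeFn] with y hy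
      simp [hy]
    have h2 : ∀ᵐ y ∂(volume.restrict (Ioi (0 : ℝ))), ∀ i ∈ range n,
        ((h i • vec s (f i) : HH) : ℝ → ℂ) y = h i * vfun s (f i) y := by
      rw [ae_all_iff]
      intro i
      by_cases hi : i ∈ range n
      · filter_upwards [this i hi] with y hy _ using hy
      · exact Filter.Eventually.of_forall fun y hy => absurd hy hi
    filter_upwards [h2] with y hy
    rw [Finset.sum_apply]
    exact sum_congr rfl hy
  have h2 : ∀ᵐ y ∂(volume.restrict (Ioi (0 : ℝ))), ‖F y‖ ^ 2 =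
      wt s y * ‖∑ i ∈ range n, h i * (f i y : ℂ)‖ ^ 2 := by
    filter_upwards [h1, ae_restrict_mem measurableSet_Ioi] with y hy hy0
    rw [hy]
    have : ∑ i ∈ range n, h i * vfun s (f i) y =
        (√(wt s y) : ℂ) * ∑ i ∈ range n, h i * (f i y : ℂ) := by
      rw [mul_sum]
      refine sum_congr rfl fun i _ => ?_
      simp only [vfun]
      push_cast
      ring
    rw [this, norm_mul, mul_pow, Complex.norm_real, Real.norm_eq_abs, sq_abs,
      Real.sq_sqrt (wt_pos hy0).le]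
  have h3 : Integrable (fun y => ‖F y‖ ^ 2) (volume.restrict (Ioi (0 : ℝ))) :=
    (memLp_two_iff_integrable_sq_norm (Lp.memLp F).1).1 (Lp.memLp F)
  constructor
  · exact h3.congr h2
  · have h4 : ((‖F‖ ^ 2 : ℝ) : ℂ) = ((∫ y in Ioi (0 : ℝ), ‖F y‖ ^ 2 : ℝ) : ℂ) := by
      have := inner_self_eq_norm_sq_to_K (𝕜 := ℂ) F
      rw [L2.inner_def] at this
      rw [← integral_complex_ofReal]
      push_cast
      rw [show ((‖F‖ : ℝ) : ℂ) ^ 2 = (RCLike.ofReal ‖F‖ : ℂ) ^ 2 from rfl, ← this]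
      apply integral_congr_ae
      refine Filter.Eventually.of_forall fun y => ?_
      simp only
      rw [inner_self_eq_norm_sq_to_K]
      norm_cast
    rw [Complex.ofReal_inj.1 h4]
    exact integral_congr_ae h2

theorem hasSum_inner_vec {s : ℝ} {f : ℝ → ℝ} {g : ℕ → ℝ → ℝ} (hf : Good s f)
    (hg : ∀ j, Good s (g j)) (hsum : Summable fun j => ‖vec s (g j)‖)
    (hpt : ∀ y, 0 < y → HasSum (fun j => g j y) (f y)) (Φ : HH) :
    HasSum (fun j => ⟪vec s (g j), Φ⟫_ℂ) ⟪vec s f, Φ⟫_ℂ := by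
  have hint : ∀ j, Integrable (fun y => vfun s (g j) y * Φ y) (volume.restrict (Ioi (0 : ℝ))) :=
    fun j => (hg j).memLp.integrable_mul (Lp.memLp Φ)
  have hnorm : ∀ j, ∫ y in Ioi (0 : ℝ), ‖vfun s (g j) y * Φ y‖ ≤ ‖vec s (g j)‖ * ‖Φ‖ := by
    intro j
    have h1 := integral_mul_norm_le_Lp_mul_Lq (μ := volume.restrict (Ioi (0 : ℝ)))
      (f := vfun s (g j)) (g := Φ) Real.HolderConjugate.two_two
      (by simpa using (hg j).memLp) (by simpa using Lp.memLp Φ)
    simp only [norm_mul]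
    refine h1.trans (le_of_eq ?_)
    have e1 : (∫ y in Ioi (0 : ℝ), ‖vfun s (g j) y‖ ^ (2 : ℝ)) = ‖vec s (g j)‖ ^ 2 := by
      have := inner_self_eq_norm_sq_to_K (𝕜 := ℂ) (vec s (g j))
      rw [inner_vec_vec (hg j) (hg j)] at this
      have h2 : (∫ y in Ioi (0 : ℝ), wt s y * (g j y * g j y)) = ‖vec s (g j)‖ ^ 2 := by
        apply Complex.ofReal_injective
        rw [this]
        push_cast
        rfl
      rw [← h2]
      apply integral_congr_ae
      filter_upwards [ae_restrict_mem measurableSet_Ioi] with y hy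
      rw [rpow_two, norm_vfun_sq hy]; ring
    have e2 : (∫ y in Ioi (0 : ℝ), ‖Φ y‖ ^ (2 : ℝ)) = ‖Φ‖ ^ 2 := by
      have h4 : ((‖Φ‖ ^ 2 : ℝ) : ℂ) = ((∫ y in Ioi (0 : ℝ), ‖Φ y‖ ^ 2 : ℝ) : ℂ) := by
        have := inner_self_eq_norm_sq_to_K (𝕜 := ℂ) Φ
        rw [L2.inner_def] at this
        rw [← integral_complex_ofReal]
        push_cast
        rw [show ((‖Φ‖ : ℝ) : ℂ) ^ 2 = (RCLike.ofReal ‖Φ‖ : ℂ) ^ 2 from rfl, ← this]
        apply integral_congr_ae
        refine Filter.Eventually.of_forall fun y => ?_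
        simp only
        rw [inner_self_eq_norm_sq_to_K]
        norm_cast
      rw [Complex.ofReal_inj.1 h4]
      simp only [rpow_two]
    rw [e1, e2, ← Real.sqrt_eq_rpow, ← Real.sqrt_eq_rpow, Real.sqrt_sq (norm_nonneg _),
      Real.sqrt_sq (norm_nonneg _)]
  have hs : Summable fun j => ∫ y in Ioi (0 : ℝ), ‖vfun s (g j) y * Φ y‖ :=
    Summable.of_nonneg_of_le (fun j => integral_nonneg fun y => norm_nonneg _) hnorm
      (hsum.mul_right ‖Φ‖)
  have h1 := hasSum_integral_of_summable_integral_norm hint hs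
  rw [inner_vec hf]
  have h2 : (∫ y in Ioi (0 : ℝ), ∑' j, vfun s (g j) y * Φ y) =
      ∫ y in Ioi (0 : ℝ), vfun s f y * Φ y := by
    apply integral_congr_ae
    filter_upwards [ae_restrict_mem measurableSet_Ioi] with y hy
    have h3 : HasSum (fun j => vfun s (g j) y * Φ y) (vfun s f y * Φ y) := by
      apply HasSum.mul_right
      unfold vfun
      exact Complex.hasSum_ofReal.2 ((hpt y hy).mul_left _)
    exact h3.tsum_eq
  rw [h2] at h1
  refine h1.congr_fun fun j => ?_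
  rw [inner_vec (hg j)]

end Pool.Agent.Helper32.RM
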