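import Mathlib
import Pool.Agent.Helper32.Space

open Finset Real MeasureTheory Set
open scoped Nat InnerProductSpace

namespace Pool.Agent.Helper32.RM

theorem two_sub_mul_exp_le {y : ℝ} (hy : 0 ≤ y) : (2 - y) * exp y ≤ 2 + y := by
  have hmono : MonotoneOn (fun y : ℝ => 2 + y - (2 - y) * exp y) (Set.Ici 0) := by
    apply monotoneOn_of_deriv_nonneg (convex_Ici 0)
    · fun_prop
    · fun_prop
    · intro x hx
      have hd : HasDerivAt (fun y : ℝ => 2 + y - (2 - y) * exp y) (1 - (1 - x) * exp x) x := by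
        have h1 : HasDerivAt (fun y : ℝ => (2 - y) * exp y) ((-1) * exp x + (2 - x) * exp x) x :=
          ((hasDerivAt_id x).const_sub 2).mul (Real.hasDerivAt_exp x)
        have h2 : HasDerivAt (fun y : ℝ => 2 + y) 1 x := (hasDerivAt_id x).const_add 2
        exact (h2.sub h1).congr_deriv (by ring)
      rw [hd.deriv]
      have h3 : 1 - x ≤ exp (-x) := by have := add_one_le_exp (-x); linarith
      have h4 : (1 - x) * exp x ≤ exp (-x) * exp x := mul_le_mul_of_nonneg_right h3 (exp_pos x).le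
      rw [← exp_add, neg_add_cancel, exp_zero] at h4
      linarith
  have := hmono (Set.mem_Ici.2 (le_refl (0 : ℝ))) (show y ∈ Set.Ici (0 : ℝ) from hy) hy
  simp at this
  linarith

theorem wt_upper {s y : ℝ} (hy : 0 < y) :
    wt s y ≤ (y ^ (s - 1) + y ^ (s - 1 - 1)) * exp (-y) := by
  have h1 : y ^ (s - 1 - 1) = y ^ (s - 1) / y := by rw [rpow_sub_one hy.ne']
  have h2 : 0 < y ^ (s - 1) := rpow_pos_of_pos hy _
  have h3 : 0 < exp y - 1 := by have := add_one_lt_exp hy.ne'; linarith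
  have h4 := add_one_le_exp y
  rw [h1, wt, exp_neg, div_le_iff₀ h3]
  have h5 : (y ^ (s - 1) + y ^ (s - 1) / y) * (exp y)⁻¹ * (exp y - 1) =
      y ^ (s - 1) * ((y + 1) * (exp y - 1) / (y * exp y)) := by
    field_simp
  rw [h5]
  have h6 : 1 ≤ (y + 1) * (exp y - 1) / (y * exp y) := by
    rw [le_div_iff₀ (by positivity)]
    nlinarith
  nlinarith

theorem wt_lower {s y : ℝ} (hy : 0 < y) :
    (y ^ (s - 1) / 2 + y ^ (s - 1 - 1)) * exp (-y) ≤ wt s y := by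
  have h1 : y ^ (s - 1 - 1) = y ^ (s - 1) / y := by rw [rpow_sub_one hy.ne']
  have h2 : 0 < y ^ (s - 1) := rpow_pos_of_pos hy _
  have h3 : 0 < exp y - 1 := by have := add_one_lt_exp hy.ne'; linarith
  have h4 := two_sub_mul_exp_le hy.le
  rw [h1, wt, exp_neg, le_div_iff₀ h3]
  have h5 : (y ^ (s - 1) / 2 + y ^ (s - 1) / y) * (exp y)⁻¹ * (exp y - 1) =
      y ^ (s - 1) * ((y + 2) * (exp y - 1) / (2 * y * exp y)) := by
    field_simp
  rw [h5]
  have h6 : (y + 2) * (exp y - 1) / (2 * y * exp y) ≤ 1 := by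
    rw [div_le_one (by positivity)]
    nlinarith
  nlinarith

/-- The scaled and damped Laguerre functions. -/
noncomputable def ell (κ s : ℝ) (i : ℕ) (y : ℝ) : ℝ := lag s i (κ * y) * exp (-((κ - 1) / 2 * y))

theorem measurable_lag (s : ℝ) (i : ℕ) : Measurable (lag s i) := by
  unfold lag
  fun_prop

theorem measurable_ell (κ s : ℝ) (i : ℕ) : Measurable (ell κ s i) := by
  unfold ell
  have := measurable_lag s i
  fun_prop

theorem sum_ell (κ s : ℝ) (n : ℕ) (h : ℕ → ℂ) (y : ℝ) :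
    ‖∑ i ∈ range n, h i * (ell κ s i y : ℂ)‖ ^ 2 =
      exp (-((κ - 1) * y)) * ‖∑ i ∈ range n, h i * (lag s i (κ * y) : ℂ)‖ ^ 2 := by
  have h1 : ∑ i ∈ range n, h i * (ell κ s i y : ℂ) =
      ((exp (-((κ - 1) / 2 * y)) : ℝ) : ℂ) * ∑ i ∈ range n, h i * (lag s i (κ * y) : ℂ) := by
    rw [mul_sum]
    refine sum_congr rfl fun i _ => ?_
    simp only [ell]
    push_cast
    ring
  rw [h1, norm_mul, mul_pow, Complex.norm_real, Real.norm_eq_abs, sq_abs, ← exp_nat_mul]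
  congr 2
  push_cast
  ring

/-- The comparison of integrands. -/
theorem integrand_bounds {κ s y : ℝ} (hy : 0 < y) (n : ℕ) (h : ℕ → ℂ) :
    (1 / 2 * (y ^ (s - 1) * exp (-(κ * y)) * ‖∑ i ∈ range n, h i * (lag s i (κ * y) : ℂ)‖ ^ 2) +
      y ^ (s - 1 - 1) * exp (-(κ * y)) * ‖∑ i ∈ range n, h i * (lag s i (κ * y) : ℂ)‖ ^ 2 ≤
    wt s y * ‖∑ i ∈ range n, h i * (ell κ s i y : ℂ)‖ ^ 2) ∧
    (wt s y * ‖∑ i ∈ range n, h i * (ell κ s i y : ℂ)‖ ^ 2 ≤
    y ^ (s - 1) * exp (-(κ * y)) * ‖∑ i ∈ range n, h i * (lag s i (κ * y) : ℂ)‖ ^ 2 +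
      y ^ (s - 1 - 1) * exp (-(κ * y)) * ‖∑ i ∈ range n, h i * (lag s i (κ * y) : ℂ)‖ ^ 2) := by
  rw [sum_ell]
  set N : ℝ := ‖∑ i ∈ range n, h i * (lag s i (κ * y) : ℂ)‖ ^ 2 with hN
  have hN0 : 0 ≤ N := by positivity
  have he : exp (-(κ * y)) = exp (-y) * exp (-((κ - 1) * y)) := by
    rw [← exp_add]; congr 1; ring
  have hp : 0 ≤ exp (-((κ - 1) * y)) * N := by positivity
  have h1 := mul_le_mul_of_nonneg_right (wt_lower (s := s) hy) hp
  have h2 := mul_le_mul_of_nonneg_right (wt_upper (s := s) hy) hp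
  rw [he]
  constructor
  · linarith
  · linarith

variable {s κ : ℝ}

theorem int_s (hs : 1 < s) (hκ : 0 < κ) (n : ℕ) (h : ℕ → ℂ) :
    IntegrableOn (fun y : ℝ => y ^ (s - 1) * exp (-(κ * y)) *
      ‖∑ i ∈ range n, h i * (lag s i (κ * y) : ℂ)‖ ^ 2) (Ioi 0) ∧
    ∫ y in Ioi (0 : ℝ), y ^ (s - 1) * exp (-(κ * y)) *
      ‖∑ i ∈ range n, h i * (lag s i (κ * y) : ℂ)‖ ^ 2 =
      κ ^ (-s) * ∑ i ∈ range n, CC s i * ‖h i‖ ^ 2 := by
  have h1 := integral_gram (show 0 < s by linarith) n h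
  have h2 := scale_integral (a := s) hκ
    (fun y => ‖∑ i ∈ range n, h i * (lag s i y : ℂ)‖ ^ 2) h1.1
  exact ⟨h2.1, by rw [h2.2, h1.2]⟩

theorem int_s1 (hs : 1 < s) (hκ : 0 < κ) (n : ℕ) (h : ℕ → ℂ) :
    IntegrableOn (fun y : ℝ => y ^ (s - 1 - 1) * exp (-(κ * y)) *
      ‖∑ i ∈ range n, h i * (lag s i (κ * y) : ℂ)‖ ^ 2) (Ioi 0) ∧
    ∫ y in Ioi (0 : ℝ), y ^ (s - 1 - 1) * exp (-(κ * y)) *
      ‖∑ i ∈ range n, h i * (lag s i (κ * y) : ℂ)‖ ^ 2 =
      κ ^ (-(s - 1)) * ∑ k ∈ range n, CC (s - 1) k * ‖∑ i ∈ Ico k n, h i‖ ^ 2 := by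
  have h1 := integral_gram' (show 0 < s - 1 by linarith) n h
  rw [sub_add_cancel] at h1
  have h2 := scale_integral (a := s - 1) hκ
    (fun y => ‖∑ i ∈ range n, h i * (lag s i y : ℂ)‖ ^ 2) h1.1
  exact ⟨h2.1, by rw [h2.2, h1.2]⟩

theorem good_ell (hs : 1 < s) (hκ : 0 < κ) (i : ℕ) : Good s (ell κ s i) := by
  classical
  refine ⟨measurable_ell κ s i, ?_⟩
  have h1 := (int_s hs hκ (i + 1) (Pi.single i 1)).1.add (int_s1 hs hκ (i + 1) (Pi.single i 1)).1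
  refine Integrable.mono' h1 ?_ ?_
  · have := measurable_ell κ s i
    have := measurable_wt s
    exact (by fun_prop : Measurable fun y => wt s y * ell κ s i y ^ 2).aestronglyMeasurable
  · filter_upwards [ae_restrict_mem measurableSet_Ioi] with y hy
    have h2 := (integrand_bounds (κ := κ) (s := s) hy (i + 1) (Pi.single i 1)).2
    have h3 : ‖∑ j ∈ range (i + 1), (Pi.single i (1 : ℂ) : ℕ → ℂ) j * (ell κ s j y : ℂ)‖ ^ 2 =
        ell κ s i y ^ 2 := by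
      rw [sum_eq_single i]
      · rw [Pi.single_eq_same, one_mul, Complex.norm_real, Real.norm_eq_abs, sq_abs]
      · intro j _ hj
        rw [Pi.single_eq_of_ne hj, zero_mul]
      · intro hi
        exact absurd (Finset.mem_range.2 (Nat.lt_succ_self i)) hi
    rw [h3] at h2
    rw [Real.norm_of_nonneg (mul_nonneg (wt_pos hy).le (sq_nonneg _))]
    exact h2

/-- Two-sided bounds for the norm of a combination. -/
theorem norm_bounds (hs : 1 < s) (hκ : 0 < κ) (n : ℕ) (h : ℕ → ℂ) :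
    1 / 2 * (κ ^ (-s) * ∑ i ∈ range n, CC s i * ‖h i‖ ^ 2) +
      κ ^ (-(s - 1)) * ∑ k ∈ range n, CC (s - 1) k * ‖∑ i ∈ Ico k n, h i‖ ^ 2 ≤
      ‖∑ i ∈ range n, h i • vec s (ell κ s i)‖ ^ 2 ∧
    ‖∑ i ∈ range n, h i • vec s (ell κ s i)‖ ^ 2 ≤
      κ ^ (-s) * ∑ i ∈ range n, CC s i * ‖h i‖ ^ 2 +
      κ ^ (-(s - 1)) * ∑ k ∈ range n, CC (s - 1) k * ‖∑ i ∈ Ico k n, h i‖ ^ 2 := by
  have hN := norm_sum_vec n h (ell κ s) (good_ell hs hκ)
  have h1 := int_s hs hκ n h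
  have h2 := int_s1 hs hκ n h
  rw [hN.2, ← h1.2, ← h2.2]
  constructor
  · rw [← integral_const_mul, ← integral_add (h1.1.const_mul _) h2.1]
    apply setIntegral_mono_on ((h1.1.const_mul _).add h2.1) hN.1 measurableSet_Ioi
    intro y hy
    exact (integrand_bounds hy n h).1
  · rw [← integral_add h1.1 h2.1]
    apply setIntegral_mono_on hN.1 (h1.1.add h2.1) measurableSet_Ioi
    intro y hy
    exact (integrand_bounds hy n h).2

end Pool.Agent.Helper32.RM
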