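import Mathlib
import Pool.Agent.Helper32.Laguerre

open Finset Real MeasureTheory Set
open scoped Nat

namespace Pool.Agent.Helper32.RM

theorem ringChoose_eq {a : ℝ} (ha : 0 < a) (n : ℕ) :
    Ring.choose (a + n - 1) n = Gamma (a + n) / (Gamma a * n !) := by
  have h1 : Ring.choose (a + n - 1) n = Ring.multichoose a n := by
    rw [Ring.choose]
    congr 1
    ring
  have h2 := Ring.factorial_nsmul_multichoose_eq_ascPochhammer a n
  rw [Gamma_add_nat_eq a ha n, h1]
  have h3 : (ascPochhammer ℕ n).smeval a = (ascPochhammer ℝ n).eval a := by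
    rw [Polynomial.ascPochhammer_smeval_eq_eval]
  rw [h3, nsmul_eq_mul] at h2
  rw [← h2]
  have hG : Gamma a ≠ 0 := (Gamma_pos_of_pos ha).ne'
  have hn : (n ! : ℝ) ≠ 0 := by positivity
  field_simp

theorem hasSum_binom {a p : ℝ} (ha : 0 < a) (hp : |p| < 1) :
    HasSum (fun m : ℕ => Gamma (a + m) / (Gamma a * m !) * p ^ m) ((1 - p) ^ (-a)) := by
  have h := (Real.one_div_one_sub_rpow_hasFPowerSeriesOnBall_zero a).hasSum (y := p)
    (by simpa [enorm_eq_nnnorm, ← NNReal.coe_lt_one] using hp)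
  rw [zero_add] at h
  have h2 : (1 - p) ^ (-a) = 1 / (1 - p) ^ a := by
    rw [rpow_neg, one_div]
    have := abs_lt.1 hp; linarith
  rw [h2]
  refine h.congr_fun ?_
  intro m
  rw [FormalMultilinearSeries.ofScalars_apply_eq, smul_eq_mul, ringChoose_eq ha]

/-- Generating function of the Laguerre polynomials. -/
theorem hasSum_lag {a p : ℝ} (ha : 0 < a) (hp : |p| < 1) (y : ℝ) :
    HasSum (fun i : ℕ => lag a i y * p ^ i) ((1 - p) ^ (-a) * exp (-(y * (p / (1 - p))))) := by
  set f : ℕ × ℕ → ℝ := fun q => ((-y * p) ^ q.1 / q.1 !) *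
    (Gamma (a + q.1 + q.2) / (Gamma (a + q.1) * q.2 !) * p ^ q.2) with hf
  have hp1 : 0 < 1 - p := by have := abs_lt.1 hp; linarith
  have hp2 : 0 < 1 - |p| := by linarith
  have hpabs : |(|p|)| < 1 := by rwa [abs_abs]
  -- absolute summability
  have habs : ∀ k m : ℕ, ‖f (k, m)‖ = ((|y| * |p|) ^ k / k !) *
      (Gamma (a + k + m) / (Gamma (a + k) * m !) * |p| ^ m) := by
    intro k m
    have hG1 : 0 < Gamma (a + k + m) := Gamma_pos_of_pos (by positivity)
    have hG2 : 0 < Gamma (a + k) := Gamma_pos_of_pos (by positivity)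
    simp only [hf, norm_mul, norm_div, norm_pow, Real.norm_eq_abs, abs_neg,
      abs_of_pos hG1, abs_of_pos hG2, Nat.abs_cast]
  have hrow : ∀ k : ℕ, HasSum (fun m : ℕ => ‖f (k, m)‖)
      (((|y| * |p|) ^ k / k !) * (1 - |p|) ^ (-(a + k))) := by
    intro k
    have := (hasSum_binom (a := a + k) (p := |p|) (by positivity) hpabs).mul_left
      ((|y| * |p|) ^ k / k !)
    refine this.congr_fun ?_
    intro m
    exact habs k m
  have hsum : Summable f := by
    apply Summable.of_norm
    rw [summable_prod_of_nonneg (fun _ => norm_nonneg _)]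
    refine ⟨fun k => (hrow k).summable, ?_⟩
    have h1 : (fun k : ℕ => ∑' m : ℕ, ‖f (k, m)‖) = fun k : ℕ =>
        (1 - |p|) ^ (-a) * ((|y| * |p| / (1 - |p|)) ^ k / k !) := by
      funext k
      rw [(hrow k).tsum_eq, neg_add, rpow_add hp2, rpow_neg hp2.le (k : ℝ), rpow_natCast, div_pow]
      field_simp
    rw [h1]
    exact (Real.summable_pow_div_factorial _).mul_left _
  have hrow' : ∀ k : ℕ, HasSum (fun m : ℕ => f (k, m))
      (((-y * p) ^ k / k !) * (1 - p) ^ (-(a + k))) := by
    intro k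
    have := (hasSum_binom (a := a + k) (p := p) (by positivity) hp).mul_left
      ((-y * p) ^ k / k !)
    exact this
  have htot : HasSum f ((1 - p) ^ (-a) * exp (-(y * (p / (1 - p))))) := by
    have h1 := hsum.hasSum.prod_fiberwise hrow'
    have h2 : HasSum (fun k : ℕ => ((-y * p) ^ k / k !) * (1 - p) ^ (-(a + k)))
        ((1 - p) ^ (-a) * exp (-(y * (p / (1 - p))))) := by
      have h3 : HasSum (fun k : ℕ => (-(y * (p / (1 - p)))) ^ k / k !) (exp (-(y * (p / (1 - p))))) := by
        rw [Real.exp_eq_exp_ℝ]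
        exact NormedSpace.expSeries_div_hasSum_exp _
      refine (h3.mul_left ((1 - p) ^ (-a))).congr_fun ?_
      intro k
      rw [neg_add, rpow_add hp1, rpow_neg hp1.le (k : ℝ), rpow_natCast]
      rw [show -(y * (p / (1 - p))) = (-y * p) / (1 - p) by ring, div_pow]
      field_simp
    rw [← h1.unique h2]
    exact hsum.hasSum
  have hanti := (Finset.HasAntidiagonal.sigmaAntidiagonalEquivProd (A := ℕ)).hasSum_iff.2 htot
  have h4 := hanti.sigma (g := fun i => lag a i y * p ^ i) ?_
  · exact h4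
  · intro i
    have h5 : lag a i y * p ^ i = ∑ q ∈ antidiagonal i, f q := by
      rw [Finset.Nat.sum_antidiagonal_eq_sum_range_succ_mk, lag, sum_mul]
      refine sum_congr rfl fun k hk => ?_
      have hk' : k ≤ i := Nat.lt_succ_iff.1 (Finset.mem_range.1 hk)
      simp only [hf, lagCoeff]
      have e1 : a + (k : ℝ) + ((i - k : ℕ) : ℝ) = a + i := by
        rw [Nat.cast_sub hk']; ring
      rw [e1]
      have e2 : p ^ i = p ^ k * p ^ (i - k) := by rw [← pow_add]; congr 1; omega
      rw [e2, show (-y * p) = (-1) * y * p by ring, mul_pow, mul_pow]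
      have hG2 : Gamma (a + k) ≠ 0 := (Gamma_pos_of_pos (by positivity)).ne'
      have h7 : ((i - k)! : ℝ) ≠ 0 := by positivity
      have h8 : (k ! : ℝ) ≠ 0 := by positivity
      field_simp
    rw [h5, ← Finset.sum_coe_sort]
    exact hasSum_fintype _

end Pool.Agent.Helper32.RM
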