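import Mathlib
import Pool.Agent.Helper32.Ell
import Pool.Agent.Helper32.Interlace

open Finset Real MeasureTheory Set
open scoped Nat InnerProductSpace

namespace Pool.Agent.Helper32.RM

/-- The number `(√5-1)/2`. -/
noncomputable def gg : ℝ := (√5 - 1) / 2

theorem sqrt5_eq : √5 = 2 * gg + 1 := by unfold gg; ring

theorem gg_sq : gg ^ 2 = 1 - gg := by
  unfold gg
  have : √5 ^ 2 = 5 := Real.sq_sqrt (by norm_num)
  nlinarith

theorem gg_pos : 0 < gg := by
  unfold gg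
  have : 1 < √5 := by rw [Real.lt_sqrt] <;> norm_num
  linarith

theorem gg_lt_one : gg < 1 := by
  unfold gg
  have : √5 < 3 := by rw [Real.sqrt_lt'] <;> norm_num
  linarith

theorem two_gg_sq_lt_one : 2 * gg ^ 2 < 1 := by
  rw [gg_sq]
  unfold gg
  have : 2 < √5 := by rw [Real.lt_sqrt] <;> norm_num
  linarith

theorem one_lt_sqrt5 : 1 < √5 := by rw [Real.lt_sqrt] <;> norm_num

/-- Normalising amplitudes. -/
noncomputable def ampl (s : ℝ) (i : ℕ) : ℝ := √((gg * √5) ^ s) * gg ^ i / √(CC s i)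

theorem ampl_pos {s : ℝ} (hs : 1 < s) (i : ℕ) : 0 < ampl s i := by
  unfold ampl
  have h1 : 0 < gg * √5 := mul_pos gg_pos (by positivity)
  have h2 : 0 < CC s i := CC_pos (by linarith) i
  have h3 := gg_pos
  positivity

theorem ampl_sq {s : ℝ} (hs : 1 < s) (i : ℕ) :
    CC s i * ampl s i ^ 2 = (gg * √5) ^ s * gg ^ (2 * i) := by
  unfold ampl
  have h1 : 0 < (gg * √5) ^ s := rpow_pos_of_pos (mul_pos gg_pos (by positivity)) _
  have h2 : 0 < CC s i := CC_pos (by linarith) i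
  rw [div_pow, mul_pow, Real.sq_sqrt h1.le, Real.sq_sqrt h2.le, ← pow_mul, mul_comm i 2]
  field_simp

theorem ampl_succ {s : ℝ} (hs : 1 < s) (i : ℕ) :
    ampl s (i + 1) = gg * √((i + 1) / (s - 1 + 1 + i)) * ampl s i := by
  unfold ampl
  have h1 := CC_succ (show 0 < s by linarith) i
  have h2 : 0 < CC s i := CC_pos (by linarith) i
  have h3 : 0 < CC s (i + 1) := CC_pos (by linarith) (i + 1)
  have hsi : 0 < s + i := by positivity
  have h4 : √(CC s (i + 1)) * √((i + 1) / (s - 1 + 1 + i)) = √(CC s i) := by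
    rw [← Real.sqrt_mul h3.le]
    congr 1
    rw [sub_add_cancel, mul_div_assoc', h1]
    field_simp
  have h5 : √(CC s (i + 1)) ≠ 0 := (Real.sqrt_pos.2 h3).ne'
  have h6 : √(CC s i) ≠ 0 := (Real.sqrt_pos.2 h2).ne'
  rw [pow_succ]
  rw [← h4]
  have h7 : √(((i : ℝ) + 1) / (s - 1 + 1 + i)) ≠ 0 := by
    apply (Real.sqrt_pos.2 _).ne'
    rw [sub_add_cancel]; positivity
  field_simp

/-- The vectors `φ i`. -/
noncomputable def phi (s : ℝ) (i : ℕ) : HH := (ampl s i : ℂ) • vec s (ell (√5) s i)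

theorem sum_phi (s : ℝ) (n : ℕ) (h : ℕ → ℂ) :
    ∑ i ∈ range n, h i • phi s i = ∑ i ∈ range n, (h i * ampl s i) • vec s (ell (√5) s i) := by
  refine sum_congr rfl fun i _ => ?_
  rw [phi, smul_smul]

theorem sum_phi_succ (s : ℝ) (n : ℕ) (h : ℕ → ℂ) :
    ∑ i ∈ range n, h i • phi s (i + 1) = ∑ j ∈ range (n + 1),
      (if j = 0 then 0 else h (j - 1) * ampl s j) • vec s (ell (√5) s j) := by
  rw [sum_range_succ']
  simp only [if_true, zero_smul, add_zero, Nat.add_eq_zero_iff, one_ne_zero, and_false,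
    if_false, Nat.add_sub_cancel]
  refine sum_congr rfl fun i _ => ?_
  rw [phi, smul_smul]

theorem phi_norm_bound {s : ℝ} (hs : 1 < s) (i : ℕ) :
    ‖phi s i‖ ^ 2 ≤ ((gg * √5) ^ s * (√5 ^ (-s) + √5 ^ (-(s - 1)) / (s - 1))) * (gg ^ 2) ^ i := by
  classical
  have h1 := (norm_bounds hs (show 0 < √5 by positivity) (i + 1)
    (Pi.single i (ampl s i : ℂ))).2
  have e1 : ∑ j ∈ range (i + 1), (Pi.single i (ampl s i : ℂ) : ℕ → ℂ) j • vec s (ell (√5) s j) =
      phi s i := by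
    rw [sum_eq_single i]
    · rw [Pi.single_eq_same]; rfl
    · intro j _ hj
      rw [Pi.single_eq_of_ne hj, zero_smul]
    · intro hi
      exact absurd (Finset.mem_range.2 (Nat.lt_succ_self i)) hi
  have e2 : ∑ j ∈ range (i + 1), CC s j * ‖(Pi.single i (ampl s i : ℂ) : ℕ → ℂ) j‖ ^ 2 =
      CC s i * ampl s i ^ 2 := by
    rw [sum_eq_single i]
    · rw [Pi.single_eq_same, Complex.norm_real, Real.norm_eq_abs, sq_abs]
    · intro j _ hj
      rw [Pi.single_eq_of_ne hj]; simp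
    · intro hi
      exact absurd (Finset.mem_range.2 (Nat.lt_succ_self i)) hi
  have e3 : ∑ k ∈ range (i + 1), CC (s - 1) k *
      ‖∑ j ∈ Ico k (i + 1), (Pi.single i (ampl s i : ℂ) : ℕ → ℂ) j‖ ^ 2 =
      (∑ k ∈ range (i + 1), CC (s - 1) k) * ampl s i ^ 2 := by
    rw [sum_mul]
    refine sum_congr rfl fun k hk => ?_
    rw [sum_eq_single i]
    · rw [Pi.single_eq_same, Complex.norm_real, Real.norm_eq_abs, sq_abs]
    · intro j _ hj
      rw [Pi.single_eq_of_ne hj]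
    · intro hi
      exfalso; apply hi
      rw [Finset.mem_Ico]
      have := Finset.mem_range.1 hk
      omega
  have e4 : ∑ k ∈ range (i + 1), CC (s - 1) k = CC s i / (s - 1) := by
    have := sum_CC (show 0 < s - 1 by linarith) i
    rw [sub_add_cancel] at this
    rw [← this]
    have : s - 1 ≠ 0 := by linarith
    field_simp
  rw [e1, e2, e3, e4] at h1
  refine h1.trans (le_of_eq ?_)
  have h2 := ampl_sq hs i
  have h3 : s - 1 ≠ 0 := by linarith
  rw [← pow_mul]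
  calc √5 ^ (-s) * (CC s i * ampl s i ^ 2) + √5 ^ (-(s - 1)) * (CC s i / (s - 1) * ampl s i ^ 2)
      = (√5 ^ (-s) + √5 ^ (-(s - 1)) / (s - 1)) * (CC s i * ampl s i ^ 2) := by
        field_simp
    _ = _ := by rw [h2]; ring

theorem phi_shift_bound {s : ℝ} (hs : 1 < s) (n : ℕ) (h : ℕ → ℂ) :
    ‖∑ i ∈ range n, h i • phi s (i + 1)‖ ^ 2 ≤ 2 * gg ^ 2 * ‖∑ i ∈ range n, h i • phi s i‖ ^ 2 := by
  have hκ : 0 < √5 := by positivity
  rw [sum_phi, sum_phi_succ]
  set X : ℕ → ℂ := fun i => h i * ampl s i with hX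
  set Y : ℕ → ℂ := fun j => if j = 0 then 0 else h (j - 1) * ampl s j with hY
  have hup := (norm_bounds hs hκ (n + 1) Y).2
  have hlow := (norm_bounds hs hκ n X).1
  have hYs : ∀ j, Y (j + 1) = (gg : ℂ) * ((√((j + 1) / (s - 1 + 1 + j)) : ℂ) * X j) := by
    intro j
    simp only [hY, hX, Nat.add_eq_zero_iff, one_ne_zero, and_false, if_false, Nat.add_sub_cancel]
    rw [ampl_succ hs]
    push_cast
    ring
  have e1 : ∑ i ∈ range (n + 1), CC s i * ‖Y i‖ ^ 2 =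
      gg ^ 2 * ∑ i ∈ range n, CC s i * ‖X i‖ ^ 2 := by
    rw [sum_range_succ', mul_sum]
    have : Y 0 = 0 := by simp [hY]
    rw [this, norm_zero, zero_pow two_ne_zero, mul_zero, add_zero]
    refine sum_congr rfl fun i _ => ?_
    have h1 : ‖Y (i + 1)‖ ^ 2 = ‖h i‖ ^ 2 * ampl s (i + 1) ^ 2 := by
      simp only [hY, Nat.add_eq_zero_iff, one_ne_zero, and_false, if_false, Nat.add_sub_cancel]
      rw [norm_mul, mul_pow, Complex.norm_real, Real.norm_eq_abs, sq_abs]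
    have h2 : ‖X i‖ ^ 2 = ‖h i‖ ^ 2 * ampl s i ^ 2 := by
      simp only [hX]
      rw [norm_mul, mul_pow, Complex.norm_real, Real.norm_eq_abs, sq_abs]
    have h3 := ampl_sq hs (i + 1)
    have h4 := ampl_sq hs i
    rw [h1, h2]
    calc CC s (i + 1) * (‖h i‖ ^ 2 * ampl s (i + 1) ^ 2)
        = (CC s (i + 1) * ampl s (i + 1) ^ 2) * ‖h i‖ ^ 2 := by ring
      _ = gg ^ 2 * (CC s i * ampl s i ^ 2) * ‖h i‖ ^ 2 := by
          rw [h3, h4, mul_add, pow_add]; ring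
      _ = _ := by ring
  have hν : 0 < s - 1 := by linarith
  have hW := weighted_CC hν n X
  have e2 : ∑ k ∈ range (n + 1), CC (s - 1) k * ‖∑ i ∈ Ico k (n + 1), Y i‖ ^ 2 =
      gg ^ 2 * (CC (s - 1) 0 * ‖∑ i ∈ range n, (√((i + 1) / (s - 1 + 1 + i)) : ℂ) * X i‖ ^ 2 +
      ∑ k ∈ range n, CC (s - 1) (k + 1) *
        ‖∑ i ∈ Ico k n, (√((i + 1) / (s - 1 + 1 + i)) : ℂ) * X i‖ ^ 2) := by
    have hshift : ∀ k, ∑ i ∈ Ico (k + 1) (n + 1), Y i =
        (gg : ℂ) * ∑ i ∈ Ico k n, (√((i + 1) / (s - 1 + 1 + i)) : ℂ) * X i := by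
      intro k
      rw [mul_sum, ← sum_Ico_add' Y k n 1]
      exact sum_congr rfl fun i _ => hYs i
    have hnorm : ∀ z : ℂ, ‖(gg : ℂ) * z‖ ^ 2 = gg ^ 2 * ‖z‖ ^ 2 := by
      intro z
      rw [norm_mul, mul_pow, Complex.norm_real, Real.norm_eq_abs, sq_abs]
    rw [sum_range_succ']
    have h0 : ∑ i ∈ Ico 0 (n + 1), Y i =
        (gg : ℂ) * ∑ i ∈ range n, (√((i + 1) / (s - 1 + 1 + i)) : ℂ) * X i := by
      rw [sum_eq_sum_Ico_succ_bot (Nat.succ_pos n), hshift 0]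
      have : Y 0 = 0 := by simp [hY]
      rw [this, zero_add, Nat.Ico_zero_eq_range]
    rw [h0, hnorm]
    simp only [hshift, hnorm]
    rw [mul_add, mul_sum, add_comm]
    congr 1
    · ring
    · refine sum_congr rfl fun k _ => ?_
      ring
  rw [e1, e2] at hup
  have hg : 0 < gg ^ 2 := pow_pos gg_pos 2
  have hk1 : 0 < √5 ^ (-s) := rpow_pos_of_pos hκ _
  have hk2 : 0 < √5 ^ (-(s - 1)) := rpow_pos_of_pos hκ _
  have hS2 : 0 ≤ ∑ k ∈ range n, CC (s - 1) k * ‖∑ i ∈ Ico k n, X i‖ ^ 2 :=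
    sum_nonneg fun k _ => mul_nonneg (CC_pos hν k).le (by positivity)
  calc ‖∑ j ∈ range (n + 1), Y j • vec s (ell (√5) s j)‖ ^ 2 ≤ _ := hup
    _ ≤ gg ^ 2 * (√5 ^ (-s) * ∑ i ∈ range n, CC s i * ‖X i‖ ^ 2) +
        gg ^ 2 * (√5 ^ (-(s - 1)) * (25 / 16 * ∑ k ∈ range n, CC (s - 1) k *
          ‖∑ i ∈ Ico k n, X i‖ ^ 2)) := by
        have := mul_le_mul_of_nonneg_left hW (mul_pos hg hk2).le
        linarith
    _ ≤ 2 * gg ^ 2 * (1 / 2 * (√5 ^ (-s) * ∑ i ∈ range n, CC s i * ‖X i‖ ^ 2) +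
          √5 ^ (-(s - 1)) * ∑ k ∈ range n, CC (s - 1) k * ‖∑ i ∈ Ico k n, X i‖ ^ 2) := by
        have := mul_nonneg (mul_pos hg hk2).le hS2
        linarith
    _ ≤ 2 * gg ^ 2 * ‖∑ i ∈ range n, X i • vec s (ell (√5) s i)‖ ^ 2 :=
        mul_le_mul_of_nonneg_left hlow (by positivity)

theorem phi_lower {s : ℝ} (hs : 1 < s) (n i : ℕ) (hi : i < n) (h : ℕ → ℂ) :
    1 / 2 * (√5 ^ (-s) * ((gg * √5) ^ s * gg ^ (2 * i))) * ‖h i‖ ^ 2 ≤
      ‖∑ i ∈ range n, h i • phi s i‖ ^ 2 := by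
  have hκ : 0 < √5 := by positivity
  rw [sum_phi]
  have hlow := (norm_bounds hs hκ n (fun i => h i * ampl s i)).1
  have hν : 0 < s - 1 := by linarith
  have hS2 : 0 ≤ √5 ^ (-(s - 1)) * ∑ k ∈ range n, CC (s - 1) k *
      ‖∑ i ∈ Ico k n, h i * (ampl s i : ℂ)‖ ^ 2 :=
    mul_nonneg (rpow_pos_of_pos hκ _).le
      (sum_nonneg fun k _ => mul_nonneg (CC_pos hν k).le (by positivity))
  have h1 : CC s i * ‖h i * (ampl s i : ℂ)‖ ^ 2 ≤
      ∑ i ∈ range n, CC s i * ‖h i * (ampl s i : ℂ)‖ ^ 2 :=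
    single_le_sum (f := fun i => CC s i * ‖h i * (ampl s i : ℂ)‖ ^ 2)
      (fun j _ => mul_nonneg (CC_pos (by linarith) j).le (by positivity)) (Finset.mem_range.2 hi)
  have h2 : CC s i * ‖h i * (ampl s i : ℂ)‖ ^ 2 = ((gg * √5) ^ s * gg ^ (2 * i)) * ‖h i‖ ^ 2 := by
    rw [norm_mul, mul_pow, Complex.norm_real, Real.norm_eq_abs, sq_abs, ← ampl_sq hs i]; ring
  rw [h2] at h1
  have h3 := mul_le_mul_of_nonneg_left h1 (rpow_pos_of_pos hκ (-s)).le
  linarith

theorem linearCombination_eq {n : ℕ} (v : ℕ → HH) (h : ℕ →₀ ℂ) (hn : h.support ⊆ range n) :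
    Finsupp.linearCombination ℂ v h = ∑ i ∈ range n, h i • v i := by
  rw [Finsupp.linearCombination_apply, Finsupp.sum_of_support_subset (s := range n) _ hn _ (by simp)]

theorem exists_range (h : ℕ →₀ ℂ) : ∃ n, h.support ⊆ range n := by
  refine ⟨h.support.sup id + 1, fun i hi => ?_⟩
  rw [Finset.mem_range]
  have := Finset.le_sup (f := id) hi
  exact Nat.lt_succ_of_le this

theorem shiftData {s : ℝ} (hs : 1 < s) : ShiftData (phi s) (2 * gg ^ 2) where
  summable := by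
    have hg : 0 < gg := gg_pos
    have h1 : Summable fun i : ℕ => (gg ^ 2) ^ i :=
      summable_geometric_of_lt_one (by positivity) (by have := two_gg_sq_lt_one; nlinarith)
    exact Summable.of_nonneg_of_le (fun i => by positivity) (phi_norm_bound hs) (h1.mul_left _)
  nonneg := by positivity
  lt_one := two_gg_sq_lt_one
  contr := by
    intro h
    obtain ⟨n, hn⟩ := exists_range h
    rw [linearCombination_eq _ h hn, linearCombination_eq _ h hn]
    exact phi_shift_bound hs n h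
  lower := by
    intro i
    have hκ : 0 < √5 := by positivity
    have hg := gg_pos
    have hpos : 0 < 1 / 2 * (√5 ^ (-s) * ((gg * √5) ^ s * gg ^ (2 * i))) := by positivity
    refine ⟨√(1 / 2 * (√5 ^ (-s) * ((gg * √5) ^ s * gg ^ (2 * i)))), Real.sqrt_pos.2 hpos, ?_⟩
    intro h
    obtain ⟨n, hn⟩ := exists_range h
    have hn2 : h.support ⊆ range (max n (i + 1)) :=
      hn.trans (Finset.range_subset_range.2 (le_max_left _ _))
    rw [linearCombination_eq _ h hn2]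
    have h1 := phi_lower hs (max n (i + 1)) i (lt_of_lt_of_le (Nat.lt_succ_self i) (le_max_right _ _)) h
    apply le_of_sq_le_sq _ (norm_nonneg _)
    rw [mul_pow, Real.sq_sqrt hpos.le]
    exact h1

end Pool.Agent.Helper32.RM
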