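import Mathlib
import Pool.Agent.Helper32.Phi
import Pool.Agent.Helper32.GenFun

open Finset Real MeasureTheory Set
open scoped Nat InnerProductSpace

namespace Pool.Agent.Helper32.RM

theorem hasSum_wt {s b y : ℝ} (hy : 0 < y) (k : ℕ) :
    HasSum (fun n : ℕ => y ^ (s - 1) * exp (-((b + n + 1) * y)) * y ^ k)
      (wt s y * exp (-(b * y)) * y ^ k) := by
  have h1 : HasSum (fun n : ℕ => (exp (-y)) ^ n) (1 - exp (-y))⁻¹ :=
    hasSum_geometric_of_lt_one (exp_pos _).le (by rw [exp_lt_one_iff]; linarith)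
  have h2 := h1.mul_left (y ^ (s - 1) * exp (-(b * y)) * exp (-y) * y ^ k)
  have h3 : y ^ (s - 1) * exp (-(b * y)) * exp (-y) * y ^ k * (1 - exp (-y))⁻¹ =
      wt s y * exp (-(b * y)) * y ^ k := by
    unfold wt
    have h4 : exp (-y) < 1 := by rw [exp_lt_one_iff]; linarith
    have h5 : exp y - 1 ≠ 0 := by
      have := add_one_lt_exp hy.ne'
      intro h; linarith
    have h6 : (1 - exp (-y)) ≠ 0 := by intro h; linarith
    have h7 : exp (-y) * (exp y - 1) = 1 - exp (-y) := by
      rw [mul_sub, ← exp_add]; simp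
    field_simp
    linear_combination h7
  rw [h3] at h2
  refine h2.congr_fun ?_
  intro n
  rw [← exp_nat_mul]
  have : exp (-((b + n + 1) * y)) = exp (-(b * y)) * exp (-y) * exp (n * -y) := by
    rw [← exp_add, ← exp_add]; congr 1; ring
  rw [this]; ring

theorem moment {s b : ℝ} (hs : 1 < s) (hb : 0 ≤ b) (k : ℕ) :
    IntegrableOn (fun y : ℝ => wt s y * exp (-(b * y)) * y ^ k) (Ioi 0) ∧
    HasSum (fun n : ℕ => Gamma (s + k) * (1 / (b + n + 1)) ^ (s + k))
      (∫ y in Ioi (0 : ℝ), wt s y * exp (-(b * y)) * y ^ k) := by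
  have hint : ∀ n : ℕ, IntegrableOn (fun y : ℝ => y ^ (s - 1) * exp (-((b + n + 1) * y)) * y ^ k)
      (Ioi 0) := fun n => (integral_base (by linarith) (by positivity) k).1
  have hval : ∀ n : ℕ, ∫ y in Ioi (0 : ℝ), y ^ (s - 1) * exp (-((b + n + 1) * y)) * y ^ k =
      Gamma (s + k) * (1 / (b + n + 1)) ^ (s + k) := fun n =>
    (integral_base (by linarith) (by positivity) k).2
  have hnorm : ∀ n : ℕ, ∫ y in Ioi (0 : ℝ), ‖y ^ (s - 1) * exp (-((b + n + 1) * y)) * y ^ k‖ =
      Gamma (s + k) * (1 / (b + n + 1)) ^ (s + k) := by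
    intro n
    rw [← hval n]
    apply setIntegral_congr_fun measurableSet_Ioi
    intro y hy
    have hy' : (0 : ℝ) < y := hy
    simp only
    rw [Real.norm_of_nonneg (by positivity)]
  have hsum : Summable fun n : ℕ => Gamma (s + k) * (1 / (b + n + 1)) ^ (s + k) := by
    apply Summable.mul_left
    have h1 : Summable fun n : ℕ => 1 / ((n : ℝ) + 1) ^ s := by
      have := (summable_nat_add_iff 1).2 (Real.summable_one_div_nat_rpow.2 hs)
      simpa using this
    refine Summable.of_nonneg_of_le (fun n => by positivity) (fun n => ?_) h1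
    have hn : (1 : ℝ) ≤ (n : ℝ) + 1 := by
      have : (0 : ℝ) ≤ n := Nat.cast_nonneg n
      linarith
    rw [Real.div_rpow zero_le_one (by positivity), Real.one_rpow]
    apply one_div_le_one_div_of_le (by positivity)
    calc ((n : ℝ) + 1) ^ s ≤ ((n : ℝ) + 1) ^ (s + k) :=
          rpow_le_rpow_of_exponent_le hn (by have : (0 : ℝ) ≤ k := Nat.cast_nonneg k; linarith)
      _ ≤ (b + n + 1) ^ (s + k) := rpow_le_rpow (by positivity) (by linarith) (by positivity)
  have hs' : Summable fun n : ℕ => ∫ y in Ioi (0 : ℝ),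
      ‖y ^ (s - 1) * exp (-((b + n + 1) * y)) * y ^ k‖ := by
    simpa only [hnorm] using hsum
  have h1 := hasSum_integral_of_summable_integral_norm (μ := volume.restrict (Ioi (0 : ℝ)))
    (F := fun (n : ℕ) y => y ^ (s - 1) * exp (-((b + n + 1) * y)) * y ^ k) hint hs'
  have h2 : (∫ y in Ioi (0 : ℝ), ∑' n : ℕ, y ^ (s - 1) * exp (-((b + n + 1) * y)) * y ^ k) =
      ∫ y in Ioi (0 : ℝ), wt s y * exp (-(b * y)) * y ^ k := by
    apply setIntegral_congr_fun measurableSet_Ioi
    intro y hy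
    exact (hasSum_wt (s := s) (b := b) hy k).tsum_eq
  rw [h2] at h1
  refine ⟨?_, h1.congr_fun fun n => (hval n).symm⟩
  -- integrability: compare with the polynomial bound
  have hb1 : IntegrableOn (fun y : ℝ => y ^ (s - 1) * exp (-((b + 1) * y)) * y ^ k) (Ioi 0) := by
    exact (integral_base (by linarith) (by positivity) k).1
  have hb2 : IntegrableOn (fun y : ℝ => y ^ (s - 1 - 1) * exp (-((b + 1) * y)) * y ^ k) (Ioi 0) := by
    exact (integral_base (a := s - 1) (by linarith) (by positivity) k).1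
  refine Integrable.mono' (hb1.add hb2) ?_ ?_
  · have := measurable_wt s
    exact (by fun_prop : Measurable fun y => wt s y * exp (-(b * y)) * y ^ k).aestronglyMeasurable
  · filter_upwards [ae_restrict_mem measurableSet_Ioi] with y hy
    have hy' : (0 : ℝ) < y := hy
    have hw := wt_pos (s := s) hy
    rw [Real.norm_of_nonneg (by positivity)]
    have h3 := wt_upper (s := s) hy
    have h4 : 0 ≤ exp (-(b * y)) * y ^ k := by positivity
    have h5 := mul_le_mul_of_nonneg_right h3 h4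
    have h6 : exp (-((b + 1) * y)) = exp (-y) * exp (-(b * y)) := by
      rw [← exp_add]; congr 1; ring
    simp only [Pi.add_apply]
    rw [h6]
    linarith

/-- The finite sum behind the Laplace transform. -/
theorem sum_lagCoeff {s r κ : ℝ} (hs : 0 < s) (hr : 0 < r) (i : ℕ) :
    ∑ k ∈ range (i + 1), (lagCoeff s i k * κ ^ k) * (Gamma (s + k) * (1 / r) ^ (s + k)) =
      CC s i * (1 / r) ^ s * (1 - κ / r) ^ i := by
  rw [CC, ← (integral_lag hs hr κ i).2]
  have h0 : ∀ y : ℝ, y ^ (s - 1) * exp (-(r * y)) * lag s i (κ * y) =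
      ∑ k ∈ range (i + 1), (lagCoeff s i k * κ ^ k) *
        (y ^ (s - 1) * exp (-(r * y)) * y ^ k) := by
    intro y
    rw [lag, mul_sum]
    refine sum_congr rfl fun k _ => ?_
    rw [mul_pow]; ring
  simp only [h0]
  have hint : ∀ k ∈ range (i + 1), IntegrableOn (fun y : ℝ => (lagCoeff s i k * κ ^ k) *
        (y ^ (s - 1) * exp (-(r * y)) * y ^ k)) (Ioi 0) := fun k _ =>
    (integral_base hs hr k).1.const_mul _
  rw [integral_finsetSum _ hint]
  refine sum_congr rfl fun k _ => ?_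
  rw [integral_const_mul, (integral_base hs hr k).2]

/-- Exponentials as vectors. -/
noncomputable def ev (x y : ℝ) : ℝ := exp (-(x * y))

theorem good_ev {s x : ℝ} (hs : 1 < s) (hx : 0 ≤ x) : Good s (ev x) := by
  constructor
  · unfold ev; fun_prop
  · have := (moment hs (show 0 ≤ 2 * x by positivity) 0).1
    refine this.congr_fun (fun y _ => ?_) measurableSet_Ioi
    simp only [ev, pow_zero, mul_one]
    rw [← exp_nat_mul]
    congr 2
    push_cast; ring

theorem inner_ev_ell {s κ x : ℝ} (hs : 1 < s) (hκ : 1 ≤ κ) (hx : 0 ≤ x) (i : ℕ) :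
    HasSum (fun n : ℕ => ((CC s i * (1 / (x + (κ - 1) / 2 + n + 1)) ^ s *
        (1 - κ / (x + (κ - 1) / 2 + n + 1)) ^ i : ℝ) : ℂ))
      ⟪vec s (ev x), vec s (ell κ s i)⟫_ℂ := by
  rw [inner_vec_vec (good_ev hs hx) (good_ell hs (by linarith) i)]
  apply Complex.hasSum_ofReal.2
  set b : ℝ := x + (κ - 1) / 2 with hb
  have hb0 : 0 ≤ b := by rw [hb]; linarith
  have h1 : HasSum (fun n : ℕ => ∑ k ∈ range (i + 1), (lagCoeff s i k * κ ^ k) *
      (Gamma (s + k) * (1 / (b + n + 1)) ^ (s + k)))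
      (∑ k ∈ range (i + 1), (lagCoeff s i k * κ ^ k) *
        ∫ y in Ioi (0 : ℝ), wt s y * exp (-(b * y)) * y ^ k) :=
    hasSum_sum fun k _ => ((moment hs hb0 k).2.mul_left _)
  have h2 : (∑ k ∈ range (i + 1), (lagCoeff s i k * κ ^ k) *
        ∫ y in Ioi (0 : ℝ), wt s y * exp (-(b * y)) * y ^ k) =
      ∫ y in Ioi (0 : ℝ), wt s y * (ev x y * ell κ s i y) := by
    have hint : ∀ k ∈ range (i + 1), IntegrableOn (fun y : ℝ => (lagCoeff s i k * κ ^ k) *
        (wt s y * exp (-(b * y)) * y ^ k)) (Ioi 0) := fun k _ => (moment hs hb0 k).1.const_mul _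
    rw [show (∑ k ∈ range (i + 1), (lagCoeff s i k * κ ^ k) *
        ∫ y in Ioi (0 : ℝ), wt s y * exp (-(b * y)) * y ^ k) =
        ∑ k ∈ range (i + 1), ∫ y in Ioi (0 : ℝ), (lagCoeff s i k * κ ^ k) *
        (wt s y * exp (-(b * y)) * y ^ k) from sum_congr rfl fun k _ => (integral_const_mul _ _).symm,
      ← integral_finsetSum _ hint]
    apply integral_congr_ae
    refine Filter.Eventually.of_forall fun y => ?_
    simp only [ell, lag, ev]
    have : exp (-(b * y)) = exp (-(x * y)) * exp (-((κ - 1) / 2 * y)) := by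
      rw [← exp_add, hb]; congr 1; ring
    rw [this, sum_mul, mul_sum, mul_sum]
    refine sum_congr rfl fun k _ => ?_
    rw [mul_pow]; ring
  rw [h2] at h1
  refine h1.congr_fun fun n => ?_
  rw [sum_lagCoeff (by linarith) (by positivity)]

end Pool.Agent.Helper32.RM
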