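import Mathlib
import Pool.Agent.Helper32.Transform

open Finset Real MeasureTheory Set
open scoped Nat InnerProductSpace

namespace Pool.Agent.Helper32.RM

theorem good_const_mul {s : ℝ} {f : ℝ → ℝ} (hf : Good s f) (c : ℝ) :
    Good s (fun y => c * f y) := by
  constructor
  · have := hf.1; fun_prop
  · have h : IntegrableOn (fun y => c ^ 2 * (wt s y * f y ^ 2)) (Ioi 0) := hf.2.const_mul _
    refine h.congr_fun (fun y _ => ?_) measurableSet_Ioi
    simp only
    ring

theorem vec_const_mul {s : ℝ} {f : ℝ → ℝ} (hf : Good s f) (c : ℝ) :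
    vec s (fun y => c * f y) = (c : ℂ) • vec s f := by
  apply Lp.ext
  refine (good_const_mul hf c).coeFn.trans ?_
  refine Filter.EventuallyEq.trans ?_ (Lp.coeFn_smul _ _).symm
  filter_upwards [hf.coeFn] with y hy
  rw [Pi.smul_apply, hy, vfun, vfun, smul_eq_mul]
  push_cast
  ring

/-- Amplitudes. -/
noncomputable def AA (s : ℝ) (i : ℕ) : ℝ := ampl s i * CC s i

theorem AA_pos {s : ℝ} (hs : 1 < s) (i : ℕ) : 0 < AA s i :=
  mul_pos (ampl_pos hs i) (CC_pos (by linarith) i)

theorem summable_CC_mul {s r : ℝ} (hs : 0 < s) (hr : |r| < 1) :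
    Summable fun i : ℕ => CC s i * r ^ i := by
  have h := (hasSum_binom hs hr).summable.mul_left (Gamma s)
  refine h.congr fun i => ?_
  have hG : Gamma s ≠ 0 := (Gamma_pos_of_pos hs).ne'
  unfold CC
  field_simp

theorem summable_AA_phi {s : ℝ} (hs : 1 < s) : Summable fun i => AA s i * ‖phi s i‖ := by
  have hg := gg_pos
  have hg1 := gg_lt_one
  set M : ℝ := (gg * √5) ^ s * (√5 ^ (-s) + √5 ^ (-(s - 1)) / (s - 1)) with hM
  have hbase : 0 < (gg * √5) ^ s := rpow_pos_of_pos (mul_pos hg (by positivity)) _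
  have hs1 : 0 < s - 1 := by linarith
  have hMpos : 0 < M := by
    rw [hM]; positivity
  set K : ℝ := (gg * √5) ^ s * M with hK
  have h1 : Summable fun i : ℕ => (K * (CC s i * gg ^ i) + (gg ^ 3) ^ i) / 2 := by
    apply Summable.div_const
    apply Summable.add
    · exact (summable_CC_mul (by linarith) (by rwa [abs_of_pos hg])).mul_left _
    · apply summable_geometric_of_lt_one (by positivity)
      exact pow_lt_one₀ hg.le hg1 (by norm_num)
  refine Summable.of_nonneg_of_le (fun i => mul_nonneg (AA_pos hs i).le (norm_nonneg _))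
    (fun i => ?_) h1
  have hC : 0 < CC s i := CC_pos (by linarith) i
  have h2 : (AA s i * ‖phi s i‖) ^ 2 ≤ K * ((CC s i * gg ^ i) * (gg ^ 3) ^ i) := by
    have e1 : AA s i ^ 2 = (gg * √5) ^ s * gg ^ (2 * i) * CC s i := by
      rw [← ampl_sq hs i, AA]; ring
    have e2 := phi_norm_bound hs i
    rw [← hM] at e2
    rw [mul_pow, e1]
    calc (gg * √5) ^ s * gg ^ (2 * i) * CC s i * ‖phi s i‖ ^ 2
        ≤ (gg * √5) ^ s * gg ^ (2 * i) * CC s i * (M * (gg ^ 2) ^ i) :=
          mul_le_mul_of_nonneg_left e2 (by positivity)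
      _ = K * ((CC s i * gg ^ i) * (gg ^ 3) ^ i) := by
          rw [hK, ← pow_mul, ← pow_mul]
          have : gg ^ (2 * i) * gg ^ (2 * i) = gg ^ i * gg ^ (3 * i) := by
            rw [← pow_add, ← pow_add]; congr 1; ring
          linear_combination ((gg * √5) ^ s * CC s i * M) * this
  apply le_of_sq_le_sq _ (by positivity)
  refine h2.trans ?_
  have hKp : 0 < K := mul_pos hbase hMpos
  nlinarith [sq_nonneg (K * (CC s i * gg ^ i) - (gg ^ 3) ^ i)]

/-- Kernel coefficients. -/
noncomputable def FF (s : ℝ) (i : ℕ) (u : ℝ) : ℝ :=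
  AA s i * (1 / (u + gg)) ^ s * (1 - √5 / (u + gg)) ^ i

theorem abs_ratio_le {u : ℝ} (hu : 1 / 2 ≤ u) : |1 - √5 / (u + gg)| ≤ 1 := by
  have hg := gg_pos
  have h1 : 0 < u + gg := by linarith
  rw [abs_le, sqrt5_eq]
  constructor
  · have : (2 * gg + 1) / (u + gg) ≤ 2 := by rw [div_le_iff₀ h1]; linarith
    linarith
  · have : 0 ≤ (2 * gg + 1) / (u + gg) := by positivity
    linarith

theorem FF_bound {s : ℝ} (hs : 1 < s) (i : ℕ) {u : ℝ} (hu : 1 / 2 ≤ u) :
    |FF s i u| ≤ AA s i * (1 / u) ^ s := by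
  have hg := gg_pos
  have hA := AA_pos hs i
  have hu0 : 0 < u := by linarith
  unfold FF
  rw [abs_mul, abs_mul, abs_of_pos hA, abs_of_pos (rpow_pos_of_pos (by positivity) _), abs_pow]
  have h1 : |1 - √5 / (u + gg)| ^ i ≤ 1 := pow_le_one₀ (abs_nonneg _) (abs_ratio_le hu)
  have h2 : (1 / (u + gg)) ^ s ≤ (1 / u) ^ s := by
    apply rpow_le_rpow (by positivity) _ (by linarith)
    apply one_div_le_one_div_of_le hu0; linarith
  calc AA s i * (1 / (u + gg)) ^ s * |1 - √5 / (u + gg)| ^ i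
      ≤ AA s i * (1 / (u + gg)) ^ s * 1 := mul_le_mul_of_nonneg_left h1 (by positivity)
    _ ≤ _ := by rw [mul_one]; exact mul_le_mul_of_nonneg_left h2 hA.le

theorem inner_ev_phi {s x : ℝ} (hs : 1 < s) (hx : 0 ≤ x) (i : ℕ) :
    HasSum (fun n : ℕ => ((FF s i (x + n + 1) : ℝ) : ℂ)) ⟪vec s (ev x), phi s i⟫_ℂ := by
  have h := (inner_ev_ell (κ := √5) hs one_lt_sqrt5.le hx i).mul_left (ampl s i : ℂ)
  rw [phi, inner_smul_right]
  refine h.congr_fun fun n => ?_
  have : (√5 - 1) / 2 = gg := rfl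
  rw [← Complex.ofReal_mul, this]
  congr 1
  unfold FF AA
  have e : x + n + 1 + gg = x + gg + n + 1 := by ring
  rw [e]
  ring

theorem kernel_expansion {s u : ℝ} (hs : 1 < s) (hu : 1 / 2 < u) (y : ℝ) :
    HasSum (fun i : ℕ => ((-1) ^ i * FF s i u * ampl s i) * ell (√5) s i y)
      ((1 / u) ^ s * ev (1 / u) y) := by
  have hg := gg_pos
  have hg1 := gg_lt_one
  have hu0 : 0 < u := by linarith
  have hug : 0 < u + gg := by linarith
  have h5 : 0 < √5 := by positivity
  set t : ℝ := 1 - √5 / (u + gg) with ht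
  set p : ℝ := -(gg ^ 2) * t with hp
  have hpabs : |p| < 1 := by
    rw [hp, abs_mul, abs_neg, abs_of_pos (by positivity : 0 < gg ^ 2)]
    have := abs_ratio_le hu.le
    calc gg ^ 2 * |t| ≤ gg ^ 2 * 1 := mul_le_mul_of_nonneg_left this (by positivity)
      _ < 1 := by rw [mul_one]; exact pow_lt_one₀ hg.le hg1 (by norm_num)
  have hgk : gg * √5 = 1 + gg ^ 2 := by rw [sqrt5_eq]; have := gg_sq; nlinarith
  have h1p : 1 - p = gg * √5 * u / (u + gg) := by
    rw [hp, ht]
    field_simp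
    have h6 : gg ^ 2 * √5 = gg * (1 + gg ^ 2) := by rw [← hgk]; ring
    have h7 : gg * √5 = 1 + gg ^ 2 := hgk
    linear_combination (-1 : ℝ) * h6 - u * h7
  have hlag := hasSum_lag (a := s) (p := p) (by linarith) hpabs (√5 * y)
  have h2 := hlag.mul_left ((gg * √5) ^ s * (1 / (u + gg)) ^ s * exp (-((√5 - 1) / 2 * y)))
  have h3 : (gg * √5) ^ s * (1 / (u + gg)) ^ s * exp (-((√5 - 1) / 2 * y)) *
      ((1 - p) ^ (-s) * exp (-(√5 * y * (p / (1 - p))))) = (1 / u) ^ s * ev (1 / u) y := by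
    have hbase : 0 < gg * √5 := mul_pos hg h5
    have e1 : (1 - p) ^ (-s) = (1 / (gg * √5)) ^ s * (1 / u) ^ s * (u + gg) ^ s := by
      rw [h1p, rpow_neg (by positivity), ← inv_rpow (by positivity),
        ← mul_rpow (by positivity) (by positivity), ← mul_rpow (by positivity) (by positivity)]
      congr 1
      field_simp
    have e2 : (gg * √5) ^ s * (1 / (gg * √5)) ^ s = 1 := by
      rw [← mul_rpow hbase.le (by positivity), mul_one_div_cancel hbase.ne', one_rpow]
    have e3 : (1 / (u + gg)) ^ s * (u + gg) ^ s = 1 := by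
      rw [← mul_rpow (by positivity) hug.le, one_div_mul_cancel hug.ne', one_rpow]
    have e4 : exp (-((√5 - 1) / 2 * y)) * exp (-(√5 * y * (p / (1 - p)))) = ev (1 / u) y := by
      unfold ev
      rw [← exp_add]
      congr 1
      have e5 : √5 * (p / (1 - p)) = 1 / u - gg := by
        rw [h1p, hp, ht]
        field_simp
        have h7 : gg * √5 = 1 + gg ^ 2 := hgk
        linear_combination h7
      have e6 : (√5 - 1) / 2 = gg := rfl
      rw [e6]
      linear_combination (-y) * e5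
    calc (gg * √5) ^ s * (1 / (u + gg)) ^ s * exp (-((√5 - 1) / 2 * y)) *
          ((1 - p) ^ (-s) * exp (-(√5 * y * (p / (1 - p)))))
        = ((gg * √5) ^ s * (1 / (gg * √5)) ^ s) * ((1 / (u + gg)) ^ s * (u + gg) ^ s) *
          (1 / u) ^ s * (exp (-((√5 - 1) / 2 * y)) * exp (-(√5 * y * (p / (1 - p))))) := by
          rw [e1]; ring
      _ = _ := by rw [e2, e3, e4]; ring
  rw [h3] at h2
  refine h2.congr_fun fun i => ?_
  have h8 := ampl_sq hs i
  unfold FF AA ell
  rw [hp, mul_pow, neg_pow (gg ^ 2) i, ← pow_mul]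
  linear_combination ((-1) ^ i * (1 / (u + gg)) ^ s * t ^ i * lag s i (√5 * y) *
    exp (-((√5 - 1) / 2 * y))) * h8

/-- The Laplace-type transform of `Φ`. -/
noncomputable def fL (s : ℝ) (Φ : HH) (x : ℝ) : ℂ := ⟪vec s (ev x), Φ⟫_ℂ

theorem fL_expansion {s u : ℝ} (hs : 1 < s) (hu : 1 / 2 < u) (Φ : HH) :
    HasSum (fun i : ℕ => (((-1) ^ i * FF s i u : ℝ) : ℂ) * ⟪phi s i, Φ⟫_ℂ)
      ((((1 / u) ^ s : ℝ) : ℂ) * fL s Φ (1 / u)) := by
  have h5 : (0 : ℝ) < √5 := by positivity
  have hu0 : 0 < u := by linarith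
  have hgood : Good s (ev (1 / u)) := good_ev hs (by positivity)
  have hg : ∀ i, Good s (ell (√5) s i) := good_ell hs h5
  have hnorm : ∀ i, vec s (fun y => ((-1) ^ i * FF s i u * ampl s i) * ell (√5) s i y) =
      (((-1) ^ i * FF s i u : ℝ) : ℂ) • phi s i := by
    intro i
    rw [vec_const_mul (hg i), phi, smul_smul]
    push_cast
    ring_nf
  have hsum : Summable fun i => ‖vec s (fun y => ((-1) ^ i * FF s i u * ampl s i) *
      ell (√5) s i y)‖ := by
    refine Summable.of_nonneg_of_le (fun i => norm_nonneg _) (fun i => ?_)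
      ((summable_AA_phi hs).mul_left ((1 / u) ^ s))
    rw [hnorm, norm_smul, Complex.norm_real, Real.norm_eq_abs, abs_mul, abs_pow, abs_neg, abs_one,
      one_pow, one_mul]
    have := mul_le_mul_of_nonneg_right (FF_bound hs i hu.le) (norm_nonneg (phi s i))
    linarith
  have h := hasSum_inner_vec (good_const_mul hgood ((1 / u) ^ s))
    (fun i => good_const_mul (hg i) _) hsum (fun y _ => kernel_expansion hs hu y) Φ
  rw [vec_const_mul hgood, inner_smul_left, Complex.conj_ofReal] at h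
  refine h.congr_fun fun i => ?_
  rw [hnorm, inner_smul_left, Complex.conj_ofReal]

end Pool.Agent.Helper32.RM
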