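import Mathlib

/-!
# The Ruelle-Mayer operators: definitions

The space `X` of continuous functions on the closed disc `|z - 1| ≤ 3/2` which are holomorphic in
the open disc, and the operators `G_s : X → X`,
`(G_s f)(z) = ∑_{n ≥ 1} (z+n)^{-s} f(1/(z+n))`, for real `s > 1`.
-/

open Metric Set Filter Topology

namespace Pool.Agent.Helper32.RuelleMayer

/-- The closed disc `|z - 1| ≤ 3/2`. -/
abbrev Disc : Type := closedBall (1 : ℂ) (3 / 2)

open Classical in
/-- Extension by zero of a function on the closed disc. -/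
noncomputable def ext (f : C(Disc, ℂ)) (z : ℂ) : ℂ :=
  if h : z ∈ closedBall (1 : ℂ) (3 / 2) then f ⟨z, h⟩ else 0

theorem ext_apply (f : C(Disc, ℂ)) (z : Disc) : ext f z = f z := by
  unfold ext
  rw [dif_pos z.2]

theorem ext_of_mem (f : C(Disc, ℂ)) {z : ℂ} (hz : z ∈ closedBall (1 : ℂ) (3 / 2)) :
    ext f z = f ⟨z, hz⟩ := by
  unfold ext
  rw [dif_pos hz]

theorem ext_add (f g : C(Disc, ℂ)) (z : ℂ) : ext (f + g) z = ext f z + ext g z := by
  unfold ext
  split_ifs <;> simp

theorem ext_smul (c : ℂ) (f : C(Disc, ℂ)) (z : ℂ) : ext (c • f) z = c * ext f z := by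
  unfold ext
  split_ifs <;> simp

theorem ext_zero (z : ℂ) : ext 0 z = 0 := by
  unfold ext
  split_ifs <;> simp

/-- The set of continuous functions on the closed disc which are holomorphic in the open disc. -/
def holo : Set C(Disc, ℂ) := {f | DifferentiableOn ℂ (ext f) (ball (1 : ℂ) (3 / 2))}

theorem holo_add {f g : C(Disc, ℂ)} (hf : f ∈ holo) (hg : g ∈ holo) : f + g ∈ holo := by
  have : ext (f + g) = fun z => ext f z + ext g z := funext fun z => ext_add f g z
  change DifferentiableOn ℂ (ext (f + g)) (ball (1 : ℂ) (3 / 2))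
  rw [this]
  exact DifferentiableOn.add hf hg

theorem holo_zero : (0 : C(Disc, ℂ)) ∈ holo := by
  have : ext (0 : C(Disc, ℂ)) = fun _ => 0 := funext fun z => ext_zero z
  change DifferentiableOn ℂ (ext 0) (ball (1 : ℂ) (3 / 2))
  rw [this]
  exact differentiableOn_const 0

theorem holo_smul (c : ℂ) {f : C(Disc, ℂ)} (hf : f ∈ holo) : c • f ∈ holo := by
  have : ext (c • f) = fun z => c * ext f z := funext fun z => ext_smul c f z
  change DifferentiableOn ℂ (ext (c • f)) (ball (1 : ℂ) (3 / 2))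
  rw [this]
  exact DifferentiableOn.const_mul hf c

/-- The Banach space `X`: continuous functions on the closed disc `|z - 1| ≤ 3/2` that are
holomorphic in the open disc `|z - 1| < 3/2`. -/
def X : Submodule ℂ C(Disc, ℂ) where
  carrier := holo
  add_mem' := holo_add
  zero_mem' := holo_zero
  smul_mem' := holo_smul

/-- The series `∑_{n ≥ 1} (z+n)^{-s} F(1/(z+n))`. -/
noncomputable def series (s : ℝ) (F : ℂ → ℂ) (z : ℂ) : ℂ :=
  ∑' n : ℕ, (z + (n + 1)) ^ (-(s : ℂ)) * F (1 / (z + (n + 1)))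

/-! ### Basic estimates -/

theorem inv_mem_ball {z : ℂ} (hz : -(3 / 5) < z.re) (n : ℕ) :
    1 / (z + (n + 1)) ∈ ball (1 : ℂ) (3 / 2) := by
  set w : ℂ := z + (n + 1) with hw
  have hre : 2 / 5 < w.re := by
    have h1 : w.re = z.re + (n + 1) := by
      rw [hw]; simp
    have h2 : (0 : ℝ) ≤ n := Nat.cast_nonneg n
    rw [h1]; linarith
  have hw0 : w ≠ 0 := by
    intro h; rw [h, Complex.zero_re] at hre; norm_num at hre
  have hwn : 0 < ‖w‖ := norm_pos_iff.2 hw0
  rw [mem_ball, dist_eq_norm]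
  have h3 : 1 / w - 1 = (1 - w) / w := by field_simp
  rw [h3, norm_div, div_lt_iff₀ hwn]
  have h4 : ‖1 - w‖ ^ 2 < (3 / 2 * ‖w‖) ^ 2 := by
    rw [mul_pow, ← Complex.normSq_eq_norm_sq, ← Complex.normSq_eq_norm_sq, Complex.normSq_apply,
      Complex.normSq_apply]
    simp only [Complex.sub_re, Complex.one_re, Complex.sub_im, Complex.one_im]
    nlinarith [mul_self_nonneg w.im, mul_pos (show 0 < w.re - 2 / 5 by linarith)
      (show 0 < w.re - 2 / 5 by linarith)]
  exact lt_of_pow_lt_pow_left₀ 2 (by positivity) h4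

theorem inv_mem_closedBall_one {z : ℂ} (hz : -(1 / 2) ≤ z.re) (n : ℕ) :
    ‖1 / (z + (n + 1)) - 1‖ ≤ 1 := by
  set w : ℂ := z + (n + 1) with hw
  have hre : 1 / 2 ≤ w.re := by
    have h1 : w.re = z.re + (n + 1) := by
      rw [hw]; simp
    have h2 : (0 : ℝ) ≤ n := Nat.cast_nonneg n
    rw [h1]; linarith
  have hw0 : w ≠ 0 := by
    intro h; rw [h, Complex.zero_re] at hre; norm_num at hre
  have hwn : 0 < ‖w‖ := norm_pos_iff.2 hw0
  have h3 : 1 / w - 1 = (1 - w) / w := by field_simp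
  rw [h3, norm_div, div_le_iff₀ hwn, one_mul]
  have h4 : ‖1 - w‖ ^ 2 ≤ ‖w‖ ^ 2 := by
    rw [← Complex.normSq_eq_norm_sq, ← Complex.normSq_eq_norm_sq, Complex.normSq_apply,
      Complex.normSq_apply]
    simp only [Complex.sub_re, Complex.one_re, Complex.sub_im, Complex.one_im]
    nlinarith
  exact le_of_sq_le_sq h4 (norm_nonneg _)

theorem norm_cpow_bound {s : ℝ} (hs : 0 < s) {z : ℂ} {a : ℝ} (ha : 0 < a) (hz : a - 1 ≤ z.re)
    (n : ℕ) : ‖(z + (n + 1)) ^ (-(s : ℂ))‖ ≤ 1 / |(n : ℝ) + a| ^ s := by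
  have h1 : a + n ≤ (z + (n + 1)).re := by simp; linarith
  have h2 : a + n ≤ ‖z + (n + 1)‖ := h1.trans (Complex.re_le_norm _)
  have h0 : 0 < a + n := by positivity
  rw [← Complex.ofReal_neg, Complex.norm_cpow_real, Real.rpow_neg (norm_nonneg _),
    abs_of_pos (by linarith), one_div]
  apply inv_anti₀ (Real.rpow_pos_of_pos (by linarith) _)
  apply Real.rpow_le_rpow (by linarith) (by linarith) hs.le

theorem summable_bound {s : ℝ} (hs : 1 < s) (a : ℝ) :
    Summable fun n : ℕ => 1 / |(n : ℝ) + a| ^ s :=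
  (Real.summable_one_div_nat_add_rpow a s).2 hs

theorem mem_slitPlane {z : ℂ} (hz : -(3 / 5) < z.re) (n : ℕ) :
    z + (n + 1) ∈ Complex.slitPlane := by
  left
  have h2 : (0 : ℝ) ≤ n := Nat.cast_nonneg n
  simp; linarith

theorem isOpen_half (c : ℝ) : IsOpen {z : ℂ | c < z.re} :=
  isOpen_lt continuous_const Complex.continuous_re

/-- The series defines a holomorphic function on `Re z > -3/5`. -/
theorem series_differentiableOn {s : ℝ} (hs : 1 < s) {F : ℂ → ℂ} {M : ℝ}
    (hF : DifferentiableOn ℂ F (ball (1 : ℂ) (3 / 2)))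
    (hM : ∀ z ∈ ball (1 : ℂ) (3 / 2), ‖F z‖ ≤ M) :
    DifferentiableOn ℂ (series s F) {z : ℂ | -(3 / 5) < z.re} := by
  unfold series
  apply Complex.differentiableOn_tsum_of_summable_norm ((summable_bound hs (2 / 5)).mul_right M)
  · intro n z hz
    have hz' : -(3 / 5) < z.re := hz
    have h1 : DifferentiableAt ℂ (fun w : ℂ => (w + (n + 1)) ^ (-(s : ℂ))) z := by
      have h0 : DifferentiableAt ℂ (fun w : ℂ => w + ((n : ℂ) + 1)) z := by fun_prop
      exact h0.cpow_const (mem_slitPlane hz' n)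
    have h2 : DifferentiableAt ℂ (fun w : ℂ => F (1 / (w + (n + 1)))) z := by
      have h3 : DifferentiableAt ℂ F (1 / (z + (n + 1))) :=
        hF.differentiableAt (isOpen_ball.mem_nhds (inv_mem_ball hz' n))
      have h4 : DifferentiableAt ℂ (fun w : ℂ => 1 / (w + (n + 1))) z := by
        apply DifferentiableAt.div (by fun_prop) (by fun_prop)
        exact Complex.slitPlane_ne_zero (mem_slitPlane hz' n)
      exact DifferentiableAt.comp z h3 h4
    exact (h1.mul h2).differentiableWithinAt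
  · exact isOpen_half _
  · intro n z hz
    have hz' : -(3 / 5) < z.re := hz
    rw [norm_mul]
    have h1 := norm_cpow_bound (s := s) (by linarith) (a := 2 / 5) (by norm_num) (z := z)
      (by linarith) n
    have h2 := hM _ (inv_mem_ball hz' n)
    exact mul_le_mul h1 h2 (norm_nonneg _) (by positivity)

theorem series_summable {s : ℝ} (hs : 1 < s) {F : ℂ → ℂ} {M : ℝ}
    (hM : ∀ z ∈ ball (1 : ℂ) (3 / 2), ‖F z‖ ≤ M) {z : ℂ} (hz : -(3 / 5) < z.re) :
    Summable fun n : ℕ => (z + (n + 1)) ^ (-(s : ℂ)) * F (1 / (z + (n + 1))) := by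
  apply Summable.of_norm_bounded ((summable_bound hs (2 / 5)).mul_right M)
  intro n
  rw [norm_mul]
  have h1 := norm_cpow_bound (s := s) (by linarith) (a := 2 / 5) (by norm_num) (z := z)
    (by linarith) n
  have h2 := hM _ (inv_mem_ball hz n)
  exact mul_le_mul h1 h2 (norm_nonneg _) (by positivity)

theorem re_of_mem_closedBall {z : ℂ} (hz : z ∈ closedBall (1 : ℂ) (3 / 2)) : -(1 / 2) ≤ z.re := by
  rw [mem_closedBall, dist_eq_norm] at hz
  have h1 := (abs_le.1 ((Complex.abs_re_le_norm (z - 1)).trans hz)).1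
  simp at h1
  linarith

theorem re_of_mem_ball {z : ℂ} (hz : z ∈ ball (1 : ℂ) (3 / 2)) : -(1 / 2) < z.re := by
  rw [mem_ball, dist_eq_norm] at hz
  have h1 := (abs_lt.1 ((Complex.abs_re_le_norm (z - 1)).trans_lt hz)).1
  simp at h1
  linarith

theorem norm_ext_le (f : C(Disc, ℂ)) (z : ℂ) : ‖ext f z‖ ≤ ‖f‖ := by
  unfold ext
  split_ifs with h
  · exact f.norm_coe_le_norm _
  · rw [norm_zero]; exact norm_nonneg _

theorem series_continuous (s : ℝ) (hs : 1 < s) (f : X) :
    Continuous fun z : Disc => series s (ext f) z := by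
  have h1 := series_differentiableOn hs f.2 (fun z _ => norm_ext_le (f : C(Disc, ℂ)) z)
  have h2 : ContinuousOn (series s (ext f)) (closedBall (1 : ℂ) (3 / 2)) :=
    h1.continuousOn.mono fun z hz => by
      have := re_of_mem_closedBall hz
      simp only [Set.mem_ofPred_eq]; linarith
  exact continuousOn_iff_continuous_domRestrict.1 h2

/-- The value `G_s f` as a continuous function on the closed disc. -/
noncomputable def GC (s : ℝ) (hs : 1 < s) (f : X) : C(Disc, ℂ) :=
  ⟨fun z => series s (ext f) z, series_continuous s hs f⟩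

theorem GC_mem (s : ℝ) (hs : 1 < s) (f : X) : GC s hs f ∈ X := by
  change DifferentiableOn ℂ (ext (GC s hs f)) (ball (1 : ℂ) (3 / 2))
  have h1 := series_differentiableOn hs f.2 (fun z _ => norm_ext_le (f : C(Disc, ℂ)) z)
  have h2 : DifferentiableOn ℂ (series s (ext f)) (ball (1 : ℂ) (3 / 2)) :=
    h1.mono fun z hz => by
      have := re_of_mem_ball hz
      simp only [Set.mem_ofPred_eq]; linarith
  refine h2.congr fun z hz => ?_
  rw [ext_of_mem _ (ball_subset_closedBall hz)]
  rfl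

theorem GC_add (s : ℝ) (hs : 1 < s) (f g : X) :
    (⟨GC s hs (f + g), GC_mem s hs (f + g)⟩ : X) =
      ⟨GC s hs f, GC_mem s hs f⟩ + ⟨GC s hs g, GC_mem s hs g⟩ := by
  apply Subtype.ext
  ext z
  have hz := re_of_mem_closedBall z.2
  have hz' : -(3 / 5) < (z : ℂ).re := by linarith
  change series s (ext ((f : C(Disc, ℂ)) + g)) z = series s (ext f) z + series s (ext g) z
  unfold series
  rw [← (series_summable hs (fun z _ => norm_ext_le (f : C(Disc, ℂ)) z) hz').tsum_add
    (series_summable hs (fun z _ => norm_ext_le (g : C(Disc, ℂ)) z) hz')]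
  congr 1
  funext n
  rw [ext_add]; ring

theorem GC_smul (s : ℝ) (hs : 1 < s) (c : ℂ) (f : X) :
    (⟨GC s hs (c • f), GC_mem s hs (c • f)⟩ : X) = c • ⟨GC s hs f, GC_mem s hs f⟩ := by
  apply Subtype.ext
  ext z
  change series s (ext (c • (f : C(Disc, ℂ)))) z = c * series s (ext f) z
  unfold series
  rw [← tsum_mul_left]
  congr 1
  funext n
  rw [ext_smul]; ring

/-- The Ruelle-Mayer operator `G_s`, `s > 1`, as a linear operator on `X`:
`(G_s f)(z) = ∑_{n ≥ 1} (z+n)^{-s} f(1/(z+n))`. -/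
noncomputable def G (s : ℝ) (hs : 1 < s) : Module.End ℂ X where
  toFun f := ⟨GC s hs f, GC_mem s hs f⟩
  map_add' := GC_add s hs
  map_smul' := GC_smul s hs

theorem G_apply (s : ℝ) (hs : 1 < s) (f : X) (z : Disc) :
    ((G s hs f : X) : C(Disc, ℂ)) z =
      ∑' n : ℕ, ((z : ℂ) + (n + 1)) ^ (-(s : ℂ)) * ext f (1 / ((z : ℂ) + (n + 1))) := rfl

end Pool.Agent.Helper32.RuelleMayer
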