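import Mathlib
import Pool.Agent.Helper32.RMDefs

/-!
# The Ruelle-Mayer operators

`X` is the space of functions which are continuous on the closed disc `|z - 1| ≤ 3/2` and holomorphic
in the disc `|z - 1| < 3/2`, and `G_s : X → X`, for real `s > 1`, is the operator
`(G_s f)(z) = ∑_{n ≥ 1} (z+n)^{-s} f(1/(z+n))`.

A function on the closed disc is represented by the function on `ℂ` which extends it by zero.
-/

open Metric Set Filter Topology

namespace Pool.Agent.Helper32.MayerOp

/-- The disc `|z - 1| < 3/2`. -/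
def openDisc : Set ℂ := ball 1 (3 / 2)

/-- The closed disc `|z - 1| ≤ 3/2`. -/
def closedDisc : Set ℂ := closedBall 1 (3 / 2)

/-- `f` is holomorphic in `|z - 1| < 3/2`, continuous on `|z - 1| ≤ 3/2`, and zero elsewhere. -/
structure InX (f : ℂ → ℂ) : Prop where
  holomorphic : DifferentiableOn ℂ f openDisc
  continuous : ContinuousOn f closedDisc
  zero_off : ∀ z, z ∉ closedDisc → f z = 0

theorem inX_add {f g : ℂ → ℂ} (hf : InX f) (hg : InX g) : InX (f + g) :=
  ⟨hf.1.add hg.1, hf.2.add hg.2, fun z hz => by simp [hf.3 z hz, hg.3 z hz]⟩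

theorem inX_zero : InX 0 :=
  ⟨differentiableOn_const 0, continuousOn_const, fun z _ => rfl⟩

theorem inX_smul (c : ℂ) {f : ℂ → ℂ} (hf : InX f) : InX (c • f) :=
  ⟨hf.1.const_smul c, hf.2.const_smul c, fun z hz => by simp [hf.3 z hz]⟩

/-- The space `X`. -/
def X : Submodule ℂ (ℂ → ℂ) where
  carrier := {f | InX f}
  add_mem' := inX_add
  zero_mem' := inX_zero
  smul_mem' := inX_smul

/-- The series `∑_{n ≥ 1} (z+n)^{-s} F(1/(z+n))` (with `n` shifted to start at `0`). -/
noncomputable def series (s : ℝ) (F : ℂ → ℂ) (z : ℂ) : ℂ :=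
  ∑' n : ℕ, (z + (n + 1)) ^ (-(s : ℂ)) * F (1 / (z + (n + 1)))

/-- The function `G_s f` on the closed disc, extended by zero. -/
noncomputable def Gfun (s : ℝ) (f : ℂ → ℂ) : ℂ → ℂ := closedDisc.indicator (series s f)

theorem exists_bound {f : ℂ → ℂ} (hf : InX f) : ∃ M : ℝ, ∀ z ∈ ball (1 : ℂ) (3 / 2), ‖f z‖ ≤ M := by
  obtain ⟨M, hM⟩ := (isCompact_closedBall (1 : ℂ) (3 / 2)).exists_bound_of_continuousOn hf.2
  exact ⟨M, fun z hz => hM z (ball_subset_closedBall hz)⟩

theorem Gfun_inX {s : ℝ} (hs : 1 < s) {f : ℂ → ℂ} (hf : InX f) : InX (Gfun s f) := by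
  obtain ⟨M, hM⟩ := exists_bound hf
  have h : DifferentiableOn ℂ (series s f) {z : ℂ | -(3 / 5) < z.re} :=
    RuelleMayer.series_differentiableOn hs hf.1 hM
  have hc : ∀ z ∈ closedDisc, z ∈ {z : ℂ | -(3 / 5) < z.re} := fun z hz => by
    have := RuelleMayer.re_of_mem_closedBall hz
    simp only [Set.mem_ofPred_eq]; linarith
  refine ⟨?_, ?_, fun z hz => indicator_of_notMem hz _⟩
  · refine (h.mono fun z hz => hc z (ball_subset_closedBall hz)).congr fun z hz => ?_
    exact indicator_of_mem (show z ∈ closedDisc from ball_subset_closedBall hz) _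
  · refine (h.continuousOn.mono hc).congr fun z hz => ?_
    exact indicator_of_mem hz _

/-- The function `G_s f` as an element of `X`. -/
noncomputable def Gval (s : ℝ) (hs : 1 < s) (f : X) : X := ⟨Gfun s f, Gfun_inX hs f.2⟩

theorem Gval_add (s : ℝ) (hs : 1 < s) (f g : X) :
    Gval s hs (f + g) = Gval s hs f + Gval s hs g := by
  obtain ⟨M, hM⟩ := exists_bound f.2
  obtain ⟨N, hN⟩ := exists_bound g.2
  apply Subtype.ext
  funext z
  change closedDisc.indicator (series s ((f : ℂ → ℂ) + g)) z =
    closedDisc.indicator (series s f) z + closedDisc.indicator (series s g) z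
  by_cases hz : z ∈ closedDisc
  · rw [indicator_of_mem hz, indicator_of_mem hz, indicator_of_mem hz]
    have hz1 := RuelleMayer.re_of_mem_closedBall hz
    have hz' : -(3 / 5) < z.re := by linarith
    unfold series
    rw [← (RuelleMayer.series_summable hs hM hz').tsum_add
      (RuelleMayer.series_summable hs hN hz')]
    congr 1
    funext n
    rw [Pi.add_apply]; ring
  · rw [indicator_of_notMem hz, indicator_of_notMem hz, indicator_of_notMem hz, add_zero]

theorem Gval_smul (s : ℝ) (hs : 1 < s) (c : ℂ) (f : X) :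
    Gval s hs (c • f) = c • Gval s hs f := by
  apply Subtype.ext
  funext z
  change closedDisc.indicator (series s (c • (f : ℂ → ℂ))) z =
    c * closedDisc.indicator (series s f) z
  by_cases hz : z ∈ closedDisc
  · rw [indicator_of_mem hz, indicator_of_mem hz]
    unfold series
    rw [← tsum_mul_left]
    congr 1
    funext n
    rw [Pi.smul_apply, smul_eq_mul]; ring
  · rw [indicator_of_notMem hz, indicator_of_notMem hz, mul_zero]

/-- The Ruelle-Mayer operator `G_s`, `s > 1`, as a linear operator on `X`. -/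
noncomputable def G (s : ℝ) (hs : 1 < s) : Module.End ℂ X where
  toFun := Gval s hs
  map_add' := Gval_add s hs
  map_smul' := Gval_smul s hs

/-- The value of `G_s f` at a point of the closed disc. -/
theorem G_apply (s : ℝ) (hs : 1 < s) (f : X) {z : ℂ} (hz : z ∈ closedDisc) :
    (G s hs f : ℂ → ℂ) z =
      ∑' n : ℕ, (z + (n + 1)) ^ (-(s : ℂ)) * (f : ℂ → ℂ) (1 / (z + (n + 1))) :=
  indicator_of_mem hz _

/-- The algebraic multiplicity of `μ`: the dimension of the union over `n` of the kernels of
`(T - μ) ^ n`. -/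
noncomputable def algMult {V : Type} [AddCommGroup V] [Module ℂ V] (T : Module.End ℂ V) (μ : ℂ) :
    Cardinal := Module.rank ℂ (T.maxGenEigenspace μ)

/-- `lam 0, lam 1, lam 2, …` is the list of all nonzero eigenvalues of `T`, each repeated according
to its algebraic multiplicity, ordered so that the moduli do not increase. -/
structure IsEigenvalueList {V : Type} [AddCommGroup V] [Module ℂ V] (T : Module.End ℂ V)
    (lam : ℕ → ℂ) : Prop where
  ne_zero : ∀ j, lam j ≠ 0
  norm_succ_le : ∀ j, ‖lam (j + 1)‖ ≤ ‖lam j‖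
  mult : ∀ μ : ℂ, μ ≠ 0 → Cardinal.mk {j : ℕ // lam j = μ} = algMult T μ

end Pool.Agent.Helper32.MayerOp
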