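import Mathlib
import Pool.Agent.Helper32.Kernel

open Finset Real MeasureTheory Set Filter Topology
open scoped Nat InnerProductSpace

namespace Pool.Agent.Helper32.RM

theorem summable_mul_pow {b : ℕ → ℂ} (hb : Summable fun i => ‖b i‖) {t : ℝ} (ht0 : 0 ≤ t)
    (ht1 : t ≤ 1) : Summable fun i => b i * (t : ℂ) ^ i := by
  apply Summable.of_norm_bounded hb
  intro i
  rw [norm_mul, norm_pow, Complex.norm_real, Real.norm_eq_abs, abs_of_nonneg ht0]
  exact mul_le_of_le_one_right (norm_nonneg _) (pow_le_one₀ ht0 ht1)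

theorem coeff_zero_aux {b : ℕ → ℂ} (hb : Summable fun i => ‖b i‖)
    (h : ∀ t : ℝ, 0 < t → t < 1 → ∑' i, b i * (t : ℂ) ^ i = 0) : b 0 = 0 ∧
      ∀ t : ℝ, 0 < t → t < 1 → ∑' i, b (i + 1) * (t : ℂ) ^ i = 0 := by
  have hb' : Summable fun i => ‖b (i + 1)‖ := (summable_nat_add_iff 1).2 hb
  have hsplit : ∀ t : ℝ, 0 < t → t < 1 → b 0 = -((t : ℂ) * ∑' i, b (i + 1) * (t : ℂ) ^ i) := by
    intro t ht0 ht1
    have h1 := h t ht0 ht1
    have h2 := (summable_mul_pow hb ht0.le ht1.le).tsum_eq_zero_add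
    rw [h1] at h2
    have h3 : ∑' i, b (i + 1) * (t : ℂ) ^ (i + 1) = (t : ℂ) * ∑' i, b (i + 1) * (t : ℂ) ^ i := by
      rw [← tsum_mul_left]
      congr 1
      funext i
      ring
    rw [h3, pow_zero, mul_one] at h2
    exact eq_neg_of_add_eq_zero_left h2.symm
  have hb0 : b 0 = 0 := by
    have hbound : ∀ t : ℝ, 0 < t → t < 1 → ‖b 0‖ ≤ t * ∑' i, ‖b (i + 1)‖ := by
      intro t ht0 ht1
      rw [hsplit t ht0 ht1, norm_neg, norm_mul, Complex.norm_real, Real.norm_eq_abs,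
        abs_of_pos ht0]
      apply mul_le_mul_of_nonneg_left _ ht0.le
      have hs1 := summable_mul_pow hb' ht0.le ht1.le
      refine (norm_tsum_le_tsum_norm hs1.norm).trans ?_
      apply hs1.norm.tsum_le_tsum _ hb'
      intro i
      rw [norm_mul, norm_pow, Complex.norm_real, Real.norm_eq_abs, abs_of_pos ht0]
      exact mul_le_of_le_one_right (norm_nonneg _) (pow_le_one₀ ht0.le ht1.le)
    have hlim : Tendsto (fun t : ℝ => t * ∑' i, ‖b (i + 1)‖) (𝓝[>] 0) (𝓝 0) := by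
      have : Tendsto (fun t : ℝ => t * ∑' i, ‖b (i + 1)‖) (𝓝 0) (𝓝 (0 * ∑' i, ‖b (i + 1)‖)) :=
        tendsto_id.mul_const _
      rw [zero_mul] at this
      exact this.mono_left nhdsWithin_le_nhds
    have hev : ∀ᶠ t in 𝓝[>] (0 : ℝ), ‖b 0‖ ≤ t * ∑' i, ‖b (i + 1)‖ := by
      filter_upwards [Ioo_mem_nhdsGT (show (0 : ℝ) < 1 by norm_num)] with t ht
      exact hbound t ht.1 ht.2
    have := ge_of_tendsto hlim hev
    exact norm_le_zero_iff.1 this
  refine ⟨hb0, ?_⟩
  intro t ht0 ht1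
  have h1 := hsplit t ht0 ht1
  rw [hb0] at h1
  have h2 : (t : ℂ) * ∑' i, b (i + 1) * (t : ℂ) ^ i = 0 := by
    rw [← neg_eq_zero, ← h1]
  have h3 : (t : ℂ) ≠ 0 := by
    rw [Ne, Complex.ofReal_eq_zero]; exact ht0.ne'
  exact (mul_eq_zero.1 h2).resolve_left h3

theorem coeff_zero (i : ℕ) : ∀ {b : ℕ → ℂ} (_ : Summable fun i => ‖b i‖)
    (_ : ∀ t : ℝ, 0 < t → t < 1 → ∑' i, b i * (t : ℂ) ^ i = 0), b i = 0 := by
  induction i with
  | zero => intro b hb h; exact (coeff_zero_aux hb h).1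
  | succ i ih =>
    intro b hb h
    exact ih (b := fun i => b (i + 1)) ((summable_nat_add_iff 1).2 hb) (coeff_zero_aux hb h).2

theorem inner_phi_eq_zero {s : ℝ} (hs : 1 < s) (Φ : HH)
    (h : ∀ x : ℝ, 0 < x → x < 1 → fL s Φ x = 0) (i : ℕ) : ⟪phi s i, Φ⟫_ℂ = 0 := by
  have hg := gg_pos
  have h5 : (0 : ℝ) < √5 := by positivity
  have hA := AA_pos hs i
  set b : ℕ → ℂ := fun i => (((-1) ^ i * AA s i : ℝ) : ℂ) * ⟪phi s i, Φ⟫_ℂ with hb
  have hsum : Summable fun i => ‖b i‖ := by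
    refine Summable.of_nonneg_of_le (fun i => norm_nonneg _) (fun i => ?_)
      ((summable_AA_phi hs).mul_right ‖Φ‖)
    simp only [hb]
    rw [norm_mul, Complex.norm_real, Real.norm_eq_abs, abs_mul, abs_pow, abs_neg, abs_one,
      one_pow, one_mul, abs_of_pos (AA_pos hs i), mul_assoc]
    exact mul_le_mul_of_nonneg_left (norm_inner_le_norm _ _) (AA_pos hs i).le
  have hzero : ∀ t : ℝ, 0 < t → t < 1 → ∑' i, b i * (t : ℂ) ^ i = 0 := by
    intro t ht0 ht1
    set u : ℝ := √5 / (1 - t) - gg with hu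
    have h1t : 0 < 1 - t := by linarith
    have hu1 : 1 < u := by
      have : √5 < √5 / (1 - t) := by
        rw [lt_div_iff₀ h1t]; nlinarith
      have h6 := sqrt5_eq
      have h7 : 1 < 2 * gg := by
        unfold gg
        have : 2 < √5 := by rw [Real.lt_sqrt] <;> norm_num
        linarith
      have h8 := gg_lt_one
      rw [hu]; linarith
    have hu0 : 0 < u := by linarith
    have hexp := fL_expansion hs (show 1 / 2 < u by linarith) Φ
    rw [h (1 / u) (by positivity) (by rw [div_lt_one hu0]; exact hu1), mul_zero] at hexp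
    have hut : 1 - √5 / (u + gg) = t := by
      rw [hu]
      field_simp
      ring
    have hc : (1 / (u + gg)) ^ s ≠ 0 := (rpow_pos_of_pos (by positivity) _).ne'
    have h2 := hexp.mul_left (((((1 / (u + gg)) ^ s)⁻¹ : ℝ) : ℂ))
    rw [mul_zero] at h2
    rw [← h2.tsum_eq]
    congr 1
    funext i
    simp only [hb, FF]
    rw [hut]
    have hc' : (((1 / (u + gg)) ^ s : ℝ) : ℂ) ≠ 0 := by
      rw [Ne, Complex.ofReal_eq_zero]; exact hc
    push_cast at hc' ⊢
    field_simp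
  have h3 := coeff_zero i hsum hzero
  simp only [hb] at h3
  rcases mul_eq_zero.1 h3 with h4 | h4
  · exfalso
    rw [Complex.ofReal_eq_zero] at h4
    rcases mul_eq_zero.1 h4 with h5 | h5
    · exact absurd h5 (pow_ne_zero _ (by norm_num))
    · exact hA.ne' h5
  · exact h4

end Pool.Agent.Helper32.RM
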