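import Mathlib
import Pool.Agent.Helper32.Unique
import Pool.Agent.Helper32.RMDefs

open Metric Set Filter Topology MeasureTheory
open scoped InnerProductSpace Nat

namespace Pool.Agent.Helper32.RM

open RuelleMayer

/-! ### Identity principle in `X` -/

theorem ext_eq_zero_of_real {f : X} (h : ∀ x : ℝ, 0 < x → x < 1 → ext f (x : ℂ) = 0) : f = 0 := by
  have hf : AnalyticOnNhd ℂ (ext f) (ball (1 : ℂ) (3 / 2)) :=
    DifferentiableOn.analyticOnNhd f.2 isOpen_ball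
  have hpre : IsPreconnected (ball (1 : ℂ) (3 / 2)) := (convex_ball _ _).isPreconnected
  have hmem : ((1 / 2 : ℝ) : ℂ) ∈ ball (1 : ℂ) (3 / 2) := by
    rw [mem_ball, dist_eq_norm, ← Complex.ofReal_one, ← Complex.ofReal_sub, Complex.norm_real]
    norm_num
  have hfreq : ∃ᶠ z in 𝓝[≠] (((1 / 2 : ℝ) : ℂ)), ext f z = 0 := by
    have h1 : ∃ᶠ x : ℝ in 𝓝[≠] (1 / 2 : ℝ), ext f (x : ℂ) = 0 := by
      apply Eventually.frequently
      have : Ioo (0 : ℝ) 1 ∈ 𝓝[≠] (1 / 2 : ℝ) :=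
        mem_nhdsWithin_of_mem_nhds (Ioo_mem_nhds (by norm_num) (by norm_num))
      filter_upwards [this] with x hx
      exact h x hx.1 hx.2
    have h2 : Tendsto (fun x : ℝ => (x : ℂ)) (𝓝[≠] (1 / 2 : ℝ)) (𝓝[≠] (((1 / 2 : ℝ) : ℂ))) := by
      apply tendsto_nhdsWithin_of_tendsto_nhds_of_eventually_within
      · exact (Complex.continuous_ofReal.tendsto _).mono_left nhdsWithin_le_nhds
      · filter_upwards [self_mem_nhdsWithin] with x hx
        intro h3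
        exact hx (Complex.ofReal_injective h3)
    exact h2.frequently h1
  have hzero := hf.eqOn_zero_of_preconnected_of_frequently_eq_zero hpre hmem hfreq
  apply Subtype.ext
  ext z
  change (f : C(Disc, ℂ)) z = 0
  have hclosed : IsClosed {z : Disc | (f : C(Disc, ℂ)) z = 0} :=
    isClosed_singleton.preimage (f : C(Disc, ℂ)).continuous
  have hdense : Dense {z : Disc | (z : ℂ) ∈ ball (1 : ℂ) (3 / 2)} := by
    intro z
    have hz : (z : ℂ) ∈ closure (ball (1 : ℂ) (3 / 2)) := by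
      rw [closure_ball _ (by norm_num)]; exact z.2
    rw [closure_subtype]
    refine closure_mono ?_ hz
    intro w hw
    exact ⟨⟨w, ball_subset_closedBall hw⟩, hw, rfl⟩
  have hsub : {z : Disc | (z : ℂ) ∈ ball (1 : ℂ) (3 / 2)} ⊆ {z : Disc | (f : C(Disc, ℂ)) z = 0} := by
    intro w hw
    have := hzero hw
    rw [ext_apply] at this
    exact this
  have : closure {z : Disc | (z : ℂ) ∈ ball (1 : ℂ) (3 / 2)} ⊆ {z : Disc | (f : C(Disc, ℂ)) z = 0} :=
    closure_minimal hsub hclosed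
  exact this (hdense z)

/-! ### The map `Ξ` -/

/-- Terms of the double series. -/
noncomputable def TT (s : ℝ) (Φ : HH) (q : ℕ × ℕ) (z : ℂ) : ℂ :=
  ((((-1) ^ q.1 * AA s q.1 : ℝ) : ℂ) * ⟪phi s q.1, Φ⟫_ℂ) *
    ((z + (q.2 + 1) + gg) ^ (-(s : ℂ)) * (1 - √5 / (z + (q.2 + 1) + gg)) ^ q.1)

theorem summable_TT_bound {s : ℝ} (hs : 1 < s) (Φ : HH) :
    Summable fun q : ℕ × ℕ => (AA s q.1 * ‖phi s q.1‖ * ‖Φ‖) * (1 / |(q.2 : ℝ) + 1 / 2| ^ s) := by
  have h1 := (summable_AA_phi hs).mul_right ‖Φ‖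
  have h2 := summable_bound hs (1 / 2)
  exact h1.mul_of_nonneg h2
    (fun i => mul_nonneg (mul_nonneg (AA_pos hs i).le (norm_nonneg _)) (norm_nonneg _))
    (fun n => by positivity)

theorem TT_bound {s : ℝ} (hs : 1 < s) (Φ : HH) (q : ℕ × ℕ) {z : ℂ} (hz : -(1 / 2) ≤ z.re) :
    ‖TT s Φ q z‖ ≤ (AA s q.1 * ‖phi s q.1‖ * ‖Φ‖) * (1 / |(q.2 : ℝ) + 1 / 2| ^ s) := by
  have hg := gg_pos
  have hA := AA_pos hs q.1
  unfold TT
  rw [norm_mul, norm_mul, norm_mul, Complex.norm_real, Real.norm_eq_abs, abs_mul, abs_pow, abs_neg,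
    abs_one, one_pow, one_mul, abs_of_pos hA]
  have h1 : ‖⟪phi s q.1, Φ⟫_ℂ‖ ≤ ‖phi s q.1‖ * ‖Φ‖ := norm_inner_le_norm _ _
  have h2 : ‖(z + (q.2 + 1) + gg) ^ (-(s : ℂ))‖ ≤ 1 / |(q.2 : ℝ) + 1 / 2| ^ s := by
    have := norm_cpow_bound (s := s) (by linarith) (a := 1 / 2) (by norm_num) (z := z + gg)
      (by simp; linarith) q.2
    rwa [show z + (gg : ℂ) + (q.2 + 1) = z + (q.2 + 1) + gg by ring] at this
  have h3 : ‖(1 - √5 / (z + (q.2 + 1) + gg)) ^ q.1‖ ≤ 1 := by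
    rw [norm_pow]
    apply pow_le_one₀ (norm_nonneg _)
    set w : ℂ := z + (q.2 + 1) + gg with hw
    have hre : √5 / 2 ≤ w.re := by
      have h4 : w.re = z.re + (q.2 + 1) + gg := by rw [hw]; simp
      have h5 : (0 : ℝ) ≤ q.2 := Nat.cast_nonneg _
      rw [h4, sqrt5_eq]; linarith
    have h5p : 0 < √5 := by positivity
    have hw0 : w ≠ 0 := by
      intro h; rw [h, Complex.zero_re] at hre; linarith
    have hwn : 0 < ‖w‖ := norm_pos_iff.2 hw0
    have h6 : 1 - (√5 : ℂ) / w = (w - √5) / w := by field_simp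
    rw [h6, norm_div, div_le_one hwn]
    have h7 : ‖w - √5‖ ^ 2 ≤ ‖w‖ ^ 2 := by
      rw [← Complex.normSq_eq_norm_sq, ← Complex.normSq_eq_norm_sq, Complex.normSq_apply,
        Complex.normSq_apply]
      simp only [Complex.sub_re, Complex.ofReal_re, Complex.sub_im, Complex.ofReal_im]
      nlinarith
    exact le_of_sq_le_sq h7 (norm_nonneg _)
  have h8 : ‖(z + (q.2 + 1) + gg) ^ (-(s : ℂ))‖ * ‖(1 - √5 / (z + (q.2 + 1) + gg)) ^ q.1‖ ≤
      1 / |(q.2 : ℝ) + 1 / 2| ^ s := by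
    calc _ ≤ (1 / |(q.2 : ℝ) + 1 / 2| ^ s) * 1 := mul_le_mul h2 h3 (norm_nonneg _) (by positivity)
      _ = _ := mul_one _
  have h9 : AA s q.1 * ‖⟪phi s q.1, Φ⟫_ℂ‖ ≤ AA s q.1 * ‖phi s q.1‖ * ‖Φ‖ := by
    rw [mul_assoc]
    exact mul_le_mul_of_nonneg_left h1 hA.le
  exact mul_le_mul h9 h8 (by positivity) (by positivity)

theorem TT_differentiableAt {s : ℝ} (Φ : HH) (q : ℕ × ℕ) {z : ℂ} (hz : -(3 / 5) < z.re) :
    DifferentiableAt ℂ (TT s Φ q) z := by
  have hg := gg_pos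
  have hslit : z + ((q.2 : ℂ) + 1) + gg ∈ Complex.slitPlane := by
    left
    have h2 : (0 : ℝ) ≤ q.2 := Nat.cast_nonneg _
    simp; linarith
  have h0 : DifferentiableAt ℂ (fun w : ℂ => w + ((q.2 : ℂ) + 1) + gg) z := by fun_prop
  have h1 := h0.cpow_const (c := -(s : ℂ)) hslit
  have h2 : DifferentiableAt ℂ (fun w : ℂ => (1 - √5 / (w + (q.2 + 1) + gg)) ^ q.1) z := by
    apply DifferentiableAt.pow
    apply DifferentiableAt.sub (differentiableAt_const _)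
    exact (differentiableAt_const _).div h0 (Complex.slitPlane_ne_zero hslit)
  unfold TT
  exact (h1.mul h2).const_mul _

/-- The function `Ξ Φ`. -/
noncomputable def XiFun (s : ℝ) (Φ : HH) (z : ℂ) : ℂ := ∑' q : ℕ × ℕ, TT s Φ q z

theorem XiFun_continuousOn {s : ℝ} (hs : 1 < s) (Φ : HH) :
    ContinuousOn (XiFun s Φ) (closedBall (1 : ℂ) (3 / 2)) := by
  unfold XiFun
  apply continuousOn_tsum _ (summable_TT_bound hs Φ)
  · intro q z hz
    exact TT_bound hs Φ q (re_of_mem_closedBall hz)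
  · intro q z hz
    have := re_of_mem_closedBall hz
    exact (TT_differentiableAt Φ q (by linarith)).continuousAt.continuousWithinAt

theorem XiFun_differentiableOn {s : ℝ} (hs : 1 < s) (Φ : HH) :
    DifferentiableOn ℂ (XiFun s Φ) (ball (1 : ℂ) (3 / 2)) := by
  unfold XiFun
  apply Complex.differentiableOn_tsum_of_summable_norm (summable_TT_bound hs Φ)
  · intro q z hz
    have := re_of_mem_ball hz
    exact (TT_differentiableAt Φ q (by linarith)).differentiableWithinAt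
  · exact isOpen_ball
  · intro q z hz
    exact TT_bound hs Φ q (re_of_mem_ball hz).le

theorem XiFun_add {s : ℝ} (hs : 1 < s) (Φ Ψ : HH) {z : ℂ} (hz : -(1 / 2) ≤ z.re) :
    XiFun s (Φ + Ψ) z = XiFun s Φ z + XiFun s Ψ z := by
  unfold XiFun
  rw [← (Summable.of_norm_bounded (summable_TT_bound hs Φ) fun q => TT_bound hs Φ q hz).tsum_add
    (Summable.of_norm_bounded (summable_TT_bound hs Ψ) fun q => TT_bound hs Ψ q hz)]
  congr 1
  funext q
  simp only [TT, inner_add_right]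
  ring

theorem XiFun_smul {s : ℝ} (c : ℂ) (Φ : HH) {z : ℂ} :
    XiFun s (c • Φ) z = c * XiFun s Φ z := by
  unfold XiFun
  rw [← tsum_mul_left]
  congr 1
  funext q
  simp only [TT, inner_smul_right]
  ring

/-- `Ξ Φ` as an element of `X`. -/
noncomputable def XiX (s : ℝ) (hs : 1 < s) (Φ : HH) : X :=
  ⟨⟨fun z : Disc => XiFun s Φ z,
    continuousOn_iff_continuous_domRestrict.1 (XiFun_continuousOn hs Φ)⟩, by
    change DifferentiableOn ℂ (ext _) (ball (1 : ℂ) (3 / 2))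
    refine (XiFun_differentiableOn hs Φ).congr fun z hz => ?_
    rw [ext_of_mem _ (ball_subset_closedBall hz)]
    rfl⟩

theorem ext_XiX {s : ℝ} (hs : 1 < s) (Φ : HH) {z : ℂ} (hz : z ∈ closedBall (1 : ℂ) (3 / 2)) :
    ext (XiX s hs Φ) z = XiFun s Φ z := by
  rw [ext_of_mem _ hz]
  rfl

/-- The linear map `Ξ : H → X`. -/
noncomputable def Xi (s : ℝ) (hs : 1 < s) : HH →ₗ[ℂ] X where
  toFun Φ := XiX s hs Φ
  map_add' Φ Ψ := by
    apply Subtype.ext
    ext z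
    exact XiFun_add hs Φ Ψ (re_of_mem_closedBall z.2)
  map_smul' c Φ := by
    apply Subtype.ext
    ext z
    exact XiFun_smul c Φ

theorem real_mem_closedBall {x : ℝ} (hx0 : 0 ≤ x) (hx1 : x ≤ 1) :
    (x : ℂ) ∈ closedBall (1 : ℂ) (3 / 2) := by
  rw [mem_closedBall, dist_eq_norm, ← Complex.ofReal_one, ← Complex.ofReal_sub, Complex.norm_real,
    Real.norm_eq_abs, abs_le]
  constructor <;> linarith

theorem ofReal_cpow_neg {u s : ℝ} (hu : 0 < u) :
    ((u : ℝ) : ℂ) ^ (-(s : ℂ)) = (((1 / u) ^ s : ℝ) : ℂ) := by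
  rw [← Complex.ofReal_neg, ← Complex.ofReal_cpow hu.le]
  congr 1
  rw [Real.rpow_neg hu.le, one_div, Real.inv_rpow hu.le]

theorem TT_real {s x : ℝ} (hx : 0 ≤ x) (Φ : HH) (q : ℕ × ℕ) :
    TT s Φ q x = (((-1) ^ q.1 * FF s q.1 (x + q.2 + 1) : ℝ) : ℂ) * ⟪phi s q.1, Φ⟫_ℂ := by
  have hg := gg_pos
  unfold TT FF
  have h1 : (x : ℂ) + (q.2 + 1) + gg = ((x + q.2 + 1 + gg : ℝ) : ℂ) := by push_cast; ring
  rw [h1, ofReal_cpow_neg (by positivity)]
  push_cast
  ring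

/-- Evaluation of `Ξ Φ` at real points, by rows and by columns. -/
theorem XiFun_real {s x : ℝ} (hs : 1 < s) (hx : 0 ≤ x) (Φ : HH) :
    XiFun s Φ x = fL s (Kop (phi s) Φ) x ∧
    HasSum (fun n : ℕ => (((1 / (x + n + 1)) ^ s : ℝ) : ℂ) * fL s Φ (1 / (x + n + 1)))
      (XiFun s Φ x) := by
  have hre : -(1 / 2 : ℝ) ≤ (x : ℂ).re := by rw [Complex.ofReal_re]; linarith
  have hsum : Summable fun q : ℕ × ℕ => TT s Φ q x :=
    Summable.of_norm_bounded (summable_TT_bound hs Φ) fun q => TT_bound hs Φ q hre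
  have hS := hsum.hasSum
  constructor
  · have h1 := hS.prod_fiberwise (g := fun i => (-1 : ℂ) ^ i * ⟪phi s i, Φ⟫_ℂ *
      ⟪vec s (ev x), phi s i⟫_ℂ) ?_
    · have h2 := hasSum_inner_Kop (shiftData hs).summable Φ (vec s (ev x))
      exact h1.unique h2
    · intro i
      have h3 := (inner_ev_phi hs hx i).mul_left ((-1 : ℂ) ^ i * ⟪phi s i, Φ⟫_ℂ)
      refine h3.congr_fun fun n => ?_
      simp only [TT_real hx]
      push_cast
      ring
  · have hswap : HasSum (fun q : ℕ × ℕ => TT s Φ (q.2, q.1) x) (XiFun s Φ x) :=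
      (Equiv.prodComm ℕ ℕ).hasSum_iff.2 hS
    refine hswap.prod_fiberwise fun n => ?_
    have hn : (0 : ℝ) ≤ n := Nat.cast_nonneg n
    have h3 := fL_expansion hs (show 1 / 2 < x + n + 1 by linarith) Φ
    refine h3.congr_fun fun i => ?_
    simp only [TT_real hx]

theorem G_Xi {s : ℝ} (hs : 1 < s) (Φ : HH) : G s hs (Xi s hs Φ) = Xi s hs (Kop (phi s) Φ) := by
  rw [← sub_eq_zero]
  apply ext_eq_zero_of_real
  intro x hx0 hx1
  have hmem := real_mem_closedBall hx0.le hx1.le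
  have h1 : ext (G s hs (Xi s hs Φ) - Xi s hs (Kop (phi s) Φ) : X) (x : ℂ) =
      ext (G s hs (Xi s hs Φ)) x - ext (Xi s hs (Kop (phi s) Φ)) x := by
    rw [ext_of_mem _ hmem, ext_of_mem _ hmem, ext_of_mem _ hmem]
    rfl
  rw [h1, sub_eq_zero]
  have h2 : ext (Xi s hs (Kop (phi s) Φ)) x = XiFun s (Kop (phi s) Φ) x := ext_XiX hs _ hmem
  have h3 := (XiFun_real hs hx0.le (Kop (phi s) Φ)).2
  rw [h2, ← h3.tsum_eq, ext_of_mem _ hmem, G_apply]
  congr 1
  funext n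
  have hn : (0 : ℝ) ≤ n := Nat.cast_nonneg n
  have e1 : (x : ℂ) + (n + 1) = ((x + n + 1 : ℝ) : ℂ) := by push_cast; ring
  simp only [e1]
  rw [ofReal_cpow_neg (by positivity)]
  congr 1
  have e2 : (1 : ℂ) / ((x + n + 1 : ℝ) : ℂ) = ((1 / (x + n + 1) : ℝ) : ℂ) := by push_cast; ring
  rw [e2]
  have h4 : (1 : ℝ) / (x + n + 1) ≤ 1 := by
    rw [div_le_one (by positivity)]; linarith
  have h5 : (0 : ℝ) ≤ 1 / (x + n + 1) := by positivity
  have h6 : ext (Xi s hs Φ) ((1 / (x + n + 1) : ℝ) : ℂ) =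
      XiFun s Φ ((1 / (x + n + 1) : ℝ) : ℂ) := ext_XiX hs _ (real_mem_closedBall h5 h4)
  rw [h6, (XiFun_real hs h5 Φ).1]

end Pool.Agent.Helper32.RM
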