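import Mathlib
import Pool.Agent.Helper32.Xi

open Metric Set Filter Topology MeasureTheory
open scoped InnerProductSpace Nat

namespace Pool.Agent.Helper32.RM

open RuelleMayer

/-- The vectors `β k`. -/
noncomputable def beta (s : ℝ) (k : ℕ) : HH :=
  (((-1) ^ k / CC s k : ℝ) : ℂ) • vec s (ell 1 s k)

theorem CC_lower {s : ℝ} (hs : 1 < s) (k : ℕ) : CC s 0 ≤ CC s k := by
  induction k with
  | zero => exact le_refl _
  | succ k ih =>
    have h1 := CC_succ (show 0 < s by linarith) k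
    have h2 := CC_pos (show 0 < s by linarith) k
    have h3 : (0 : ℝ) < (k : ℝ) + 1 := by positivity
    have h4 : CC s k ≤ CC s (k + 1) := by
      by_contra h
      push Not at h
      have h5 : CC s (k + 1) * (k + 1) < CC s k * (k + 1) := mul_lt_mul_of_pos_right h h3
      nlinarith
    exact ih.trans h4

theorem beta_norm {s : ℝ} (hs : 1 < s) (k : ℕ) :
    ‖beta s k‖ ^ 2 ≤ (1 + 1 / (s - 1)) / CC s 0 := by
  classical
  have hC := CC_pos (show 0 < s by linarith) k
  have hC0 := CC_pos (show 0 < s by linarith) 0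
  have hs1 : 0 < s - 1 := by linarith
  have h1 := (norm_bounds hs (show (0 : ℝ) < 1 by norm_num) (k + 1)
    (Pi.single k (((-1) ^ k / CC s k : ℝ) : ℂ))).2
  have hn : ‖(((-1) ^ k / CC s k : ℝ) : ℂ)‖ ^ 2 = 1 / CC s k ^ 2 := by
    rw [Complex.norm_real, Real.norm_eq_abs, sq_abs, div_pow, ← pow_mul, mul_comm k 2, pow_mul]
    norm_num
  have e1 : ∑ j ∈ Finset.range (k + 1), (Pi.single k (((-1) ^ k / CC s k : ℝ) : ℂ) : ℕ → ℂ) j •
      vec s (ell 1 s j) = beta s k := by
    rw [Finset.sum_eq_single k]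
    · rw [Pi.single_eq_same]; rfl
    · intro j _ hj
      rw [Pi.single_eq_of_ne hj, zero_smul]
    · intro hi
      exact absurd (Finset.mem_range.2 (Nat.lt_succ_self k)) hi
  have e2 : ∑ j ∈ Finset.range (k + 1), CC s j *
      ‖(Pi.single k (((-1) ^ k / CC s k : ℝ) : ℂ) : ℕ → ℂ) j‖ ^ 2 = 1 / CC s k := by
    rw [Finset.sum_eq_single k]
    · rw [Pi.single_eq_same, hn]
      field_simp
    · intro j _ hj
      rw [Pi.single_eq_of_ne hj]; simp
    · intro hi
      exact absurd (Finset.mem_range.2 (Nat.lt_succ_self k)) hi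
  have e3 : ∑ m ∈ Finset.range (k + 1), CC (s - 1) m *
      ‖∑ j ∈ Finset.Ico m (k + 1), (Pi.single k (((-1) ^ k / CC s k : ℝ) : ℂ) : ℕ → ℂ) j‖ ^ 2 =
      (∑ m ∈ Finset.range (k + 1), CC (s - 1) m) * (1 / CC s k ^ 2) := by
    rw [Finset.sum_mul]
    refine Finset.sum_congr rfl fun m hm => ?_
    rw [Finset.sum_eq_single k]
    · rw [Pi.single_eq_same, hn]
    · intro j _ hj
      rw [Pi.single_eq_of_ne hj]
    · intro hi
      exfalso; apply hi
      rw [Finset.mem_Ico]
      have := Finset.mem_range.1 hm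
      omega
  have e4 : ∑ m ∈ Finset.range (k + 1), CC (s - 1) m = CC s k / (s - 1) := by
    have := sum_CC hs1 k
    rw [sub_add_cancel] at this
    rw [← this]
    field_simp
  rw [e1, e2, e3, e4, Real.one_rpow, Real.one_rpow] at h1
  refine h1.trans ?_
  have h5 : 1 * (1 / CC s k) + 1 * (CC s k / (s - 1) * (1 / CC s k ^ 2)) =
      (1 + 1 / (s - 1)) / CC s k := by
    field_simp
  rw [h5]
  exact div_le_div_of_nonneg_left (by positivity) hC0 (CC_lower hs k)

/-- Taylor coefficients at `1`. -/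
noncomputable def aco (f : C(Disc, ℂ)) (k : ℕ) : ℂ := iteratedDeriv k (ext f) 1 / (k ! : ℂ)

theorem diffOn {f : C(Disc, ℂ)} (hf : f ∈ X) : DifferentiableOn ℂ (ext f) (ball (1 : ℂ) (3 / 2)) :=
  hf

theorem contDiffAt_ext {f : C(Disc, ℂ)} (hf : f ∈ X) (k : ℕ) :
    ContDiffAt ℂ k (ext f) 1 := by
  have h := (diffOn hf).analyticOnNhd isOpen_ball
  exact (h 1 (mem_ball_self (by norm_num))).contDiffAt

theorem aco_bound {f : C(Disc, ℂ)} (hf : f ∈ X) (k : ℕ) :
    ‖aco f k‖ ≤ ‖f‖ * (4 / 5) ^ k := by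
  unfold aco
  have hd : DiffContOnCl ℂ (ext f) (ball (1 : ℂ) (5 / 4)) := by
    apply DifferentiableOn.diffContOnCl_ball (U := ball (1 : ℂ) (3 / 2)) (diffOn hf)
    exact closedBall_subset_ball (by norm_num)
  have h := Complex.norm_iteratedDeriv_le_of_forall_mem_sphere_norm_le k
    (show (0 : ℝ) < 5 / 4 by norm_num) hd (C := ‖f‖) (fun z _ => norm_ext_le f z)
  have hk : (0 : ℝ) < k ! := by positivity
  rw [norm_div, Complex.norm_natCast, div_le_iff₀ hk]
  refine h.trans (le_of_eq ?_)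
  have : (5 / 4 : ℝ) ^ k * (4 / 5) ^ k = 1 := by
    rw [← mul_pow]; norm_num
  have h5 : (0 : ℝ) < (5 / 4) ^ k := by positivity
  field_simp
  linear_combination (-‖f‖) * this

theorem hasSum_aco {f : C(Disc, ℂ)} (hf : f ∈ X) {z : ℂ} (hz : z ∈ ball (1 : ℂ) (3 / 2)) :
    HasSum (fun k : ℕ => aco f k * (z - 1) ^ k) (ext f z) := by
  have h := Complex.hasSum_taylorSeries_on_ball (diffOn hf) hz
  refine h.congr_fun fun k => ?_
  unfold aco
  simp only [smul_eq_mul]
  ring

theorem aco_add {f g : C(Disc, ℂ)} (hf : f ∈ X) (hg : g ∈ X) (k : ℕ) :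
    aco (f + g) k = aco f k + aco g k := by
  unfold aco
  have : ext (f + g) = ext f + ext g := funext fun z => ext_add f g z
  rw [this, iteratedDeriv_add (contDiffAt_ext hf k) (contDiffAt_ext hg k)]
  ring

theorem aco_smul {f : C(Disc, ℂ)} (c : ℂ) (k : ℕ) :
    aco (c • f) k = c * aco f k := by
  unfold aco
  have : ext (c • f) = c • ext f := funext fun z => ext_smul c f z
  rw [this, iteratedDeriv_const_smul_field]
  simp only [smul_eq_mul]
  ring

theorem summable_Psi {s : ℝ} (hs : 1 < s) {f : C(Disc, ℂ)} (hf : f ∈ X) :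
    Summable fun k => aco f k • beta s k := by
  set B : ℝ := √((1 + 1 / (s - 1)) / CC s 0) with hB
  apply Summable.of_norm_bounded (g := fun k => (‖f‖ * B) * (4 / 5) ^ k)
  · exact (summable_geometric_of_lt_one (by norm_num) (by norm_num)).mul_left _
  · intro k
    rw [norm_smul]
    have h1 := aco_bound hf k
    have h2 : ‖beta s k‖ ≤ B := by
      rw [hB]
      exact Real.le_sqrt_of_sq_le (beta_norm hs k)
    calc ‖aco f k‖ * ‖beta s k‖ ≤ (‖f‖ * (4 / 5) ^ k) * B :=
          mul_le_mul h1 h2 (norm_nonneg _) (by positivity)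
      _ = _ := by ring

/-- The linear map `Ψ : X → H`. -/
noncomputable def Psi (s : ℝ) (hs : 1 < s) : X →ₗ[ℂ] HH where
  toFun f := ∑' k, aco f k • beta s k
  map_add' f g := by
    rw [← (summable_Psi hs f.2).tsum_add (summable_Psi hs g.2)]
    congr 1
    funext k
    rw [← add_smul, ← aco_add f.2 g.2]
    rfl
  map_smul' c f := by
    rw [RingHom.id_apply, ← (summable_Psi hs f.2).tsum_const_smul]
    congr 1
    funext k
    rw [smul_smul, ← aco_smul]
    rfl

theorem inner_ev_beta {s x : ℝ} (hs : 1 < s) (hx : 0 ≤ x) (k : ℕ) :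
    HasSum (fun n : ℕ => ((((1 / (x + n + 1)) ^ s * (1 / (x + n + 1) - 1) ^ k : ℝ)) : ℂ))
      ⟪vec s (ev x), beta s k⟫_ℂ := by
  have hC := CC_pos (show 0 < s by linarith) k
  have h := (inner_ev_ell (κ := 1) hs (le_refl _) hx k).mul_left (((-1) ^ k / CC s k : ℝ) : ℂ)
  rw [beta, inner_smul_right]
  refine h.congr_fun fun n => ?_
  rw [← Complex.ofReal_mul]
  congr 1
  have e : x + (1 - 1) / 2 + n + 1 = x + n + 1 := by ring
  rw [e]
  have e2 : (1 / (x + n + 1) - 1) ^ k = (-1) ^ k * (1 - 1 / (x + n + 1)) ^ k := by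
    rw [← mul_pow]; congr 1; ring
  rw [e2]
  field_simp

theorem fL_Psi {s x : ℝ} (hs : 1 < s) (hx : 0 ≤ x) (f : X) :
    fL s (Psi s hs f) x = series s (ext f) x := by
  have hf := f.2
  -- the double series
  set T : ℕ × ℕ → ℂ := fun q => aco f q.1 *
    ((((1 / (x + q.2 + 1)) ^ s * (1 / (x + q.2 + 1) - 1) ^ q.1 : ℝ)) : ℂ) with hT
  have hre : -(1 / 2 : ℝ) ≤ (x : ℂ).re := by rw [Complex.ofReal_re]; linarith
  have hsum : Summable T := by
    have h1 : Summable fun k : ℕ => ‖(f : C(Disc, ℂ))‖ * (4 / 5 : ℝ) ^ k :=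
      (summable_geometric_of_lt_one (by norm_num) (by norm_num)).mul_left _
    have h2 := summable_bound hs 1
    have h3 := h1.mul_of_nonneg h2 (fun k => by positivity) (fun n => by positivity)
    apply Summable.of_norm_bounded h3
    intro q
    simp only [hT]
    rw [norm_mul, Complex.norm_real, Real.norm_eq_abs, abs_mul, abs_pow]
    have hq : (0 : ℝ) ≤ q.2 := Nat.cast_nonneg _
    have hu : (0 : ℝ) < x + q.2 + 1 := by positivity
    have h4 : |1 / (x + q.2 + 1) - 1| ≤ 1 := by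
      rw [abs_le]
      constructor
      · have : 0 < 1 / (x + q.2 + 1) := by positivity
        linarith
      · have : 1 / (x + q.2 + 1) ≤ 1 := by rw [div_le_one hu]; linarith
        linarith
    have h5 : |1 / (x + q.2 + 1) - 1| ^ q.1 ≤ 1 := pow_le_one₀ (abs_nonneg _) h4
    have h6 : |(1 / (x + q.2 + 1)) ^ s| ≤ 1 / |(q.2 : ℝ) + 1| ^ s := by
      rw [abs_of_pos (Real.rpow_pos_of_pos (by positivity) _), abs_of_pos (by positivity),
        Real.div_rpow zero_le_one hu.le, Real.one_rpow]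
      apply one_div_le_one_div_of_le (by positivity)
      apply Real.rpow_le_rpow (by positivity) (by linarith) (by linarith)
    have h7 : |(1 / (x + q.2 + 1)) ^ s| * |1 / (x + q.2 + 1) - 1| ^ q.1 ≤
        1 / |(q.2 : ℝ) + 1| ^ s := by
      calc _ ≤ (1 / |(q.2 : ℝ) + 1| ^ s) * 1 := mul_le_mul h6 h5 (by positivity) (by positivity)
        _ = _ := mul_one _
    exact mul_le_mul (aco_bound hf q.1) h7 (by positivity) (by positivity)
  have hS := hsum.hasSum
  -- rows
  have hrow : fL s (Psi s hs f) x = ∑' q, T q := by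
    have h1 : HasSum (fun k => aco f k * ⟪vec s (ev x), beta s k⟫_ℂ) (fL s (Psi s hs f) x) := by
      have h := (summable_Psi hs hf).hasSum.mapL (innerSL ℂ (vec s (ev x)))
      refine h.congr_fun fun k => ?_
      simp
    have hrown : ∀ k : ℕ, HasSum (fun n : ℕ => T (k, n))
        (aco f k * ⟪vec s (ev x), beta s k⟫_ℂ) := by
      intro k
      have h3 := (inner_ev_beta hs hx k).mul_left (aco f k)
      refine h3.congr_fun fun n => ?_
      rw [hT]
    have h2 := hS.prod_fiberwise hrown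
    exact h1.unique h2
  -- columns
  have hcol : HasSum (fun n : ℕ => ((x : ℂ) + (n + 1)) ^ (-(s : ℂ)) *
      ext f (1 / ((x : ℂ) + (n + 1)))) (∑' q, T q) := by
    have hswap : HasSum (fun q : ℕ × ℕ => T (q.2, q.1)) (∑' q, T q) :=
      (Equiv.prodComm ℕ ℕ).hasSum_iff.2 hS
    have hcoln : ∀ n : ℕ, HasSum (fun k : ℕ => T (k, n)) (((x : ℂ) + (n + 1)) ^ (-(s : ℂ)) *
        ext f (1 / ((x : ℂ) + (n + 1)))) := by
      intro n
      have hn : (0 : ℝ) ≤ n := Nat.cast_nonneg n
      have hre2 : -(3 / 5) < (x : ℂ).re := by linarith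
      have hmem : (1 : ℂ) / ((x : ℂ) + (n + 1)) ∈ ball (1 : ℂ) (3 / 2) :=
        inv_mem_ball hre2 n
      have h3 := (hasSum_aco hf hmem).mul_left (((x : ℂ) + (n + 1)) ^ (-(s : ℂ)))
      refine h3.congr_fun fun k => ?_
      have e1 : (x : ℂ) + (n + 1) = ((x + n + 1 : ℝ) : ℂ) := by push_cast; ring
      have e3 : T (k, n) = aco f k *
        ((((1 / (x + n + 1)) ^ s * (1 / (x + n + 1) - 1) ^ k : ℝ)) : ℂ) := rfl
      rw [e3, e1, ofReal_cpow_neg (by positivity)]
      push_cast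
      ring
    exact hswap.prod_fiberwise hcoln
  rw [hrow, ← hcol.tsum_eq]
  rfl

end Pool.Agent.Helper32.RM
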