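import Mathlib
import Pool.Agent.Helper32.Psi
import Pool.Agent.Helper32.Eigen
import Pool.Agent.Helper32.MayerOp

open Metric Set Filter Topology MeasureTheory
open scoped InnerProductSpace Nat

namespace Pool.Agent.Helper32.RM

open RuelleMayer

/-! ### Comparison of the two descriptions of the space -/

theorem ext_inX (f : RuelleMayer.X) : MayerOp.InX (RuelleMayer.ext f) := by
  refine ⟨f.2, ?_, fun z hz => ?_⟩
  · rw [continuousOn_iff_continuous_domRestrict]
    refine (f : C(Disc, ℂ)).continuous.congr fun z => ?_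
    exact (ext_apply _ z).symm
  · unfold RuelleMayer.ext
    exact dif_neg hz

/-- From the first description to the second. -/
noncomputable def toX (f : RuelleMayer.X) : MayerOp.X := ⟨RuelleMayer.ext f, ext_inX f⟩

/-- From the second description to the first. -/
noncomputable def ofX (g : MayerOp.X) : RuelleMayer.X :=
  ⟨⟨fun z : Disc => (g : ℂ → ℂ) z, continuousOn_iff_continuous_domRestrict.1 g.2.2⟩, by
    change DifferentiableOn ℂ (RuelleMayer.ext _) (ball (1 : ℂ) (3 / 2))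
    refine g.2.1.congr fun z hz => ?_
    rw [ext_of_mem _ (ball_subset_closedBall hz)]
    rfl⟩

/-- The two descriptions of `X` agree. -/
noncomputable def equivX : RuelleMayer.X ≃ₗ[ℂ] MayerOp.X where
  toFun := toX
  invFun := ofX
  map_add' f g := Subtype.ext (funext fun z => ext_add f g z)
  map_smul' c f := Subtype.ext (funext fun z => ext_smul c f z)
  left_inv f := by
    apply Subtype.ext
    ext z
    exact ext_apply _ z
  right_inv g := by
    apply Subtype.ext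
    funext z
    change RuelleMayer.ext _ z = (g : ℂ → ℂ) z
    by_cases hz : z ∈ closedBall (1 : ℂ) (3 / 2)
    · rw [ext_of_mem _ hz]; rfl
    · rw [g.2.3 z hz]
      unfold RuelleMayer.ext
      rw [dif_neg hz]

theorem G_equivX {s : ℝ} (hs : 1 < s) (f : RuelleMayer.X) :
    MayerOp.G s hs (equivX f) = equivX (RuelleMayer.G s hs f) := by
  apply Subtype.ext
  funext z
  change MayerOp.closedDisc.indicator (MayerOp.series s (RuelleMayer.ext f)) z =
    RuelleMayer.ext (GC s hs f) z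
  by_cases hz : z ∈ MayerOp.closedDisc
  · rw [indicator_of_mem hz, ext_of_mem _ hz]
    rfl
  · rw [indicator_of_notMem hz]
    have hz' : z ∉ closedBall (1 : ℂ) (3 / 2) := hz
    unfold RuelleMayer.ext
    rw [dif_neg hz']

theorem equivX_symm_G {s : ℝ} (hs : 1 < s) (g : MayerOp.X) :
    equivX.symm (MayerOp.G s hs g) = RuelleMayer.G s hs (equivX.symm g) := by
  rw [LinearEquiv.symm_apply_eq, ← G_equivX, LinearEquiv.apply_symm_apply]

/-! ### The intertwining relations -/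

theorem ext_G {s x : ℝ} (hs : 1 < s) (hx0 : 0 ≤ x) (hx1 : x ≤ 1) (f : X) :
    ext (G s hs f) x = series s (ext f) x := by
  rw [ext_of_mem _ (real_mem_closedBall hx0 hx1)]
  rfl

theorem fL_Psi_eq {s x : ℝ} (hs : 1 < s) (hx0 : 0 ≤ x) (hx1 : x ≤ 1) (f : X) :
    fL s (Psi s hs f) x = ext (G s hs f) x := by
  rw [fL_Psi hs hx0, ext_G hs hx0 hx1]

theorem ext_Xi {s x : ℝ} (hs : 1 < s) (hx0 : 0 ≤ x) (hx1 : x ≤ 1) (Φ : HH) :
    ext (Xi s hs Φ) x = fL s (Kop (phi s) Φ) x := by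
  rw [← (XiFun_real hs hx0 Φ).1]
  exact ext_XiX hs Φ (real_mem_closedBall hx0 hx1)

theorem ext_sub' (f g : X) {x : ℝ} (hx0 : 0 ≤ x) (hx1 : x ≤ 1) :
    ext (f - g : X) (x : ℂ) = ext f x - ext g x := by
  have hmem := real_mem_closedBall hx0 hx1
  rw [ext_of_mem _ hmem, ext_of_mem _ hmem, ext_of_mem _ hmem]
  rfl

theorem Xi_Psi {s : ℝ} (hs : 1 < s) (f : X) : Xi s hs (Psi s hs f) = G s hs (G s hs f) := by
  rw [← sub_eq_zero]
  apply ext_eq_zero_of_real
  intro x hx0 hx1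
  rw [ext_sub' _ _ hx0.le hx1.le, sub_eq_zero]
  have h2 : ext (Xi s hs (Psi s hs f)) x = XiFun s (Psi s hs f) x :=
    ext_XiX hs _ (real_mem_closedBall hx0.le hx1.le)
  rw [h2, ← ((XiFun_real hs hx0.le (Psi s hs f)).2).tsum_eq, ext_G hs hx0.le hx1.le]
  unfold series
  congr 1
  funext n
  have hn : (0 : ℝ) ≤ n := Nat.cast_nonneg n
  have e1 : (x : ℂ) + (n + 1) = ((x + n + 1 : ℝ) : ℂ) := by push_cast; ring
  rw [e1, ofReal_cpow_neg (by positivity)]
  congr 1
  have e2 : (1 : ℂ) / ((x + n + 1 : ℝ) : ℂ) = ((1 / (x + n + 1) : ℝ) : ℂ) := by push_cast; ring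
  rw [e2]
  have h4 : (1 : ℝ) / (x + n + 1) ≤ 1 := by
    rw [div_le_one (by positivity)]; linarith
  have h5 : (0 : ℝ) ≤ 1 / (x + n + 1) := by positivity
  exact fL_Psi_eq hs h5 h4 f

theorem Kop_eq_zero_of_inner {s : ℝ} (hs : 1 < s) {D : HH} (h : ∀ i, ⟪phi s i, D⟫_ℂ = 0) :
    Kop (phi s) D = 0 := by
  have h1 := hasSum_Kop (shiftData hs).summable D
  have h2 : (fun i => ((-1 : ℂ) ^ i * ⟪phi s i, D⟫_ℂ) • phi s i) = fun _ => 0 := by
    funext i
    rw [h i, mul_zero, zero_smul]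
  rw [h2] at h1
  exact h1.unique hasSum_zero

theorem Kop_Psi {s : ℝ} (hs : 1 < s) (f : X) :
    Kop (phi s) (Kop (phi s) (Psi s hs f)) = Kop (phi s) (Psi s hs (G s hs f)) := by
  rw [← sub_eq_zero, ← map_sub]
  apply Kop_eq_zero_of_inner hs
  apply inner_phi_eq_zero hs
  intro x hx0 hx1
  unfold fL
  rw [inner_sub_right, sub_eq_zero]
  change fL s (Kop (phi s) (Psi s hs f)) x = fL s (Psi s hs (G s hs f)) x
  rw [← ext_Xi hs hx0.le hx1.le, fL_Psi_eq hs hx0.le hx1.le, Xi_Psi]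

theorem Xi_ne_zero {s : ℝ} (hs : 1 < s) {Φ : HH} {c : ℂ} (hc : c ≠ 0) (hΦ : Φ ≠ 0)
    (hK : Kop (phi s) Φ = c • Φ) : Xi s hs Φ ≠ 0 := by
  intro h0
  have h1 : Kop (phi s) Φ = 0 := by
    apply Kop_eq_zero_of_inner hs
    apply inner_phi_eq_zero hs
    intro x hx0 hx1
    have h2 := ext_Xi hs hx0.le hx1.le Φ
    rw [h0, hK] at h2
    have h3 : ext ((0 : X) : C(Disc, ℂ)) (x : ℂ) = 0 := ext_zero _
    rw [h3] at h2
    unfold fL at h2 ⊢
    rw [inner_smul_right] at h2
    rcases mul_eq_zero.1 h2.symm with h4 | h4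
    · exact absurd h4 hc
    · exact h4
  rw [hK] at h1
  rcases smul_eq_zero.1 h1 with h2 | h2
  · exact hc h2
  · exact hΦ h2

/-- The spectral structure of `G_s`. -/
theorem spectral {s : ℝ} (hs : 1 < s) : ∃ ν : ℕ → ℝ, (∀ k, 0 < (-1 : ℝ) ^ k * ν k) ∧
    (∀ k, |ν (k + 1)| ≤ (3 - √5) * |ν k|) ∧
    (∀ k, Module.finrank ℂ ((MayerOp.G s hs).maxGenEigenspace (ν k : ℂ)) = 1) ∧
    (∀ μ : ℂ, μ ≠ 0 → (∀ k, μ ≠ ν k) → (MayerOp.G s hs).maxGenEigenspace μ = ⊥) := by
  obtain ⟨e, ν, h1, h2, h3, h4, h5⟩ := alternating (shiftData hs)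
  have hE : EigData (phi s) (2 * gg ^ 2) e ν := ⟨shiftData hs, h1, h2, h3, h4, h5⟩
  have hρ : 2 * gg ^ 2 = 3 - √5 := by
    rw [gg_sq, sqrt5_eq]; ring
  have htr := hE.transfer (MayerOp.G s hs)
    (((Kop (phi s) : HH →ₗ[ℂ] HH) ∘ₗ Psi s hs) ∘ₗ (equivX.symm : MayerOp.X →ₗ[ℂ] RuelleMayer.X))
    ((equivX : RuelleMayer.X →ₗ[ℂ] MayerOp.X) ∘ₗ Xi s hs) ?_ ?_ ?_ ?_
  · refine ⟨ν, h3, ?_, htr.1, htr.2⟩
    rw [← hρ]
    exact h4
  · intro g
    change Kop (phi s) (Kop (phi s) (Psi s hs (equivX.symm g))) =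
      Kop (phi s) (Psi s hs (equivX.symm (MayerOp.G s hs g)))
    rw [Kop_Psi, equivX_symm_G]
  · intro g hg
    have hf' : Kop (phi s) (Psi s hs (equivX.symm g)) = 0 := hg
    have h6 : (MayerOp.G s hs ^ 3) g = MayerOp.G s hs (MayerOp.G s hs (MayerOp.G s hs g)) := rfl
    apply equivX.symm.injective
    rw [h6, equivX_symm_G, equivX_symm_G, equivX_symm_G, ← Xi_Psi hs (equivX.symm g), G_Xi, hf',
      map_zero, map_zero]
  · intro x
    change MayerOp.G s hs (equivX (Xi s hs x)) = equivX (Xi s hs (Kop (phi s) x))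
    rw [G_equivX, G_Xi]
  · intro k
    change equivX (Xi s hs (e k)) ≠ 0
    rw [Ne, LinearEquiv.map_eq_zero_iff]
    apply Xi_ne_zero hs (c := (ν k : ℂ)) _ _ (h2 k)
    · rw [Ne, Complex.ofReal_eq_zero]; exact hE.ne_zero k
    · exact h1.ne_zero k

/-- Any eigenvalue list is the list `ν`. -/
theorem list_eq {V : Type} [AddCommGroup V] [Module ℂ V] {T : Module.End ℂ V} {ν : ℕ → ℝ}
    (hν : StrictAnti fun k => |ν k|) (hν0 : ∀ k, ν k ≠ 0)
    (h1 : ∀ k, Module.finrank ℂ (T.maxGenEigenspace (ν k : ℂ)) = 1)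
    (h2 : ∀ μ : ℂ, μ ≠ 0 → (∀ k, μ ≠ ν k) → T.maxGenEigenspace μ = ⊥) :
    MayerOp.IsEigenvalueList T (fun k => (ν k : ℂ)) ∧
    ∀ lam : ℕ → ℂ, MayerOp.IsEigenvalueList T lam → lam = fun k => (ν k : ℂ) := by
  have hinj : Function.Injective ν := fun i j hij => hν.injective (by simp only [hij])
  have hrank : ∀ k, MayerOp.algMult T (ν k : ℂ) = 1 := fun k =>
    Module.rank_eq_one_iff_finrank_eq_one.2 (h1 k)
  constructor
  · refine ⟨fun k => ?_, fun k => ?_, fun μ hμ => ?_⟩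
    · simp only [ne_eq, Complex.ofReal_eq_zero]; exact hν0 k
    · simp only [Complex.norm_real, Real.norm_eq_abs]
      exact (hν (Nat.lt_succ_self k)).le
    · by_cases hk : ∃ k, μ = ν k
      · obtain ⟨k, rfl⟩ := hk
        rw [hrank, Cardinal.eq_one_iff_unique]
        constructor
        · constructor
          rintro ⟨i, hi⟩ ⟨j, hj⟩
          apply Subtype.ext
          exact hinj (Complex.ofReal_injective (hi.trans hj.symm))
        · exact ⟨⟨k, rfl⟩⟩
      · push Not at hk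
        rw [MayerOp.algMult, h2 μ hμ hk, rank_bot, Cardinal.mk_eq_zero_iff]
        constructor
        rintro ⟨j, hj⟩
        exact hk j hj.symm
  · intro lam hlam
    have hval : ∀ j, ∃ k, lam j = ν k := by
      intro j
      by_contra hne
      push Not at hne
      have h3 := hlam.mult (lam j) (hlam.ne_zero j)
      rw [MayerOp.algMult, h2 _ (hlam.ne_zero j) hne, rank_bot, Cardinal.mk_eq_zero_iff] at h3
      exact h3.false ⟨j, rfl⟩
    have hone : ∀ k, ∃ j, lam j = ν k := by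
      intro k
      have h3 := hlam.mult (ν k : ℂ) (by rw [Ne, Complex.ofReal_eq_zero]; exact hν0 k)
      rw [hrank, Cardinal.eq_one_iff_unique] at h3
      obtain ⟨⟨j, hj⟩⟩ := h3.2
      exact ⟨j, hj⟩
    have huniq : ∀ k i j, lam i = ν k → lam j = ν k → i = j := by
      intro k i j hi hj
      have h3 := hlam.mult (ν k : ℂ) (by rw [Ne, Complex.ofReal_eq_zero]; exact hν0 k)
      rw [hrank, Cardinal.eq_one_iff_unique] at h3
      have := h3.1.elim ⟨i, hi⟩ ⟨j, hj⟩
      exact congrArg Subtype.val this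
    have hanti : StrictAnti fun j => ‖lam j‖ := by
      apply strictAnti_nat_of_succ_lt
      intro j
      refine lt_of_le_of_ne (hlam.norm_succ_le j) ?_
      intro heq
      obtain ⟨k, hk⟩ := hval j
      obtain ⟨l, hl⟩ := hval (j + 1)
      rw [hk, hl, Complex.norm_real, Complex.norm_real, Real.norm_eq_abs, Real.norm_eq_abs] at heq
      have hkl : l = k := hν.injective heq
      rw [hkl] at hl
      have := huniq k _ _ hk hl
      omega
    have hrange : Set.range (fun j => -‖lam j‖) = Set.range (fun k => -|ν k|) := by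
      apply Set.Subset.antisymm
      · rintro _ ⟨j, rfl⟩
        obtain ⟨k, hk⟩ := hval j
        exact ⟨k, by simp only [hk, Complex.norm_real, Real.norm_eq_abs]⟩
      · rintro _ ⟨k, rfl⟩
        obtain ⟨j, hj⟩ := hone k
        exact ⟨j, by simp only [hj, Complex.norm_real, Real.norm_eq_abs]⟩
    have hm1 : StrictMono (fun j => -‖lam j‖) := fun i j hij => neg_lt_neg (hanti hij)
    have hm2 : StrictMono (fun k => -|ν k|) := fun i j hij => neg_lt_neg (hν hij)
    have heq := (StrictMono.range_inj hm1 hm2).1 hrange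
    funext j
    obtain ⟨k, hk⟩ := hval j
    have h3 := congrFun heq j
    simp only [hk, Complex.norm_real, Real.norm_eq_abs, neg_inj] at h3
    have hkj : k = j := hν.injective h3
    rw [hk, hkj]

theorem strictAnti_of_ratio {ν : ℕ → ℝ} (h1 : ∀ k, 0 < (-1 : ℝ) ^ k * ν k)
    (h2 : ∀ k, |ν (k + 1)| ≤ (3 - √5) * |ν k|) : StrictAnti fun k => |ν k| := by
  apply strictAnti_nat_of_succ_lt
  intro k
  have h3 : ν k ≠ 0 := by
    intro h0
    have := h1 k
    rw [h0, mul_zero] at this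
    exact lt_irrefl _ this
  have h4 : 0 < |ν k| := abs_pos.2 h3
  have h5 : 2 < √5 := by rw [Real.lt_sqrt] <;> norm_num
  have h6 := h2 k
  nlinarith

end Pool.Agent.Helper32.RM
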